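import Pool.Agent.Lib_helper75.Miller.Dec

/-!
No dominating reals, and the bounding of names for natural numbers relative to an initial segment
of the coordinates.
-/

set_option autoImplicit false
set_option linter.unusedSectionVars false

universe u v

namespace Pool.Agent.Miller

variable {W : Type u} [LinearOrder W] [WellFoundedLT W]

/-- The conditions do not add dominating reals. -/
theorem not_dominated {f : Pt W → ℕ → ℕ} (hf : Measurable f) :
    ∃ h : ℕ → ℕ, ∃ L : Cond W, ∀ z m, ∃ l, m ≤ l ∧ f (L.eval z) l < h l := by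
  let D : ℕ → ℕ → Set (Cond W) := fun m i => {K | ∃ a, ∀ z, f (K.eval z) (Nat.pair m i) = a}
  have hd : ∀ m i, DenseIn Set.univ (D m i) := by
    intro m i H _
    obtain ⟨L, a, hL⟩ := exists_const (g := fun z => f z (Nat.pair m i))
      ((measurable_pi_apply _).comp hf) H
    exact ⟨L, L.in_univ, a, hL⟩
  have ho : ∀ m i, OpenIn Set.univ (D m i) := by
    rintro m i H ⟨a, ha⟩ L _
    exact ⟨a, fun z => by rw [Cond.mul_eval]; exact ha _⟩
  obtain ⟨K, -, -, hK⟩ := readable_all isLowerSet_univ ∅ (by simp) 1 one_pos D hd ho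
  choose j hj1 hj2 hj3 using hK
  choose H hH hHI l hl using hj3
  choose a ha using hH
  refine ⟨fun k => a k.unpair.1 k.unpair.2 + 1, K, fun z m => ⟨Nat.pair m (j m z),
    Nat.left_le_pair _ _, ?_⟩⟩
  rw [(hl m (j m z)).eval z rfl, ha]
  simp

/-- The code that adds a fixed sequence. -/
def addCode (h : ℕ → ℕ) : Node → Node
  | [] => []
  | k :: s => (k + h s.length) :: addCode h s

theorem isCode_addCode (h : ℕ → ℕ) : IsCode (addCode h) where
  ext s n := ⟨n + h s.length, List.suffix_refl _⟩
  inj s n m k h1 h2 := by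
    have h3 := h1.eq_of_length (by simp [addCode])
    have h4 := h2.eq_of_length (by simp [addCode])
    simp only [addCode, List.cons.injEq, and_true] at h3 h4
    omega

theorem length_addCode (h : ℕ → ℕ) (s : Node) : (addCode h s).length = s.length := by
  induction s with
  | nil => rfl
  | cons k s ih => simp [addCode, ih]

theorem ev_addCode (h y : ℕ → ℕ) (i : ℕ) : ev (addCode h) y i = y i + h i := by
  unfold ev
  rw [res_succ, addCode]
  have h1 : i = (addCode h (res y i)).length := by rw [length_addCode, length_res]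
  conv_lhs => rw [length_res]; arg 2; rw [h1]
  exact nth_cons _ _

theorem exists_unbounded {f : Pt W → ℕ → ℕ} (hf : Measurable f) (H : Cond W) {B : Set W}
    (hB : ¬ B.Countable) : ∃ β ∈ B, ∃ L : Cond W, ∀ z m, ∃ l, m ≤ l ∧
      f ((H * L).eval z) l < (H * L).eval z β l := by
  obtain ⟨h, K, hK⟩ := not_dominated (f := fun z => f (H.eval z)) (hf.comp H.measurable_eval)
  obtain ⟨β, hβ, hβ'⟩ : ∃ β ∈ B, β ∉ {β | ∃ z, H.code β z ≠ id} ∪ {β | ∃ z, K.code β z ≠ id} := by
    by_contra hcon
    push Not at hcon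
    exact hB ((H.supp.union K.supp).mono hcon)
  have hβH : ∀ z, H.code β z = id := by
    intro z
    by_contra hne
    exact hβ' (Or.inl ⟨z, hne⟩)
  have hβK : ∀ z, K.code β z = id := by
    intro z
    by_contra hne
    exact hβ' (Or.inr ⟨z, hne⟩)
  let S : Cond W := Cond.single β (fun _ => addCode h) (fun _ _ _ => rfl)
    (fun _ => measurable_const) (fun _ => isCode_addCode h)
  refine ⟨β, hβ, K * S, fun z m => ?_⟩
  obtain ⟨l, hl1, hl2⟩ := hK (S.eval z) m
  refine ⟨l, hl1, ?_⟩
  have h1 : (H * (K * S)).eval z β l = z β l + h l := by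
    rw [Cond.mul_eval, Cond.mul_eval, Cond.eval_apply, hβH, ev_id, Cond.eval_apply, hβK, ev_id,
      Cond.eval_apply, Cond.single_code_self, ev_addCode]
  rw [h1, Cond.mul_eval, Cond.mul_eval]
  omega

/-! ### Thinning -/

/-- An increasing enumeration of an infinite set of natural numbers. -/
noncomputable def enumP (p : ℕ → Prop) : ℕ → ℕ
  | 0 => pick p
  | k + 1 => pick fun m => enumP p k < m ∧ p m

theorem pick_spec {P : ℕ → Prop} (h : ∃ k, P k) : P (pick P) := by
  classical
  unfold pick
  rw [dif_pos h]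
  exact Nat.find_spec h

theorem enumP_spec {p : ℕ → Prop} (h : ∀ m, ∃ k, m ≤ k ∧ p k) (k : ℕ) : p (enumP p k) := by
  cases k with
  | zero =>
    obtain ⟨k, -, hk⟩ := h 0
    exact pick_spec ⟨k, hk⟩
  | succ k =>
    obtain ⟨m, hm1, hm2⟩ := h (enumP p k + 1)
    exact (pick_spec (P := fun m => enumP p k < m ∧ p m) ⟨m, hm1, hm2⟩).2

theorem enumP_strictMono {p : ℕ → Prop} (h : ∀ m, ∃ k, m ≤ k ∧ p k) : StrictMono (enumP p) := by
  refine strictMono_nat_of_lt_succ fun k => ?_
  obtain ⟨m, hm1, hm2⟩ := h (enumP p k + 1)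
  exact (pick_spec (P := fun m => enumP p k < m ∧ p m) ⟨m, hm1, hm2⟩).1

theorem measurable_enumP {Y : Type*} [MeasurableSpace Y] {p : Y → ℕ → Prop}
    (hp : ∀ k, MeasurableSet {a | p a k}) (k : ℕ) : Measurable fun a => enumP (p a) k := by
  induction k with
  | zero => exact measurable_pick hp
  | succ k ih =>
    refine measurable_comp_countable (f := fun a (e : ℕ) => pick fun m => e < m ∧ p a m)
      (fun e => measurable_pick fun m => ?_) ih
    exact (MeasurableSet.const (e < m)).inter (hp m)

instance instMeasurableSpaceFinset : MeasurableSpace (Finset ℕ) := ⊤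

instance instDiscreteFinset : DiscreteMeasurableSpace (Finset ℕ) := ⟨fun _ => trivial⟩

theorem infinite_pigeonhole {C : Type*} [Finite C] (p : ℕ → Prop) (hp : ∀ m, ∃ k, m ≤ k ∧ p k)
    (g : ℕ → C) : ∃ c, ∀ m, ∃ k, m ≤ k ∧ p k ∧ g k = c := by
  by_contra hcon
  push Not at hcon
  choose m hm using hcon
  obtain ⟨M, hM⟩ : ∃ M, ∀ c, m c ≤ M := by
    obtain ⟨M, hM⟩ := (Set.finite_range m).bddAbove
    exact ⟨M, fun c => hM ⟨c, rfl⟩⟩
  obtain ⟨k, hk1, hk2⟩ := hp M
  exact hm (g k) k ((hM _).trans hk1) hk2 rfl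

theorem exists_new_children {n : ℕ} {s : Node} (hs : Old n s) (m : ℕ) :
    ∃ k, m ≤ k ∧ IsNew n (k :: s) := by
  refine ⟨max m n, le_max_left _ _, max m n, s, rfl, hs, ?_⟩
  unfold Old
  rw [Encodable.encode_list_cons, not_lt]
  have h1 : max m n ≤ Nat.pair (Encodable.encode (max m n)) (Encodable.encode s) :=
    Nat.left_le_pair _ _
  have h2 := le_max_right m n
  omega

theorem card_old_le (n : ℕ) : (finite_old n).toFinset.card ≤ n := by
  have h1 : ((finite_old n).toFinset.image Encodable.encode) ⊆ Finset.range n := by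
    intro k hk
    obtain ⟨s, hs, rfl⟩ := Finset.mem_image.mp hk
    have : Old n s := by simpa using hs
    exact Finset.mem_range.mpr this
  have h2 := Finset.card_le_card h1
  rwa [Finset.card_image_of_injective _ Encodable.encode_injective, Finset.card_range] at h2

end Pool.Agent.Miller
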