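import Mathlib

/-!
Codes of superperfect trees. A node is a finite sequence of natural numbers, written in reverse
order. A code is a map of the nodes that describes an embedding of the Baire space onto the
branches of a superperfect tree.
-/

set_option autoImplicit false

namespace Pool.Agent.Miller

/-- Finite sequences of natural numbers, in reverse order. -/
abbrev Node := List ℕ

instance instMeasurableSpaceNode : MeasurableSpace Node := ⊤

instance instDiscreteNode : DiscreteMeasurableSpace Node := ⟨fun _ => trivial⟩

/-! ### Nodes -/

/-- The first `n` terms of a sequence. -/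
def res (y : ℕ → ℕ) : ℕ → Node
  | 0 => []
  | n + 1 => y n :: res y n

@[simp] theorem res_zero (y : ℕ → ℕ) : res y 0 = [] := rfl

@[simp] theorem res_succ (y : ℕ → ℕ) (n : ℕ) : res y (n + 1) = y n :: res y n := rfl

@[simp] theorem length_res (y : ℕ → ℕ) (n : ℕ) : (res y n).length = n := by
  induction n with
  | zero => rfl
  | succ n ih => simp [ih]

theorem res_suffix (y : ℕ → ℕ) {m n : ℕ} (h : m ≤ n) : res y m <:+ res y n := by
  induction h with
  | refl => exact List.suffix_refl _
  | step h ih => exact ih.trans (List.suffix_cons _ _)

/-- The term number `i` of a node. -/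
def nth (s : Node) (i : ℕ) : ℕ := s.reverse.getD i 0

theorem nth_suffix {s t : Node} (h : s <:+ t) {i : ℕ} (hi : i < s.length) : nth s i = nth t i := by
  obtain ⟨u, rfl⟩ := h
  unfold nth
  rw [List.reverse_append, List.getD_append]
  simpa using hi

theorem nth_cons (k : ℕ) (s : Node) : nth (k :: s) s.length = k := by
  simp [nth]

theorem nth_res (y : ℕ → ℕ) {n i : ℕ} (hi : i < n) : nth (res y n) i = y i := by
  have h : res y (i + 1) <:+ res y n := res_suffix y hi
  rw [← nth_suffix h (by simp), res_succ]
  have := nth_cons (y i) (res y i)
  rwa [length_res] at this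

theorem nth_ext {s t : Node} (hl : s.length = t.length) (h : ∀ i < s.length, nth s i = nth t i) :
    s = t := by
  induction s generalizing t with
  | nil => exact (List.length_eq_zero_iff.mp hl.symm).symm
  | cons a s ih =>
    cases t with
    | nil => simp at hl
    | cons b t =>
      have hl' : s.length = t.length := by simpa using hl
      have h1 := h s.length (by simp)
      rw [nth_cons] at h1
      rw [hl', nth_cons] at h1
      have h2 : s = t := by
        refine ih hl' fun i hi => ?_
        have h3 := h i (by simp; omega)
        rw [← nth_suffix (List.suffix_cons a s) hi,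
          ← nth_suffix (List.suffix_cons b t) (by omega)] at h3
        exact h3
      rw [h1, h2]

theorem suffix_eq {s t u : Node} (h1 : s <:+ u) (h2 : t <:+ u) (hl : s.length = t.length) :
    s = t := by
  have h3 := List.suffix_of_suffix_length_le h1 h2 hl.le
  exact h3.eq_of_length hl

theorem res_eq_of_suffix {y : ℕ → ℕ} {s : Node} {n : ℕ} (h : s <:+ res y n) :
    res y s.length = s := by
  have hl : s.length ≤ n := by simpa using h.length_le
  exact suffix_eq (res_suffix y hl) h (by simp)

/-- The sequence that starts with the node `s` and continues with `y`. -/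
def app (s : Node) (y : ℕ → ℕ) : ℕ → ℕ := fun i => if i < s.length then nth s i else y (i - s.length)

theorem res_app_length (s : Node) (y : ℕ → ℕ) : res (app s y) s.length = s := by
  refine nth_ext (by simp) fun i hi => ?_
  have hi' : i < s.length := by simpa using hi
  rw [nth_res _ hi']
  simp [app, hi']

theorem res_app (s : Node) (y : ℕ → ℕ) (n : ℕ) : res (app s y) (n + s.length) = res y n ++ s := by
  induction n with
  | zero => simpa using res_app_length s y
  | succ n ih =>
    rw [show n + 1 + s.length = (n + s.length) + 1 by omega, res_succ, ih, res_succ]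
    simp [app]

theorem app_shift {s : Node} {y : ℕ → ℕ} (h : res y s.length = s) :
    app s (fun i => y (i + s.length)) = y := by
  funext i
  unfold app
  split_ifs with hi
  · rw [← nth_res y hi, h]
  · simp only
    congr 1
    omega

theorem app_nil (y : ℕ → ℕ) : app [] y = y := by
  funext i
  simp [app]

/-! ### Codes -/

/-- Codes of superperfect trees. -/
structure IsCode (c : Node → Node) : Prop where
  ext : ∀ s n, ∃ k, (k :: c s) <:+ c (n :: s)
  inj : ∀ s n m k, (k :: c s) <:+ c (n :: s) → (k :: c s) <:+ c (m :: s) → n = m

theorem isCode_id : IsCode id where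
  ext s n := ⟨n, List.suffix_refl _⟩
  inj s n m k h1 h2 := by
    have h3 := h1.eq_of_length (by simp)
    have h4 := h2.eq_of_length (by simp)
    simp at h3 h4
    rw [← h3, ← h4]

namespace IsCode

variable {c d : Node → Node}

theorem suffix (hc : IsCode c) {s t : Node} (h : s <:+ t) : c s <:+ c t := by
  induction t with
  | nil => rw [List.suffix_nil.mp h]
  | cons a t ih =>
    rcases List.suffix_cons_iff.mp h with h | h
    · rw [h]
    · obtain ⟨k, hk⟩ := hc.ext t a
      exact (ih h).trans ((List.suffix_cons k _).trans hk)

theorem length_le (hc : IsCode c) (s : Node) : s.length ≤ (c s).length := by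
  induction s with
  | nil => simp
  | cons a s ih =>
    obtain ⟨k, hk⟩ := hc.ext s a
    have := hk.length_le
    simp at this ⊢
    omega

theorem comp (hc : IsCode c) (hd : IsCode d) : IsCode (c ∘ d) where
  ext s n := by
    obtain ⟨k, hk⟩ := hd.ext s n
    obtain ⟨l, hl⟩ := hc.ext (d s) k
    exact ⟨l, hl.trans (hc.suffix hk)⟩
  inj s n m k h1 h2 := by
    obtain ⟨a, ha⟩ := hd.ext s n
    obtain ⟨b, hb⟩ := hd.ext s m
    have key : ∀ a n, (a :: d s) <:+ d (n :: s) → (k :: (c ∘ d) s) <:+ (c ∘ d) (n :: s) →
        (k :: c (d s)) <:+ c (a :: d s) := by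
      intro a n ha h1
      obtain ⟨l, hl⟩ := hc.ext (d s) a
      have h3 := suffix_eq (hl.trans (hc.suffix ha)) h1 (by simp)
      rw [h3] at hl
      exact hl
    have h3 := hc.inj (d s) a b k (key a n ha h1) (key b m hb h2)
    rw [← h3] at hb
    exact hd.inj s n m a ha hb

end IsCode

/-- The map of the Baire space given by a code. -/
def ev (c : Node → Node) (y : ℕ → ℕ) : ℕ → ℕ := fun i => nth (c (res y (i + 1))) i

theorem res_ev {c : Node → Node} (hc : IsCode c) (y : ℕ → ℕ) (n : ℕ) :
    res (ev c y) (c (res y n)).length = c (res y n) := by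
  refine nth_ext (by simp) fun i hi => ?_
  have hi' : i < (c (res y n)).length := by simpa using hi
  rw [nth_res _ hi']
  unfold ev
  rcases le_total n (i + 1) with h | h
  · exact (nth_suffix (hc.suffix (res_suffix y h)) hi').symm
  · refine nth_suffix (hc.suffix (res_suffix y h)) ?_
    have := hc.length_le (res y (i + 1))
    rw [length_res] at this
    omega

theorem ev_id (y : ℕ → ℕ) : ev id y = y := by
  funext i
  exact nth_res y (Nat.lt_succ_self i)

theorem ev_comp {c d : Node → Node} (hc : IsCode c) (hd : IsCode d) (y : ℕ → ℕ) :
    ev (c ∘ d) y = ev c (ev d y) := by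
  funext i
  show nth (c (d (res y (i + 1)))) i = nth (c (res (ev d y) (i + 1))) i
  have hl : i + 1 ≤ (d (res y (i + 1))).length := by
    have := hd.length_le (res y (i + 1))
    rwa [length_res] at this
  have h1 : res (ev d y) (i + 1) <:+ d (res y (i + 1)) := by
    have h2 := res_suffix (ev d y) hl
    rwa [res_ev hd] at h2
  refine (nth_suffix (hc.suffix h1) ?_).symm
  have := hc.length_le (res (ev d y) (i + 1))
  rw [length_res] at this
  omega

theorem isCode_append (N : Node) : IsCode (fun t => t ++ N) where
  ext s n := ⟨n, by simp⟩
  inj s n m k h1 h2 := by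
    have h3 := h1.eq_of_length (by simp)
    have h4 := h2.eq_of_length (by simp)
    simp at h3 h4
    rw [← h3, ← h4]

theorem eq_of_res {y y' : ℕ → ℕ} (h : ∀ n, ∃ m, n ≤ m ∧ res y m = res y' m) : y = y' := by
  funext i
  obtain ⟨m, hm, h1⟩ := h (i + 1)
  rw [← nth_res y (show i < m by omega), h1, nth_res y' (by omega)]

theorem ev_append (N : Node) (y : ℕ → ℕ) : ev (fun t => t ++ N) y = app N y := by
  refine eq_of_res fun n => ⟨n + N.length, by omega, ?_⟩
  rw [res_app]
  have := res_ev (isCode_append N) y n
  simpa using this

/-- If all the branches of a code extend a node then its stem extends the node. -/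
theorem stem_of_forall {c : Node → Node} (hc : IsCode c) {N : Node}
    (h : ∀ y, res (ev c y) N.length = N) : N <:+ c [] := by
  by_contra hN
  have hlt : (c []).length < N.length := by
    by_contra hle
    push Not at hle
    apply hN
    have h1 := res_ev hc (fun _ => 0) 0
    have h2 := res_suffix (ev c fun _ => 0) hle
    rw [res_zero] at h1
    rw [h, h1] at h2
    exact h2
  obtain ⟨a, ha⟩ := hc.ext [] 0
  obtain ⟨b, hb⟩ := hc.ext [] 1
  have key : ∀ k a, (a :: c []) <:+ c [k] → (a :: c []) <:+ N := by
    intro k a ha
    have h1 := res_ev hc (fun _ => k) 1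
    have h2 : (a :: c []) <:+ res (ev c fun _ => k) (c [k]).length := by
      rw [show (res (fun _ => k) 1) = [k] from rfl] at h1
      rw [h1]
      exact ha
    have h3 := res_eq_of_suffix h2
    have h4 : (a :: c []).length ≤ N.length := by simp; omega
    have h5 := res_suffix (ev c fun _ => k) h4
    rwa [h3, h] at h5
  have h1 := key 0 a ha
  have h2 := key 1 b hb
  have h3 := suffix_eq h1 h2 (by simp)
  rw [← h3] at hb
  exact absurd (hc.inj [] 0 1 a ha hb) (by norm_num)

theorem ev_extends {c : Node → Node} (hc : IsCode c) {s : Node} {y : ℕ → ℕ}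
    (h : res y s.length = s) : res (ev c y) (c s).length = c s := by
  have := res_ev hc y s.length
  rwa [h] at this

theorem ev_extends' {c : Node → Node} (hc : IsCode c) {s : Node} {y : ℕ → ℕ}
    (h : res y s.length = s) (hs : c s = s) : res (ev c y) s.length = s := by
  have := ev_extends hc h
  rwa [hs] at this

end Pool.Agent.Miller
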