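import Pool.Agent.Lib_helper75.Miller.Glue

/-!
Conditions: measurable families of codes with countable support, where the code at a coordinate
depends only on the smaller coordinates. They form a monoid.
-/

set_option autoImplicit false

universe u v

namespace Pool.Agent.Miller

/-- Points: families of sequences of natural numbers. -/
abbrev Pt (W : Type u) : Type u := W → ℕ → ℕ

/-! ### Measurability -/

theorem measurable_comp_countable {Y : Type*} [MeasurableSpace Y] {C : Type*} [Countable C]
    [MeasurableSpace C] [MeasurableSingletonClass C] {D : Type*} [MeasurableSpace D]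
    {f : Y → C → D} (hf : ∀ c, Measurable fun y => f y c) {g : Y → C} (hg : Measurable g) :
    Measurable fun y => f y (g y) := by
  intro s hs
  have h1 : (fun y => f y (g y)) ⁻¹' s = ⋃ c : C, (g ⁻¹' {c} ∩ (fun y => f y c) ⁻¹' s) := by
    ext y
    simp
  rw [h1]
  exact MeasurableSet.iUnion fun c => (hg (measurableSet_singleton c)).inter (hf c hs)

theorem measurable_res {Y : Type*} [MeasurableSpace Y] {y : Y → ℕ → ℕ} (hy : Measurable y)
    (n : ℕ) : Measurable fun a => res (y a) n := by
  induction n with
  | zero => exact measurable_const
  | succ n ih =>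
    have h1 : Measurable fun a => (fun (k : ℕ) (s : Node) => k :: s) (y a n) (res (y a) n) := by
      refine measurable_comp_countable (f := fun a (s : Node) => (y a n) :: s) (fun s => ?_) ih
      exact (measurable_from_nat (f := fun k => k :: s)).comp ((measurable_pi_apply n).comp hy)
    exact h1

theorem measurable_ev {Y : Type*} [MeasurableSpace Y] {c : Y → Node → Node}
    (hc : ∀ s, Measurable fun a => c a s) {y : Y → ℕ → ℕ} (hy : Measurable y) :
    Measurable fun a => ev (c a) (y a) := by
  refine measurable_pi_lambda _ fun i => ?_
  have h1 : Measurable fun a => c a (res (y a) (i + 1)) :=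
    measurable_comp_countable hc (measurable_res hy (i + 1))
  exact (Measurable.of_discrete (f := fun s : Node => nth s i)).comp h1

theorem measurable_seq_iff {Y : Type*} [MeasurableSpace Y] {y : Y → ℕ → ℕ} :
    Measurable y ↔ ∀ n s, MeasurableSet {a | res (y a) n = s} := by
  constructor
  · intro h n s
    exact measurable_res h n (measurableSet_singleton s)
  · intro h
    refine measurable_pi_lambda _ fun i => ?_
    refine measurable_to_countable' fun k => ?_
    have h1 : (fun a => y a i) ⁻¹' {k} = ⋃ s : Node, {a | res (y a) (i + 1) = k :: s} := by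
      ext a
      simp
    rw [h1]
    exact MeasurableSet.iUnion fun s => h _ _

variable {W : Type u} [LinearOrder W]

/-- Agreement below a coordinate. -/
def Agree (β : W) (z z' : Pt W) : Prop := ∀ α < β, z α = z' α

theorem Agree.refl (β : W) (z : Pt W) : Agree β z z := fun _ _ => rfl

theorem Agree.symm {β : W} {z z' : Pt W} (h : Agree β z z') : Agree β z' z :=
  fun α hα => (h α hα).symm

theorem Agree.trans {β : W} {z z' z'' : Pt W} (h : Agree β z z') (h' : Agree β z' z'') :
    Agree β z z'' := fun α hα => (h α hα).trans (h' α hα)

theorem Agree.mono {β γ : W} {z z' : Pt W} (h : Agree β z z') (hγ : γ ≤ β) : Agree γ z z' :=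
  fun α hα => h α (lt_of_lt_of_le hα hγ)

/-- Conditions. -/
structure Cond (W : Type u) [LinearOrder W] : Type u where
  /-- the code at a coordinate -/
  code : W → Pt W → Node → Node
  dep : ∀ β z z', Agree β z z' → code β z = code β z'
  meas : ∀ β s, Measurable fun z => code β z s
  isCode : ∀ β z, IsCode (code β z)
  supp : {β | ∃ z, code β z ≠ id}.Countable

namespace Cond

theorem ext' {H K : Cond W} (h : ∀ β z, H.code β z = K.code β z) : H = K := by
  cases H; cases K
  congr
  funext β z
  exact h β z

/-- The map of the points given by a condition. -/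
def eval (H : Cond W) (z : Pt W) : Pt W := fun β => ev (H.code β z) (z β)

theorem eval_apply (H : Cond W) (z : Pt W) (β : W) : H.eval z β = ev (H.code β z) (z β) := rfl

theorem measurable_eval (H : Cond W) : Measurable H.eval :=
  measurable_pi_lambda _ fun β => measurable_ev (H.meas β) (measurable_pi_apply β)

theorem agree_eval (H : Cond W) {β : W} {z z' : Pt W} (h : Agree β z z') :
    Agree β (H.eval z) (H.eval z') := by
  intro α hα
  rw [eval_apply, eval_apply, H.dep α z z' (h.mono hα.le), h α hα]

instance : One (Cond W) := ⟨{
  code := fun _ _ => id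
  dep := fun _ _ _ _ => rfl
  meas := fun _ _ => measurable_const
  isCode := fun _ _ => isCode_id
  supp := by simp }⟩

instance : Mul (Cond W) := ⟨fun H K => {
  code := fun β z => H.code β (K.eval z) ∘ K.code β z
  dep := fun β z z' h => by rw [H.dep β _ _ (K.agree_eval h), K.dep β z z' h]
  meas := fun β s => measurable_comp_countable (f := fun z t => H.code β (K.eval z) t)
    (fun t => (H.meas β t).comp K.measurable_eval) (K.meas β s)
  isCode := fun β z => (H.isCode β _).comp (K.isCode β z)
  supp := by
    refine (H.supp.union K.supp).mono ?_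
    rintro β ⟨z, hz⟩
    by_cases h1 : H.code β (K.eval z) = id
    · right
      refine ⟨z, fun h2 => hz ?_⟩
      rw [h1, h2]
      rfl
    · left
      exact ⟨_, h1⟩ }⟩

@[simp] theorem one_code (β : W) (z : Pt W) : (1 : Cond W).code β z = id := rfl

theorem mul_code (H K : Cond W) (β : W) (z : Pt W) :
    (H * K).code β z = H.code β (K.eval z) ∘ K.code β z := rfl

@[simp] theorem one_eval (z : Pt W) : (1 : Cond W).eval z = z := by
  funext β
  rw [eval_apply, one_code, ev_id]

@[simp] theorem mul_eval (H K : Cond W) (z : Pt W) : (H * K).eval z = H.eval (K.eval z) := by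
  funext β
  rw [eval_apply, mul_code, ev_comp (H.isCode _ _) (K.isCode _ _)]
  rfl

instance : Monoid (Cond W) where
  one_mul H := ext' fun β z => by rw [mul_code, one_code]; rfl
  mul_one H := ext' fun β z => by rw [mul_code, one_code, one_eval]; rfl
  mul_assoc H K L := ext' fun β z => by
    rw [mul_code, mul_code, mul_code, mul_code, mul_eval]
    rfl

/-- `H` is concentrated on the coordinates in `I`. -/
def In (I : Set W) (H : Cond W) : Prop := ∀ β, β ∉ I → ∀ z, H.code β z = id

theorem In.mono {I J : Set W} {H : Cond W} (h : H.In I) (hIJ : I ⊆ J) : H.In J :=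
  fun β hβ z => h β (fun h' => hβ (hIJ h')) z

theorem in_univ (H : Cond W) : H.In Set.univ := fun β hβ => absurd (Set.mem_univ β) hβ

theorem in_one (I : Set W) : (1 : Cond W).In I := fun _ _ _ => rfl

theorem In.mul {I : Set W} {H K : Cond W} (hH : H.In I) (hK : K.In I) : (H * K).In I := by
  intro β hβ z
  rw [mul_code, hH β hβ, hK β hβ]
  rfl

theorem In.eval_of_notMem {I : Set W} {H : Cond W} (hH : H.In I) {β : W} (hβ : β ∉ I)
    (z : Pt W) : H.eval z β = z β := by
  rw [eval_apply, hH β hβ, ev_id]

open Classical in
/-- The restriction of a condition to a lower set of coordinates. -/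
noncomputable def restrict (H : Cond W) (I : Set W) : Cond W where
  code := fun β z => if β ∈ I then H.code β z else id
  dep := fun β z z' h => by
    by_cases hβ : β ∈ I
    · simp only [if_pos hβ]
      exact H.dep β z z' h
    · simp only [if_neg hβ]
  meas := fun β s => by
    by_cases hβ : β ∈ I
    · simp only [if_pos hβ]
      exact H.meas β s
    · simp only [if_neg hβ]
      exact measurable_const
  isCode := fun β z => by
    by_cases hβ : β ∈ I
    · simp only [if_pos hβ]
      exact H.isCode β z
    · simp only [if_neg hβ]
      exact isCode_id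
  supp := by
    refine H.supp.mono ?_
    rintro β ⟨z, hz⟩
    by_cases hβ : β ∈ I
    · simp only [if_pos hβ] at hz
      exact ⟨z, hz⟩
    · simp only [if_neg hβ] at hz
      exact absurd rfl hz

theorem restrict_code_of_mem (H : Cond W) {I : Set W} {β : W} (hβ : β ∈ I) (z : Pt W) :
    (H.restrict I).code β z = H.code β z := by
  unfold restrict
  simp only [if_pos hβ]

theorem restrict_code_of_notMem (H : Cond W) {I : Set W} {β : W} (hβ : β ∉ I) (z : Pt W) :
    (H.restrict I).code β z = id := by
  unfold restrict
  simp only [if_neg hβ]

theorem in_restrict (H : Cond W) (I : Set W) : (H.restrict I).In I :=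
  fun _ hβ z => H.restrict_code_of_notMem hβ z

theorem restrict_eval_of_mem (H : Cond W) {I : Set W} {β : W} (hβ : β ∈ I) (z : Pt W) :
    (H.restrict I).eval z β = H.eval z β := by
  rw [eval_apply, H.restrict_code_of_mem hβ, eval_apply]

theorem restrict_eval_of_notMem (H : Cond W) {I : Set W} {β : W} (hβ : β ∉ I) (z : Pt W) :
    (H.restrict I).eval z β = z β := (H.in_restrict I).eval_of_notMem hβ z

/-- The restriction to a lower set is a left factor. -/
theorem eq_restrict_mul (H : Cond W) {I : Set W} (hI : IsLowerSet I) :
    H = H.restrict I * H.restrict Iᶜ := by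
  refine ext' fun β z => ?_
  rw [mul_code]
  by_cases hβ : β ∈ I
  · rw [H.restrict_code_of_mem hβ, H.restrict_code_of_notMem (I := Iᶜ) (by simpa using hβ)]
    refine (H.dep β _ _ fun α hα => ?_).symm
    exact H.restrict_eval_of_notMem (by simpa using hI hα.le hβ) z
  · rw [H.restrict_code_of_notMem hβ, H.restrict_code_of_mem (I := Iᶜ) hβ]
    rfl

/-- The condition `K` with the parameters changed by `H`. -/
def pull (K H : Cond W) : Cond W where
  code := fun β z => K.code β (H.eval z)
  dep := fun β _ _ h => K.dep β _ _ (H.agree_eval h)
  meas := fun β s => (K.meas β s).comp H.measurable_eval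
  isCode := fun β z => K.isCode β _
  supp := K.supp.mono (by rintro β ⟨z, hz⟩; exact ⟨_, hz⟩)

theorem pull_code (K H : Cond W) (β : W) (z : Pt W) :
    (K.pull H).code β z = K.code β (H.eval z) := rfl

theorem In.pull {I : Set W} {K : Cond W} (hK : K.In I) (H : Cond W) : (K.pull H).In I :=
  fun β hβ _ => hK β hβ _

/-- Commutation of a condition below and a condition above. -/
theorem mul_pull {I : Set W} (hI : IsLowerSet I) {H K : Cond W} (hH : H.In I)
    (hK : K.In Iᶜ) : H * K.pull H = K * H := by
  refine ext' fun β z => ?_
  rw [mul_code, mul_code, pull_code]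
  by_cases hβ : β ∈ I
  · rw [hK β (by simpa using hβ)]
    have h1 : H.code β ((K.pull H).eval z) = H.code β z := by
      refine H.dep β _ _ fun α hα => ?_
      exact (hK.pull H).eval_of_notMem (by simpa using hI hα.le hβ) z
    rw [h1]
    rfl
  · rw [hH β hβ, hH β hβ]
    rfl

open Classical in
/-- The condition with one nontrivial code. -/
noncomputable def single (γ : W) (c : Pt W → Node → Node)
    (hd : ∀ z z', Agree γ z z' → c z = c z') (hm : ∀ s, Measurable fun z => c z s)
    (hc : ∀ z, IsCode (c z)) : Cond W where
  code := fun β z => if β = γ then c z else id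
  dep := fun β z z' h => by
    by_cases hβ : β = γ
    · subst hβ
      simp only [↓reduceIte]
      exact hd z z' h
    · simp only [if_neg hβ]
  meas := fun β s => by
    by_cases hβ : β = γ
    · simp only [if_pos hβ]
      exact hm s
    · simp only [if_neg hβ]
      exact measurable_const
  isCode := fun β z => by
    by_cases hβ : β = γ
    · simp only [if_pos hβ]
      exact hc z
    · simp only [if_neg hβ]
      exact isCode_id
  supp := by
    refine (Set.countable_singleton γ).mono ?_
    rintro β ⟨z, hz⟩
    by_contra hβ
    simp only [if_neg (show ¬ β = γ from hβ)] at hz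
    exact hz rfl

section Single

variable (γ : W) (c : Pt W → Node → Node) (hd : ∀ z z', Agree γ z z' → c z = c z')
  (hm : ∀ s, Measurable fun z => c z s) (hc : ∀ z, IsCode (c z))

theorem single_code_self (z : Pt W) : (single γ c hd hm hc).code γ z = c z := by
  unfold single
  simp

theorem single_code_of_ne {β : W} (hβ : β ≠ γ) (z : Pt W) :
    (single γ c hd hm hc).code β z = id := by
  unfold single
  simp [hβ]

theorem in_single : (single γ c hd hm hc).In {γ} := by
  intro β hβ z
  exact single_code_of_ne γ c hd hm hc (by simpa using hβ) z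

end Single

/-- The condition that extends the stem at one coordinate. -/
noncomputable def stem (γ : W) (N : Node) : Cond W :=
  single γ (fun _ t => t ++ N) (fun _ _ _ => rfl) (fun _ => measurable_const)
    (fun _ => isCode_append N)

theorem stem_code_self (γ : W) (N : Node) (z : Pt W) :
    (stem γ N).code γ z = fun t => t ++ N := single_code_self _ _ _ _ _ z

theorem in_stem (γ : W) (N : Node) : (stem γ N).In {γ} := in_single _ _ _ _ _

theorem stem_code_of_ne {γ β : W} (h : β ≠ γ) (N : Node) (z : Pt W) :
    (stem γ N).code β z = id := single_code_of_ne _ _ _ _ _ h z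

theorem stem_eval_self (γ : W) (N : Node) (z : Pt W) :
    (stem γ N).eval z γ = app N (z γ) := by
  rw [eval_apply, stem_code_self, ev_append]

theorem stem_eval_of_ne {γ β : W} (h : β ≠ γ) (N : Node) (z : Pt W) :
    (stem γ N).eval z β = z β := by
  rw [eval_apply, stem_code_of_ne h, ev_id]

theorem agree_stem (γ : W) (N : Node) (z : Pt W) : Agree γ ((stem γ N).eval z) z :=
  fun _ hα => stem_eval_of_ne hα.ne N z

end Cond

end Pool.Agent.Miller
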