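import Pool.Agent.Lib_helper75.Miller.RealField
import Pool.Agent.Lib_helper48.Miller.Smz
import Pool.Agent.Lib_helper66.Miller.Thin
import Pool.Agent.Lib_helper48.Miller.Close

/-!
The main argument: for a strong measure zero set and a nowhere dense set there are a slalom and a
partition such that all the elements of the strong measure zero set are in the corresponding small
set.
-/

set_option autoImplicit false
set_option linter.unusedSectionVars false

universe u

namespace Pool.Agent.Miller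

open Pool.Agent.BVM BSet

section

variable {W : Type u} [LinearOrder W]

theorem Cond.restrict_of_in {H : Cond W} {I : Set W} (h : H.In I) : H.restrict I = H := by
  refine Cond.ext' fun β z => ?_
  by_cases hβ : β ∈ I
  · rw [H.restrict_code_of_mem hβ]
  · rw [H.restrict_code_of_notMem hβ, h β hβ]

theorem Cond.restrict_mul (A B : Cond W) {I : Set W} (hI : IsLowerSet I) :
    (A * B).restrict I = A.restrict I * B.restrict I := by
  refine Cond.ext' fun β z => ?_
  by_cases hβ : β ∈ I
  · rw [(A * B).restrict_code_of_mem hβ, Cond.mul_code, Cond.mul_code,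
      A.restrict_code_of_mem hβ, B.restrict_code_of_mem hβ,
      A.dep β (B.eval z) ((B.restrict I).eval z) fun α hα =>
        (B.restrict_eval_of_mem (hI hα.le hβ) z).symm]
  · rw [(A * B).restrict_code_of_notMem hβ, Cond.mul_code, A.restrict_code_of_notMem hβ,
      B.restrict_code_of_notMem hβ]
    rfl

theorem Cond.agree_restrict (P : Cond W) (δ : W) (z : Pt W) :
    Agree δ (P.eval z) ((P.restrict (Set.Iio δ)).eval z) := fun _ hα =>
  (P.restrict_eval_of_mem (I := Set.Iio δ) hα z).symm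

end

section

variable {W : Type u} [LinearOrder W] [WellFoundedLT W]

/-- The set `X` has strong measure zero with respect to the names for real numbers. -/
def SMZName (X : BSet (Bal W)) (H : Cond W) : Prop :=
  ∀ e : Pt W → ℕ → ℝ, Measurable e → (∀ z n, 0 < e z n) → ∀ L, ∃ M, ∃ l r : Pt W → ℕ → ℝ,
    Measurable l ∧ Measurable r ∧ (∀ z n, r z n - l z n < e z n) ∧
      ∀ f, Measurable f → Forces (H * L * M) fun V => Emem V (cls V (rN f)) (cls V X) →
        bool {z | ∃ n, l z n < f z ∧ f z < r z n} ∈ V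

theorem SMZName.mul {X : BSet (Bal W)} {H : Cond W} (h : SMZName X H) (K : Cond W) :
    SMZName X (H * K) := by
  intro e he hpos L
  obtain ⟨M, l, r, hl, hr, hlr, hf⟩ := h e he hpos (K * L)
  exact ⟨M, l, r, hl, hr, hlr, by rwa [← mul_assoc] at hf⟩

theorem SMZName.seq {X : BSet (Bal W)} {H : Cond W} (h : SMZName X H) {e : ℕ → Pt W → ℕ → ℝ}
    (he : ∀ j, Measurable (e j)) (hpos : ∀ j z n, 0 < e j z n) :
    ∃ K, ∃ l r : ℕ → Pt W → ℕ → ℝ, (∀ j, Measurable (l j)) ∧ (∀ j, Measurable (r j)) ∧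
      (∀ j z n, r j z n - l j z n < e j z n) ∧
      ∀ j f, Measurable f → Forces (H * K) fun V => Emem V (cls V (rN f)) (cls V X) →
        bool {z | ∃ n, l j z n < f z ∧ f z < r j z n} ∈ V := by
  classical
  obtain ⟨K, hK⟩ := countable_choice (Y := (ℕ → ℝ) × (ℕ → ℝ)) (fun j K y =>
      (Forces K fun V => bool {z | ∀ n, (y z).2 n - (y z).1 n < e j z n} ∈ V) ∧
      ∀ f, Measurable f → Forces K fun V => Emem V (cls V (rN f)) (cls V X) →
        bool {z | ∃ n, (y z).1 n < f z ∧ f z < (y z).2 n} ∈ V) (fun _ _ => True)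
    (fun m K L y h => ⟨h.1.mul L, fun f hf => (h.2 f hf).mul L⟩)
    (fun m K y y' hyy h => by
      refine ⟨fun V hV => ?_, fun f hf V hV hfX => ?_⟩
      · refine bool_mem_mono (bool_inter_mem.mpr ⟨forces_bool_of_forall
          (A := {z | y z = y' z}) (H := K) hyy V hV, h.1 V hV⟩) fun z hz => ?_
        simp only [Set.mem_inter_iff, Set.mem_ofPred_eq] at hz ⊢
        rw [← hz.1]
        exact hz.2
      · refine bool_mem_mono (bool_inter_mem.mpr ⟨forces_bool_of_forall
          (A := {z | y z = y' z}) (H := K) hyy V hV, h.2 f hf V hV hfX⟩) fun z hz => ?_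
        simp only [Set.mem_inter_iff, Set.mem_ofPred_eq] at hz ⊢
        rw [← hz.1]
        exact hz.2)
    (fun m K y h => ⟨forces_of_dense (hasTV_bool _) fun L => ⟨(h L).choose, (h L).choose_spec.1⟩,
      fun f hf => forces_of_dense ((HasTV.mem _ _).imp (hasTV_bool _)) fun L =>
        ⟨(h L).choose, (h L).choose_spec.2 f hf⟩⟩) H
    (fun j L => by
      obtain ⟨M, l, r, hl, hr, hlr, hf⟩ := h (e j) (he j) (hpos j) L
      exact ⟨M, fun z => (l z, r z), hl.prodMk hr, fun _ => trivial,
        fun V hV => bool_mem_of_forall V fun z n => hlr z n, hf⟩)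
  choose y hy _ hy1 hy2 using hK
  refine ⟨K, fun j z => (y j z).1, fun j z n => if (y j z).2 n - (y j z).1 n < e j z n then
    (y j z).2 n else (y j z).1 n, fun j => measurable_fst.comp (hy j), fun j => ?_,
    fun j z n => ?_, fun j f hf V hV hfX => ?_⟩
  · refine measurable_pi_lambda _ fun n => ?_
    have h1 : Measurable fun z => (y j z).1 n :=
      (measurable_pi_apply n).comp (measurable_fst.comp (hy j))
    have h2 : Measurable fun z => (y j z).2 n :=
      (measurable_pi_apply n).comp (measurable_snd.comp (hy j))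
    have h3 : Measurable fun z => e j z n := (measurable_pi_apply n).comp (he j)
    exact Measurable.ite (measurableSet_lt (h2.sub h1) h3) h2 h1
  · simp only
    split_ifs with hc
    · exact hc
    · rw [sub_self]
      exact hpos j z n
  · refine bool_mem_mono (bool_inter_mem.mpr ⟨hy1 j V hV, hy2 j f hf V hV hfX⟩) fun z hz => ?_
    obtain ⟨h1, n, h2, h3⟩ := hz
    refine ⟨n, h2, ?_⟩
    simp only
    rw [if_pos (h1 n)]
    exact h3

theorem measurable_image_range {Y : Type*} [MeasurableSpace Y] {h : Y → ℕ → ℕ}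
    (hh : Measurable h) (n : ℕ) : Measurable fun y => (Finset.range n).image (h y) := by
  induction n with
  | zero => simp
  | succ n ih =>
    simp only [Finset.range_add_one, Finset.image_insert]
    refine measurable_comp_countable (f := fun y (A : Finset ℕ) => insert (h y n) A)
      (fun A => ?_) ih
    exact (Measurable.of_discrete (f := fun k : ℕ => insert k A)).comp
      ((measurable_pi_apply n).comp hh)

theorem measurable_dseq {Y : Type*} [MeasurableSpace Y] {y : Y → ℕ → ℕ} (hy : Measurable y) :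
    Measurable fun a => dseq (y a) := by
  refine measurable_pi_lambda _ fun k => ?_
  unfold dseq
  refine Measurable.add ?_ measurable_const
  exact Finset.measurable_sum _ fun i _ => (measurable_pi_apply i).comp hy

theorem sup_image_range {d : ℕ → ℕ} (hd : StrictMono d) (i : ℕ) :
    ((Finset.range (i + 1)).image d).sup id = d i := by
  apply le_antisymm
  · refine Finset.sup_le fun k hk => ?_
    obtain ⟨m, hm, rfl⟩ := Finset.mem_image.mp hk
    exact hd.monotone (Nat.lt_succ_iff.mp (Finset.mem_range.mp hm))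
  · exact Finset.le_sup (f := id) (Finset.mem_image.mpr ⟨i, Finset.self_mem_range_succ i, rfl⟩)

theorem card_image_range {d : ℕ → ℕ} (hd : StrictMono d) (i : ℕ) :
    ((Finset.range i).image d).card = i := by
  rw [Finset.card_image_of_injective _ hd.injective, Finset.card_range]

end

/-! ### Bounded supports -/

theorem exists_bound_of_countable {C : Set Ordinal.{0}} (hC : C.Countable) :
    ∃ β, C ⊆ Set.Iio β := by
  have := hC.to_subtype
  obtain ⟨b, hb⟩ := Ordinal.bddAbove_of_small (s := C)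
  exact ⟨Order.succ b, fun α hα => Order.lt_succ_of_le (hb hα)⟩

theorem exists_bound_cond (H : Cond Ordinal.{0}) : ∃ β, H.In (Set.Iio β) := by
  obtain ⟨β, hβ⟩ := exists_bound_of_countable H.supp
  refine ⟨β, fun α hα z => ?_⟩
  by_contra hne
  exact hα (hβ ⟨z, hne⟩)

theorem exists_bound_fun {Y : Type*} [MeasurableSpace Y] [MeasurableSpace.CountablyGenerated Y]
    [MeasurableSpace.SeparatesPoints Y] {f : Pt Ordinal.{0} → Y} (hf : Measurable f) :
    ∃ β, ∀ z z', Agree β z z' → f z = f z' := by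
  obtain ⟨C, hC, h⟩ := exists_countable_dep_fun hf
  obtain ⟨β, hβ⟩ := exists_bound_of_countable hC
  exact ⟨β, fun z z' hz => h z z' fun α hα => hz α (hβ hα)⟩

/-! ### The main argument -/

section Main

abbrev W0 : Type 1 := Ordinal.{0}

/-- The finite set of the first `i` terms of the sequence given by the coordinate `δ`. -/
noncomputable def tset (δ : W0) (z : Pt W0) (i : ℕ) : Finset ℕ :=
  (Finset.range i).image (dseq (z δ))

theorem measurable_tset (δ : W0) (i : ℕ) : Measurable fun z => tset δ z i :=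
  measurable_image_range (measurable_dseq (measurable_pi_apply δ)) i

theorem card_tset (δ : W0) (z : Pt W0) (i : ℕ) : (tset δ z i).card = i :=
  card_image_range (strictMono_dseq _) i

theorem sup_tset (δ : W0) (z : Pt W0) (i : ℕ) : (tset δ z (i + 1)).sup id = dseq (z δ) i :=
  sup_image_range (strictMono_dseq _) i

/-- The index of the center of the interval that belongs to the pair `m` of `j` and `t`. -/
noncomputable def vfun (δ : W0) (g : Pt W0 → ℕ → ℕ) (N : ℕ) (l : ℕ → Pt W0 → ℕ → ℝ) (m : ℕ)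
    (z : Pt W0) : ℕ :=
  match (Encodable.decode m : Option (ℕ × Finset ℕ)) with
  | some (j, t) => if tset δ z t.card = t then cidx (g z) N t (l j z (t.card - 1 - j)) else 0
  | none => 0

/-- The bound for the index. -/
noncomputable def bfun (g : Pt W0 → ℕ → ℕ) (N : ℕ) (m : ℕ) (z : Pt W0) : ℕ :=
  match (Encodable.decode m : Option (ℕ × Finset ℕ)) with
  | some (_, t) => bnd (g z) N t + 1
  | none => 1

theorem vfun_lt (δ : W0) (g : Pt W0 → ℕ → ℕ) (N : ℕ) (l : ℕ → Pt W0 → ℕ → ℝ) (m : ℕ)
    (z : Pt W0) : vfun δ g N l m z < bfun g N m z := by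
  unfold vfun bfun
  rcases (Encodable.decode m : Option (ℕ × Finset ℕ)) with _ | ⟨j, t⟩
  · simp
  · simp only
    split_ifs
    · exact cidx_lt.trans (Nat.lt_succ_self _)
    · omega

theorem measurable_vfun (δ : W0) {g : Pt W0 → ℕ → ℕ} (hg : Measurable g) (N : ℕ)
    {l : ℕ → Pt W0 → ℕ → ℝ} (hl : ∀ j, Measurable (l j)) (m : ℕ) :
    Measurable (vfun δ g N l m) := by
  unfold vfun
  rcases (Encodable.decode m : Option (ℕ × Finset ℕ)) with _ | ⟨j, t⟩
  · exact measurable_const
  · simp only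
    refine Measurable.ite (measurable_tset δ _ (measurableSet_singleton t)) ?_ measurable_const
    exact measurable_cidx hg ((measurable_pi_apply _).comp (hl j)) N t

theorem vfun_encode (δ : W0) (g : Pt W0 → ℕ → ℕ) (N : ℕ) (l : ℕ → Pt W0 → ℕ → ℝ) (j n : ℕ)
    (z : Pt W0) : vfun δ g N l (Encodable.encode (j, tset δ z (j + n + 1))) z =
      cidx (g z) N (tset δ z (j + n + 1)) (l j z n) := by
  unfold vfun
  rw [Encodable.encodek]
  simp only [card_tset, if_true]
  congr 2
  omega

/-- The set of the points such that the real number `f` is not in the small set. -/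
def Away (g : Pt W0 → ℕ → ℕ) (N : ℕ) (F : Pt W0 → (ℕ → Finset ℕ) × (ℕ → ℕ)) (f : Pt W0 → ℝ) :
    Set (Pt W0) :=
  {z | ∀ l, ∃ k, l ≤ k ∧ ¬ InU (g z) N (F z).1 (f z) ((F z).2 k) ((F z).2 (k + 1))}

theorem agree_mul_restrict {δ : W0} (P M : Cond W0) (z : Pt W0) :
    Agree δ ((P * M).eval z) ((P.restrict (Set.Iio δ) * M).eval z) := by
  rw [Cond.mul_eval, Cond.mul_eval]
  exact P.agree_restrict δ _

theorem measurableSet_away {g : Pt W0 → ℕ → ℕ} (hg : Measurable g) (N : ℕ)
    {F : Pt W0 → (ℕ → Finset ℕ) × (ℕ → ℕ)} (hF : Measurable F) {f : Pt W0 → ℝ}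
    (hf : Measurable f) : MeasurableSet (Away g N F f) := by
  have h2 : Away g N F f = ⋂ l : ℕ, ⋃ k : ℕ, ({_z | l ≤ k} ∩
      {z | InU (g z) N (F z).1 (f z) ((F z).2 k) ((F z).2 (k + 1))}ᶜ) := by
    ext z
    simp only [Away, Set.mem_ofPred_eq, Set.mem_iInter, Set.mem_iUnion, Set.mem_inter_iff,
      Set.mem_compl_iff]
  rw [h2]
  refine MeasurableSet.iInter fun l => MeasurableSet.iUnion fun k =>
    (MeasurableSet.const _).inter (MeasurableSet.compl ?_)
  exact measurableSet_inU hg (measurable_fst.comp hF) hf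
    ((measurable_pi_apply k).comp (measurable_snd.comp hF))
    ((measurable_pi_apply (k + 1)).comp (measurable_snd.comp hF)) N

/-- Thinning at the coordinate `δ`. -/
theorem thinning {δ : W0} {g : Pt W0 → ℕ → ℕ} (hg : Measurable g)
    (hgd : ∀ z z', Agree δ z z' → g z = g z') (N : ℕ)
    {F : Pt W0 → (ℕ → Finset ℕ) × (ℕ → ℕ)} (hF : Measurable F)
    (hFd : ∀ z z', Agree δ z z' → F z = F z') {f : Pt W0 → ℝ} (hf : Measurable f)
    (hfd : ∀ z z', Agree δ z z' → f z = f z') (P M : Cond W0) (hM : M.In (Set.Iio δ))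
    (hFP : ∀ z, (F (P.eval z)).2 = part (P.code δ z))
    (hA : ∀ z, (P * M).eval z ∈ Away g N F f) :
    ∃ E : Cond W0, ∀ z, ∃ j1, ∀ i, j1 ≤ i →
      ¬ InTau (g ((P * M * E).eval z)) N (F ((P * M * E).eval z)).1 (f ((P * M * E).eval z))
        (tset δ ((P * M * E).eval z) (i + 1)) := by
  let c : Pt W0 → Node → Node := fun z => P.code δ (M.eval z)
  let bad : Pt W0 → ℕ → Prop := fun z k =>
    ¬ InU (g ((P * M).eval z)) N (F ((P * M).eval z)).1 (f ((P * M).eval z))
      ((F ((P * M).eval z)).2 k) ((F ((P * M).eval z)).2 (k + 1))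
  let Z : Pt W0 → ℕ → ℕ := fun z => enumP (bad z)
  have hbd : ∀ z z', Agree δ z z' → bad z = bad z' := by
    intro z z' h
    have h1 := (P * M).agree_eval h
    funext k
    simp only [bad]
    rw [hgd _ _ h1, hFd _ _ h1, hfd _ _ h1]
  have hbm : ∀ k, MeasurableSet {z | bad z k} := by
    intro k
    have he := (P * M).measurable_eval
    exact (measurableSet_inU (hg.comp he) (measurable_fst.comp (hF.comp he)) (hf.comp he)
      ((measurable_pi_apply k).comp (measurable_snd.comp (hF.comp he)))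
      ((measurable_pi_apply (k + 1)).comp (measurable_snd.comp (hF.comp he))) N).compl
  have hZs : ∀ z, StrictMono (Z z) := fun z => enumP_strictMono (hA z)
  have hZ : ∀ z k, bad z (Z z k) := fun z k => enumP_spec (hA z) k
  have hcd : ∀ z z', Agree δ z z' → c z = c z' := fun z z' h => P.dep δ _ _ (M.agree_eval h)
  let E : Cond W0 := Cond.single δ (fun z => thin (c z) (Z z))
    (fun z z' h => by
      have h1 : Z z = Z z' := by
        simp only [Z, hbd z z' h]
      simp only [hcd z z' h, h1])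
    (fun s => measurable_thin (fun s => (P.meas δ s).comp M.measurable_eval)
      (measurable_pi_lambda _ fun k => measurable_enumP hbm k) s)
    (fun z => isCode_thin (P.isCode δ _) (hZs z))
  have hE : ∀ z, Agree δ (E.eval z) z := by
    intro z α hα
    rw [Cond.eval_apply, Cond.single_code_of_ne δ _ _ _ _ hα.ne, ev_id]
  refine ⟨E, fun z => ⟨(c z []).length, fun i hi hTau => ?_⟩⟩
  set γ : Pt W0 := (P * M * E).eval z with hγ
  have h1 : γ = (P * M).eval (E.eval z) := by rw [hγ, Cond.mul_eval]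
  have h2 : Agree δ γ ((P * M).eval z) := by
    rw [h1]
    exact (P * M).agree_eval (hE z)
  have h3 : γ δ = ev (c z ∘ thin (c z) (Z z)) (z δ) := by
    rw [ev_comp (P.isCode δ _) (isCode_thin (P.isCode δ _) (hZs z)), h1, Cond.mul_eval,
      Cond.eval_apply, hM.eval_of_notMem (by simp), Cond.eval_apply E, Cond.single_code_self,
      P.dep δ _ _ (M.agree_eval (hE z))]
  have h4 : (F γ).2 = part (c z) := by
    rw [h1, Cond.mul_eval, hFP]
    exact congrArg part (P.dep δ _ _ (M.agree_eval (hE z)))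
  obtain ⟨r, hr1, hr2⟩ := dseq_thin (P.isCode δ _) (hZs z) (z δ) hi
  have h5 := hZ z r
  simp only [bad] at h5
  rw [← hgd _ _ h2, ← hFd _ _ h2, ← hfd _ _ h2] at h5
  apply h5
  refine ⟨tset δ γ (i + 1), ?_, ?_, ?_, hTau⟩
  · rw [← Finset.card_pos, card_tset]
    omega
  · rw [sup_tset, h4, h3]
    exact hr1
  · rw [sup_tset, h4, h3]
    exact hr2

/-- The cover by small intervals. -/
theorem covering {δ : W0} {g : Pt W0 → ℕ → ℕ} {N : ℕ} {F : Pt W0 → (ℕ → Finset ℕ) × (ℕ → ℕ)}
    {P : Cond W0} {l r : ℕ → Pt W0 → ℕ → ℝ}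
    (hlr : ∀ j z n, r j z n - l j z n < eps (g z) N (tset δ z (j + n + 1)))
    (hv : ∀ m z, vfun δ g N l m (P.eval z) ∈ (F (P.eval z)).1 m) {f : Pt W0 → ℝ}
    {V : UF (Bal W0)} (hV : cone P ∈ V) (hfN : bool {z | |f z| ≤ N} ∈ V) (j : ℕ)
    (h : bool {z | ∃ n, l j z n < f z ∧ f z < r j z n} ∈ V) :
    bool {z | ∃ n, InTau (g z) N (F z).1 (f z) (tset δ z (j + n + 1))} ∈ V := by
  have h1 : bool {z | ∀ m, vfun δ g N l m z ∈ (F z).1 m} ∈ V :=
    forces_bool_of_forall (A := {z | ∀ m, vfun δ g N l m z ∈ (F z).1 m}) (H := P)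
      (fun z m => hv m z) V hV
  refine bool_mem_mono (bool_inter_mem.mpr ⟨bool_inter_mem.mpr ⟨h1, hfN⟩, h⟩) fun z hz => ?_
  obtain ⟨⟨hz1, hz2⟩, n, hz3, hz4⟩ := hz
  refine ⟨n, j, ?_, cidx (g z) N (tset δ z (j + n + 1)) (l j z n), ?_, ?_⟩
  · rw [card_tset]
    omega
  · have := hz1 (Encodable.encode (j, tset δ z (j + n + 1)))
    rwa [vfun_encode] at this
  · exact abs_sub_center_lt (hlr j z n) hz3 hz4 hz2

/-- The set of the small sets is large enough. -/
theorem core {X : BSet (Bal W0)} {H0 : Cond W0} (hX : SMZName X H0)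
    {g : Pt W0 → ℕ → ℕ} (hg : Measurable g) (N : ℕ) :
    ∃ M, ∃ F : Pt W0 → (ℕ → Finset ℕ) × (ℕ → ℕ), Measurable F ∧
      (∀ z, SmallS (F z).1 ∧ StrictMono (F z).2) ∧
      ∀ f, Measurable f → Forces (H0 * M) fun V => Emem V (cls V (rN f)) (cls V X) →
        bool {z | |f z| ≤ N} ∈ V → bool (Away g N F f)ᶜ ∈ V := by
  classical
  by_contra hcon
  push Not at hcon
  -- the choice function
  have hbad : ∀ (K : Cond W0) (F : Pt W0 → (ℕ → Finset ℕ) × (ℕ → ℕ)), ∃ β : W0,
      (∃ M, K = H0 * M) → Measurable F → (∀ z, SmallS (F z).1 ∧ StrictMono (F z).2) →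
        ∃ f, Measurable f ∧ (∀ z z', Agree β z z' → f z = f z') ∧
          ∃ M' : Cond W0, M'.In (Set.Iio β) ∧ (Forces (K * M') fun V =>
            Emem V (cls V (rN f)) (cls V X) ∧ bool {z | |f z| ≤ N} ∈ V ∧
              bool (Away g N F f) ∈ V) := by
    intro K F
    by_cases h : (∃ M, K = H0 * M) ∧ Measurable F ∧ ∀ z, SmallS (F z).1 ∧ StrictMono (F z).2
    · obtain ⟨⟨M, rfl⟩, hF, hFS⟩ := h
      obtain ⟨f, hf, hnf⟩ := hcon M F hF hFS
      obtain ⟨M', hM'⟩ := exists_forces_of_not ((HasTV.mem _ _).imp ((hasTV_bool _).imp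
        (hasTV_bool _))) hnf
      obtain ⟨β1, hβ1⟩ := exists_bound_cond M'
      obtain ⟨β2, hβ2⟩ := exists_bound_fun hf
      refine ⟨max β1 β2, fun _ _ _ => ⟨f, hf, fun z z' hz => hβ2 z z' (hz.mono (le_max_right _ _)),
        M', hβ1.mono (Set.Iio_subset_Iio (le_max_left _ _)), fun V hV => ?_⟩⟩
      have h1 := hM' V hV
      push Not at h1
      refine ⟨h1.1, h1.2.1, ?_⟩
      have hm : MeasurableSet (Away g N F f) := measurableSet_away hg N hF hf
      have h3 := h1.2.2
      rw [bool_compl_mem hm, not_not] at h3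
      exact h3
    · exact ⟨0, fun h1 h2 h3 => absurd ⟨h1, h2, h3⟩ h⟩
  choose G hG using hbad
  obtain ⟨β1, hβ1⟩ := exists_bound_cond H0
  obtain ⟨β2, hβ2⟩ := exists_bound_fun hg
  obtain ⟨δ, hδ0, -, hδ⟩ := exists_closed G (max β1 β2)
  have hHδ : H0.In (Set.Iio δ) := hβ1.mono (Set.Iio_subset_Iio ((le_max_left _ _).trans hδ0))
  have hgd : ∀ z z', Agree δ z z' → g z = g z' := fun z z' h =>
    hβ2 z z' (h.mono ((le_max_right _ _).trans hδ0))
  -- the covers
  obtain ⟨K1, l, r, hl, hr, hlr, hcov⟩ := hX.seq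
    (e := fun j z n => eps (g z) N (tset δ z (j + n + 1)))
    (fun j => measurable_pi_lambda _ fun n => measurable_comp_countable
      (f := fun z t => eps (g z) N t) (fun t => measurable_eps hg N t) (measurable_tset δ _))
    (fun j z n => by unfold eps; positivity)
  -- the slalom
  obtain ⟨L1, hL1⟩ := laver δ (H0 * K1) (v := vfun δ g N l) (b := bfun g N)
    (fun m => measurable_vfun δ hg N hl m) (fun m z z' h => by unfold bfun; rw [hgd z z' h])
    (fun m z => vfun_lt δ g N l m z)
  choose A hAm hAd hAc hvA using hL1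
  set P : Cond W0 := H0 * K1 * L1 with hP
  let F : Pt W0 → (ℕ → Finset ℕ) × (ℕ → ℕ) := fun z =>
    (fun m => A m (inv P z), part (P.code δ (inv P z)))
  have hinv := measurable_inv P
  have hinvd : ∀ z z', Agree δ z z' → Agree δ (inv P z) (inv P z') := fun z z' h =>
    inv_congr P (isLowerSet_Iio δ) h
  have hFm : Measurable F := by
    refine Measurable.prodMk (measurable_pi_lambda _ fun m => (hAm m).comp hinv)
      (measurable_pi_lambda _ fun m => ?_)
    exact measurable_part (fun s => (P.meas δ s).comp hinv) m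
  have hFd : ∀ z z', Agree δ z z' → F z = F z' := by
    intro z z' h
    have h1 := hinvd z z' h
    simp only [F]
    rw [P.dep δ _ _ h1]
    congr 1
    funext m
    exact hAd m _ _ h1
  have hFS : ∀ z, SmallS (F z).1 ∧ StrictMono (F z).2 := fun z =>
    ⟨fun m => hAc m _, strictMono_part (P.code δ (inv P z))⟩
  have hFP : ∀ z, (F (P.eval z)).2 = part (P.code δ z) := by
    intro z
    simp only [F]
    rw [inv_eval]
  have hFv : ∀ m z, vfun δ g N l m (P.eval z) ∈ (F (P.eval z)).1 m := by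
    intro m z
    simp only [F]
    rw [inv_eval]
    exact hvA m z
  -- the restriction to `δ`
  set K0 : Cond W0 := P.restrict (Set.Iio δ) with hK0
  have hK0H : ∃ M, K0 = H0 * M := by
    refine ⟨(K1 * L1).restrict (Set.Iio δ), ?_⟩
    rw [hK0, hP, mul_assoc, Cond.restrict_mul _ _ (isLowerSet_Iio δ), Cond.restrict_of_in hHδ]
  obtain ⟨f, hf, hfd, M', hM', hfor⟩ := hG K0 F hK0H hFm hFS
  have hGδ : G K0 F < δ := hδ K0 F (P.in_restrict _) hFm hFd
  have hfd' : ∀ z z', Agree δ z z' → f z = f z' := fun z z' h => hfd z z' (h.mono hGδ.le)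
  have hM'δ : M'.In (Set.Iio δ) := hM'.mono (Set.Iio_subset_Iio hGδ.le)
  have hAwd : ∀ z z', Agree δ z z' → z ∈ Away g N F f → z' ∈ Away g N F f := by
    intro z z' h hz
    simp only [Away, Set.mem_ofPred_eq] at hz ⊢
    rw [← hgd z z' h, ← hFd z z' h, ← hfd' z z' h]
    exact hz
  obtain ⟨L2, hL2⟩ := exists_of_frc_bool (forces_bool.mp (hfor.mono fun V h => h.2.2))
  set M2 : Cond W0 := M' * L2.restrict (Set.Iio δ) with hM2
  have hM2δ : M2.In (Set.Iio δ) := hM'δ.mul (L2.in_restrict _)
  have hPM : P * M2 = K0 * M2 * (P.restrict (Set.Iio δ)ᶜ).pull M2 := by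
    rw [mul_assoc K0 M2, Cond.mul_pull (isLowerSet_Iio δ) hM2δ (P.in_restrict _), ← mul_assoc K0,
      hK0, ← P.eq_restrict_mul (isLowerSet_Iio δ)]
  have hAw : ∀ z, (P * M2).eval z ∈ Away g N F f := by
    intro z
    have h1 : Agree δ ((P * M2).eval z) ((K0 * M' * L2).eval z) := by
      refine (agree_mul_restrict P M2 z).trans ?_
      rw [← hK0, hM2, ← mul_assoc, Cond.mul_eval (K0 * M'), Cond.mul_eval (K0 * M')]
      exact (K0 * M').agree_eval (L2.agree_restrict δ z).symm
    exact hAwd _ _ h1.symm (hL2 z)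
  obtain ⟨E, hE⟩ := thinning hg hgd N hFm hFd hf hfd' P M2 hM2δ hFP hAw
  -- the contradiction
  have hT1 : ∀ j, Forces (P * M2 * E) fun V =>
      bool {z | ∃ n, InTau (g z) N (F z).1 (f z) (tset δ z (j + n + 1))} ∈ V := by
    intro j V hV
    have hVP : cone P ∈ V := V.mono hV (cone_le_iff.mpr
      (frc_mul (frc_mul (frc_cone_self P) M2) E))
    have hVH : cone (H0 * K1) ∈ V := V.mono hVP (cone_le_iff.mpr
      (frc_mul (frc_cone_self _) L1))
    have hVK : cone (K0 * M') ∈ V := by
      refine V.mono hV (cone_le_iff.mpr ?_)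
      rw [hPM, hM2, ← mul_assoc]
      exact frc_mul (frc_mul (frc_mul (frc_cone_self _) _) _) _
    obtain ⟨h1, h2, -⟩ := hfor V hVK
    exact covering hlr hFv hVP h2 j (hcov j f hf V hVH h1)
  have hT2 : Forces (P * M2 * E) fun V =>
      bool (⋂ j, {z | ∃ n, InTau (g z) N (F z).1 (f z) (tset δ z (j + n + 1))}) ∈ V := by
    refine forces_iInter (fun j => ?_) hT1
    have h1 : {z | ∃ n, InTau (g z) N (F z).1 (f z) (tset δ z (j + n + 1))} =
        ⋃ n : ℕ, ⋃ t : Finset ℕ, ({z | tset δ z (j + n + 1) = t} ∩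
          {z | InTau (g z) N (F z).1 (f z) t}) := by
      ext z
      simp only [Set.mem_ofPred_eq, Set.mem_iUnion, Set.mem_inter_iff, exists_eq_left']
    rw [h1]
    exact MeasurableSet.iUnion fun n => MeasurableSet.iUnion fun t =>
      (measurable_tset δ _ (measurableSet_singleton t)).inter
        (measurableSet_inTau hg (measurable_fst.comp hFm) hf N t)
  obtain ⟨L, hL⟩ := exists_of_frc_bool (forces_bool.mp hT2)
  have h1 := hL fun _ _ => 0
  rw [Cond.mul_eval] at h1
  obtain ⟨j1, hj1⟩ := hE (L.eval fun _ _ => 0)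
  obtain ⟨n, hn⟩ := Set.mem_iInter.mp h1 j1
  exact hj1 (j1 + n) (Nat.le_add_right _ _) hn

end Main

end Pool.Agent.Miller
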