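import Pool.Agent.Lib_helper75.Miller.Reading

/-!
Measurable sets are decided by the conditions, the inverse of a condition, and the countable
dependence of measurable functions.
-/

set_option autoImplicit false
set_option linter.unusedSectionVars false

universe u v

namespace Pool.Agent.Miller

variable {W : Type u} [LinearOrder W] [WellFoundedLT W]

/-- The set `A` is decided by a dense set of conditions. -/
def Decides (A : Set (Pt W)) : Prop :=
  ∀ H : Cond W, ∃ L : Cond W, (∀ z, (H * L).eval z ∈ A) ∨ ∀ z, (H * L).eval z ∉ A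

theorem Decides.compl {A : Set (Pt W)} (h : Decides A) : Decides Aᶜ := by
  intro H
  obtain ⟨L, hL⟩ := h H
  refine ⟨L, ?_⟩
  rcases hL with hL | hL
  · exact Or.inr fun z hz => hz (hL z)
  · exact Or.inl hL

/-- Either one of countably many decided sets contains the values of an extension or all of them
can be avoided. -/
theorem avoid {A : ℕ → Set (Pt W)} (h : ∀ m, Decides (A m)) (H : Cond W) :
    (∃ m, ∃ L : Cond W, ∀ z, (H * L).eval z ∈ A m) ∨
      ∃ K : Cond W, ∀ m z, (H * K).eval z ∉ A m := by
  by_contra hcon
  push Not at hcon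
  obtain ⟨h1, h2⟩ := hcon
  let D : ℕ → ℕ → Set (Cond W) := fun m _ => {K | ∀ z, (H * K).eval z ∉ A m}
  have hd : ∀ m i, DenseIn Set.univ (D m i) := by
    intro m i K _
    obtain ⟨L, hL | hL⟩ := h m (H * K)
    · obtain ⟨z, hz⟩ := h1 m (K * L)
      rw [← mul_assoc] at hz
      exact absurd (hL z) hz
    · refine ⟨L, L.in_univ, ?_⟩
      intro z
      rw [← mul_assoc]
      exact hL z
  have ho : ∀ m i, OpenIn Set.univ (D m i) := by
    intro m i K hK L _ z
    rw [← mul_assoc, Cond.mul_eval]
    exact hK _
  obtain ⟨K, -, -, hK⟩ := readable_all isLowerSet_univ ∅ (by simp) 1 one_pos D hd ho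
  obtain ⟨m, z, hz⟩ := h2 K
  obtain ⟨j, -, -, hj⟩ := hK m
  obtain ⟨H', hH', -, l, hl⟩ := hj (j z)
  apply hH' (l z)
  rw [Cond.mul_eval, ← hl.eval z rfl, ← Cond.mul_eval]
  exact hz

theorem Decides.iUnion {A : ℕ → Set (Pt W)} (h : ∀ m, Decides (A m)) : Decides (⋃ m, A m) := by
  intro H
  rcases avoid h H with ⟨m, L, hL⟩ | ⟨K, hK⟩
  · exact ⟨L, Or.inl fun z => Set.mem_iUnion.mpr ⟨m, hL z⟩⟩
  · refine ⟨K, Or.inr fun z hz => ?_⟩
    obtain ⟨m, hm⟩ := Set.mem_iUnion.mp hz
    exact hK m z hm

/-- The `σ`-algebra of the decided sets. -/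
@[reducible] def decSpace (W : Type u) [LinearOrder W] [WellFoundedLT W] : MeasurableSpace (Pt W) where
  MeasurableSet' := Decides
  measurableSet_empty := fun _ => ⟨1, Or.inr fun _ h => h⟩
  measurableSet_compl := fun _ h => h.compl
  measurableSet_iUnion := fun _ h => Decides.iUnion h

theorem const_of_decides {C : Type*} [Countable C] (g : Pt W → C)
    (hg : ∀ c, Decides {z | g z = c}) (H : Cond W) :
    ∃ L : Cond W, ∃ c, ∀ z, g ((H * L).eval z) = c := by
  have : Nonempty C := ⟨g fun _ _ => 0⟩
  obtain ⟨e, he⟩ := exists_surjective_nat C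
  rcases avoid (A := fun m => {z | g z = e m}) (fun m => hg (e m)) H with ⟨m, L, hL⟩ | ⟨K, hK⟩
  · exact ⟨L, e m, hL⟩
  · obtain ⟨m, hm⟩ := he (g ((H * K).eval fun _ _ => 0))
    exact absurd hm.symm (hK m _)

open Classical in
/-- The truncation of a point below a coordinate. -/
noncomputable def trunc (β : W) (z : Pt W) : Pt W := fun α => if α < β then z α else fun _ => 0

theorem agree_trunc (β : W) (z : Pt W) : Agree β (trunc β z) z := by
  intro α hα
  unfold trunc
  rw [if_pos hα]

theorem measurable_coord_dec (β : W) :
    @Measurable (Pt W) (ℕ → ℕ) (decSpace W) inferInstance fun z => z β := by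
  induction β using WellFoundedLT.induction with
  | ind β ih =>
    refine @measurable_pi_lambda _ _ _ (decSpace W) _ _ fun i => ?_
    refine @measurable_to_countable' ℕ (Pt W) _ _ (decSpace W) _ fun k => ?_
    show Decides {z : Pt W | z β i = k}
    intro H
    have htr : @Measurable (Pt W) (Pt W) (decSpace W) inferInstance (trunc β) := by
      refine @measurable_pi_lambda _ _ _ (decSpace W) _ _ fun α => ?_
      unfold trunc
      by_cases hα : α < β
      · simp only [if_pos hα]
        exact ih α hα
      · simp only [if_neg hα]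
        exact @measurable_const _ _ _ (decSpace W) _
    let N : Node := List.replicate (i + 1) 0
    have hN : N.length = i + 1 := List.length_replicate
    have hdec : ∀ t, Decides {z | H.code β z N = t} := by
      intro t
      have h1 : {z | H.code β z N = t} = trunc β ⁻¹' {z | H.code β z N = t} := by
        ext z
        show H.code β z N = t ↔ H.code β (trunc β z) N = t
        rw [H.dep β _ _ (agree_trunc β z)]
      rw [h1]
      exact htr (H.meas β N (measurableSet_singleton t))
    obtain ⟨L, t, hL⟩ := const_of_decides (fun z => H.code β z N) hdec 1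
    refine ⟨Cond.stem β N * L, ?_⟩
    have key : ∀ z, (H * (Cond.stem β N * L)).eval z β i = nth t i := by
      intro z
      have h1 := hL z
      rw [one_mul] at h1
      rw [Cond.mul_eval, Cond.mul_eval, Cond.eval_apply, Cond.stem_eval_self,
        H.dep β _ _ (Cond.agree_stem β N (L.eval z))]
      have h2 := ev_extends (H.isCode β (L.eval z)) (res_app_length N (L.eval z β))
      rw [h1] at h2
      have h3 := (H.isCode β (L.eval z)).length_le N
      rw [h1, hN] at h3
      rw [← nth_res (ev (H.code β (L.eval z)) (app N (L.eval z β))) (show i < t.length by omega),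
        h2]
    by_cases hk : nth t i = k
    · left
      intro z
      show _ = k
      rw [key z, hk]
    · right
      intro z (hz : _ = k)
      rw [key z] at hz
      exact hk hz

/-- Measurable sets are decided. -/
theorem decides_of_measurableSet {A : Set (Pt W)} (hA : MeasurableSet A) : Decides A := by
  have h1 : @Measurable (Pt W) (Pt W) (decSpace W) inferInstance id :=
    @measurable_pi_lambda _ _ _ (decSpace W) _ _ fun β => measurable_coord_dec β
  exact h1 hA

/-- A measurable function with countably many values is constant on an extension. -/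
theorem exists_const {C : Type*} [Countable C] [MeasurableSpace C] [MeasurableSingletonClass C]
    {g : Pt W → C} (hg : Measurable g) (H : Cond W) :
    ∃ L : Cond W, ∃ c, ∀ z, g ((H * L).eval z) = c :=
  const_of_decides g (fun c => decides_of_measurableSet (hg (measurableSet_singleton c))) H

theorem eval_congr {I : Set W} (hI : IsLowerSet I) (H : Cond W) {z z' : Pt W}
    (h : ∀ α ∈ I, z α = z' α) : ∀ α ∈ I, H.eval z α = H.eval z' α := by
  intro α hα
  rw [Cond.eval_apply, Cond.eval_apply, h α hα, H.dep α z z' fun β hβ => h β (hI hβ.le hα)]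

theorem exists_const_in {I : Set W} (hI : IsLowerSet I) {C : Type*} [Countable C]
    [MeasurableSpace C] [MeasurableSingletonClass C] {g : Pt W → C} (hg : Measurable g)
    (hgI : ∀ z z' : Pt W, (∀ α ∈ I, z α = z' α) → g z = g z') (H : Cond W) :
    ∃ L : Cond W, L.In I ∧ ∃ c, ∀ z, g ((H * L).eval z) = c := by
  obtain ⟨L, c, hL⟩ := exists_const hg H
  refine ⟨L.restrict I, L.in_restrict I, c, fun z => ?_⟩
  rw [← hL z]
  apply hgI
  rw [Cond.mul_eval, Cond.mul_eval]
  exact eval_congr hI H fun α hα => L.restrict_eval_of_mem hα z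

/-! ### The inverse of a condition -/

open Classical in
/-- The least number with a property, or `0`. -/
noncomputable def pick (P : ℕ → Prop) : ℕ := if h : ∃ k, P k then Nat.find h else 0

theorem pick_eq {P : ℕ → Prop} {k : ℕ} (h : ∀ m, P m ↔ m = k) : pick P = k := by
  classical
  have h1 : ∃ k, P k := ⟨k, (h k).mpr rfl⟩
  unfold pick
  rw [dif_pos h1]
  exact (h _).mp (Nat.find_spec h1)

theorem measurable_pick {Y : Type*} [MeasurableSpace Y] {P : Y → ℕ → Prop}
    (hP : ∀ k, MeasurableSet {a | P a k}) : Measurable fun a => pick (P a) := by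
  classical
  refine measurable_to_countable' fun m => ?_
  have h1 : (fun a => pick (P a)) ⁻¹' {m} =
      ({a | P a m} ∩ ⋂ k : ℕ, {a | k < m → ¬ P a k}) ∪ ({a : Y | m = 0} ∩ ⋂ k, {a | P a k}ᶜ) := by
    ext a
    simp only [Set.mem_preimage, Set.mem_singleton_iff, Set.mem_union, Set.mem_inter_iff,
      Set.mem_ofPred_eq, Set.mem_iInter, Set.mem_compl_iff]
    unfold pick
    by_cases h : ∃ k, P a k
    · rw [dif_pos h, Nat.find_eq_iff]
      constructor
      · rintro ⟨h1, h2⟩
        exact Or.inl ⟨h1, fun k hk => h2 k hk⟩
      · rintro (⟨h1, h2⟩ | ⟨-, h2⟩)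
        · exact ⟨h1, fun k hk => h2 k hk⟩
        · obtain ⟨k, hk⟩ := h
          exact absurd hk (h2 k)
    · rw [dif_neg h]
      constructor
      · intro h1
        exact Or.inr ⟨h1.symm, fun k hk => h ⟨k, hk⟩⟩
      · rintro (⟨h1, -⟩ | ⟨h1, -⟩)
        · exact absurd ⟨m, h1⟩ h
        · exact h1.symm
  rw [h1]
  refine ((hP m).inter (MeasurableSet.iInter fun k => ?_)).union
    ((MeasurableSet.const _).inter (MeasurableSet.iInter fun k => (hP k).compl))
  by_cases hk : k < m
  · simp only [hk, true_imp_iff]
    exact (hP k).compl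
  · simp only [hk, false_imp_iff]
    exact MeasurableSet.univ

/-- The nodes of the inverse image of a sequence under the map of a code. -/
noncomputable def unode (c : Node → Node) (y : ℕ → ℕ) : ℕ → Node
  | 0 => []
  | i + 1 => pick (fun k => res y (c (k :: unode c y i)).length = c (k :: unode c y i)) ::
      unode c y i

/-- The inverse of the map of a code. -/
noncomputable def unev (c : Node → Node) (y : ℕ → ℕ) : ℕ → ℕ := fun i =>
  pick fun k => res y (c (k :: unode c y i)).length = c (k :: unode c y i)

theorem res_unev (c : Node → Node) (y : ℕ → ℕ) (i : ℕ) : res (unev c y) i = unode c y i := by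
  induction i with
  | zero => rfl
  | succ i ih =>
    rw [res_succ, ih]
    rfl

theorem unode_ev {c : Node → Node} (hc : IsCode c) (y : ℕ → ℕ) (i : ℕ) :
    unode c (ev c y) i = res y i := by
  induction i with
  | zero => rfl
  | succ i ih =>
    rw [unode, ih, res_succ]
    congr 1
    refine pick_eq fun k => ?_
    constructor
    · intro h
      obtain ⟨a, ha⟩ := hc.ext (res y i) k
      obtain ⟨b, hb⟩ := hc.ext (res y i) (y i)
      have h2 := res_ev hc y (i + 1)
      rw [res_succ] at h2
      have h3 : (a :: c (res y i)) <:+ res (ev c y)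
          (max (c (k :: res y i)).length (c (y i :: res y i)).length) := by
        refine (ha.trans ?_).trans (res_suffix (ev c y) (le_max_left _ _))
        rw [h]
      have h4 : (b :: c (res y i)) <:+ res (ev c y)
          (max (c (k :: res y i)).length (c (y i :: res y i)).length) := by
        refine (hb.trans ?_).trans (res_suffix (ev c y) (le_max_right _ _))
        rw [h2]
      have h5 := cons_suffix_iff h3 h4
      subst h5
      exact hc.inj _ _ _ _ ha hb
    · rintro rfl
      have h2 := res_ev hc y (i + 1)
      rwa [res_succ] at h2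

theorem unev_ev {c : Node → Node} (hc : IsCode c) (y : ℕ → ℕ) : unev c (ev c y) = y :=
  eq_of_res fun n => ⟨n, le_rfl, by rw [res_unev, unode_ev hc]⟩

theorem measurable_unode {Y : Type*} [MeasurableSpace Y] {c : Y → Node → Node}
    (hc : ∀ s, Measurable fun a => c a s) {y : Y → ℕ → ℕ} (hy : Measurable y) (i : ℕ) :
    Measurable fun a => unode (c a) (y a) i := by
  induction i with
  | zero => exact measurable_const
  | succ i ih =>
    refine measurable_comp_countable (f := fun a (s : Node) =>
      pick (fun k => res (y a) (c a (k :: s)).length = c a (k :: s)) :: s) (fun s => ?_) ih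
    refine (Measurable.of_discrete (f := fun k : ℕ => k :: s)).comp (measurable_pick fun k => ?_)
    have h1 : Measurable fun a => res (y a) (c a (k :: s)).length :=
      measurable_comp_countable (f := fun a (t : Node) => res (y a) t.length)
        (fun t => measurable_res hy _) (hc _)
    exact measurableSet_eq_fun h1 (hc _)

theorem measurable_unev {Y : Type*} [MeasurableSpace Y] {c : Y → Node → Node}
    (hc : ∀ s, Measurable fun a => c a s) {y : Y → ℕ → ℕ} (hy : Measurable y) :
    Measurable fun a => unev (c a) (y a) := by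
  rw [measurable_seq_iff]
  intro n s
  simp only [res_unev]
  exact measurable_unode hc hy n (measurableSet_singleton s)

theorem unev_id (y : ℕ → ℕ) : unev id y = y := by
  have := unev_ev isCode_id y
  rwa [ev_id] at this

/-- The coordinates of the inverse of a condition. -/
noncomputable def invC (K : Cond W) (β : W) : Pt W → ℕ → ℕ :=
  (wellFounded_lt (α := W)).fix (C := fun _ => Pt W → ℕ → ℕ)
    (fun β ih x => unev (K.code β (by
      classical exact fun α => if h : α < β then ih α h x else x α)) (x β)) β

/-- The inverse of a condition. -/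
noncomputable def inv (K : Cond W) (x : Pt W) : Pt W := fun β => invC K β x

theorem inv_apply (K : Cond W) (x : Pt W) (β : W) :
    inv K x β = unev (K.code β (inv K x)) (x β) := by
  show invC K β x = _
  unfold invC
  rw [WellFounded.fix_eq]
  congr 1
  refine K.dep β _ _ fun α hα => ?_
  rw [dif_pos hα]
  rfl

theorem inv_eval (K : Cond W) (z : Pt W) : inv K (K.eval z) = z := by
  funext β
  induction β using WellFoundedLT.induction with
  | ind β ih =>
    rw [inv_apply, K.dep β _ z fun α hα => ih α hα, Cond.eval_apply, unev_ev (K.isCode β z)]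

theorem inv_congr (K : Cond W) {I : Set W} (hI : IsLowerSet I) {x x' : Pt W}
    (h : ∀ α ∈ I, x α = x' α) : ∀ β ∈ I, inv K x β = inv K x' β := by
  intro β
  induction β using WellFoundedLT.induction with
  | ind β ih =>
    intro hβ
    rw [inv_apply, inv_apply, h β hβ, K.dep β _ _ fun α hα => ih α hα (hI hα.le hβ)]

theorem inv_of_notMem {K : Cond W} {I : Set W} (hK : K.In I) {β : W} (hβ : β ∉ I) (x : Pt W) :
    inv K x β = x β := by
  rw [inv_apply, hK β hβ, unev_id]

theorem measurable_inv (K : Cond W) : Measurable (inv K) := by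
  refine measurable_pi_lambda _ fun β => ?_
  induction β using WellFoundedLT.induction with
  | ind β ih =>
    have h1 : Measurable fun x => (trunc β (inv K x)) := by
      refine measurable_pi_lambda _ fun α => ?_
      unfold trunc
      by_cases hα : α < β
      · simp only [if_pos hα]
        exact ih α hα
      · simp only [if_neg hα]
        exact measurable_const
    have h2 : (fun x => inv K x β) = fun x => unev (K.code β (trunc β (inv K x))) (x β) := by
      funext x
      rw [inv_apply, K.dep β _ _ (agree_trunc β _)]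
    rw [h2]
    exact measurable_unev (fun s => (K.meas β s).comp h1) (measurable_pi_apply β)

/-! ### Countable dependence -/

omit [WellFoundedLT W] in
theorem exists_countable_dep {A : Set (Pt W)} (hA : MeasurableSet A) :
    ∃ C : Set W, C.Countable ∧ ∀ z z' : Pt W, (∀ α ∈ C, z α = z' α) → (z ∈ A ↔ z' ∈ A) := by
  let S : MeasurableSpace (Pt W) := {
    MeasurableSet' := fun A => ∃ C : Set W, C.Countable ∧
      ∀ z z' : Pt W, (∀ α ∈ C, z α = z' α) → (z ∈ A ↔ z' ∈ A)
    measurableSet_empty := ⟨∅, Set.countable_empty, fun _ _ _ => Iff.rfl⟩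
    measurableSet_compl := fun A ⟨C, hC, h⟩ => ⟨C, hC, fun z z' hz => not_congr (h z z' hz)⟩
    measurableSet_iUnion := fun A h => by
      choose C hC h using h
      refine ⟨⋃ i, C i, Set.countable_iUnion hC, fun z z' hz => ?_⟩
      simp only [Set.mem_iUnion]
      exact exists_congr fun i => h i z z' fun α hα => hz α (Set.mem_iUnion.mpr ⟨i, hα⟩) }
  have h1 : @Measurable (Pt W) (Pt W) S MeasurableSpace.pi id := by
    refine @measurable_pi_lambda (Pt W) W (fun _ => ℕ → ℕ) S _ id fun β => ?_
    intro s hs
    refine ⟨{β}, Set.countable_singleton β, fun z z' hz => ?_⟩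
    show z β ∈ s ↔ z' β ∈ s
    rw [hz β rfl]
  exact h1 hA

omit [WellFoundedLT W] in
theorem exists_countable_dep_fun {Y : Type*} [MeasurableSpace Y] [MeasurableSpace.CountablyGenerated Y]
    [MeasurableSpace.SeparatesPoints Y] {f : Pt W → Y} (hf : Measurable f) :
    ∃ C : Set W, C.Countable ∧ ∀ z z' : Pt W, (∀ α ∈ C, z α = z' α) → f z = f z' := by
  have h1 : ∀ n, ∃ C : Set W, C.Countable ∧ ∀ z z' : Pt W, (∀ α ∈ C, z α = z' α) →
      (f z ∈ MeasurableSpace.natGeneratingSequence Y n ↔
        f z' ∈ MeasurableSpace.natGeneratingSequence Y n) :=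
    fun n => exists_countable_dep (hf (MeasurableSpace.measurableSet_natGeneratingSequence n))
  choose C hC h using h1
  refine ⟨⋃ n, C n, Set.countable_iUnion hC, fun z z' hz => ?_⟩
  have h2 := fun n => h n z z' fun α hα => hz α (Set.mem_iUnion.mpr ⟨n, hα⟩)
  refine MeasurableSpace.injective_mapNatBool Y ?_
  funext n
  unfold MeasurableSpace.mapNatBool
  simp only [decide_eq_decide]
  exact h2 n

end Pool.Agent.Miller
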