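import Pool.Agent.Lib_helper75.Miller.Fusion

/-!
Factorizations of a condition on a set of parameters, and gluing of conditions at a coordinate.
-/

set_option autoImplicit false
set_option linter.unusedSectionVars false

universe u v

namespace Pool.Agent.Miller

variable {W : Type u} [LinearOrder W]

/-- On the set `P` of parameters the condition `K` factors through `H` by means of `ℓ`. -/
structure Factor (I : Set W) (K : Cond W) (P : Set (Pt W)) (H : Cond W) (l : Pt W → Pt W) :
    Prop where
  meas : Measurable l
  agree : ∀ β z z', z ∈ P → z' ∈ P → Agree β z z' → Agree β (l z) (l z')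
  out : ∀ z β, β ∉ I → l z β = z β
  eval : ∀ z ∈ P, K.eval z = H.eval (l z)
  lift : ∀ M : Cond W, M.In I → (∀ z, M.eval z ∈ P) →
    ∃ M' : Cond W, M'.In I ∧ K * M = H * M' ∧ ∀ z, M'.eval z = l (M.eval z)

/-- On the set `P` of parameters the condition `K` factors through an element of `D`. -/
def Reads (I : Set W) (K : Cond W) (P : Set (Pt W)) (D : Set (Cond W)) : Prop :=
  ∃ H ∈ D, H.In I ∧ ∃ l, Factor I K P H l

/-- `D` is dense among the conditions in `I`. -/
def DenseIn (I : Set W) (D : Set (Cond W)) : Prop :=
  ∀ H : Cond W, H.In I → ∃ L : Cond W, L.In I ∧ H * L ∈ D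

/-- `D` is open among the conditions in `I`. -/
def OpenIn (I : Set W) (D : Set (Cond W)) : Prop :=
  ∀ H ∈ D, ∀ L : Cond W, L.In I → H * L ∈ D

namespace Factor

variable {I : Set W} {K H : Cond W} {P : Set (Pt W)} {l : Pt W → Pt W}

theorem refl (I : Set W) (K : Cond W) (P : Set (Pt W)) : Factor I K P K id where
  meas := measurable_id
  agree _ _ _ _ _ h := h
  out _ _ _ := rfl
  eval _ _ := rfl
  lift M hM _ := ⟨M, hM, rfl, fun _ => rfl⟩

theorem empty (I : Set W) (K H : Cond W) : Factor I K ∅ H id where
  meas := measurable_id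
  agree _ _ _ h := absurd h (Set.notMem_empty _)
  out _ _ _ := rfl
  eval _ h := absurd h (Set.notMem_empty _)
  lift _ _ h := absurd (h fun _ _ => 0) (Set.notMem_empty _)

theorem mono (h : Factor I K P H l) {Q : Set (Pt W)} (hQ : Q ⊆ P) : Factor I K Q H l where
  meas := h.meas
  agree β z z' hz hz' := h.agree β z z' (hQ hz) (hQ hz')
  out := h.out
  eval z hz := h.eval z (hQ hz)
  lift M hM hP := h.lift M hM fun z => hQ (hP z)

theorem comp (h : Factor I K P H l) {L : Cond W} (hL : L.In I) :
    Factor I (K * L) {z | L.eval z ∈ P} H (fun z => l (L.eval z)) where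
  meas := h.meas.comp L.measurable_eval
  agree β z z' hz hz' hβ := h.agree β _ _ hz hz' (L.agree_eval hβ)
  out z β hβ := by rw [h.out _ β hβ, hL.eval_of_notMem hβ]
  eval z hz := by rw [Cond.mul_eval, h.eval _ hz]
  lift M hM hP := by
    obtain ⟨M', h1, h2, h3⟩ := h.lift (L * M) (hL.mul hM) (fun z => by
      rw [Cond.mul_eval]; exact hP z)
    exact ⟨M', h1, by rw [mul_assoc, h2], fun z => by rw [h3, Cond.mul_eval]⟩

theorem mul_left (h : Factor I K P H l) (G : Cond W) : Factor I (G * K) P (G * H) l where
  meas := h.meas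
  agree := h.agree
  out := h.out
  eval z hz := by rw [Cond.mul_eval, Cond.mul_eval, h.eval z hz]
  lift M hM hP := by
    obtain ⟨M', h1, h2, h3⟩ := h.lift M hM hP
    exact ⟨M', h1, by rw [mul_assoc, h2, mul_assoc], h3⟩

end Factor

/-! ### Cutting off a stem -/

/-- Remove the initial part `N` of a node. -/
def cut (N t : Node) : Node := t.take (t.length - N.length)

theorem cut_append (N u : Node) : cut N (u ++ N) = u := by
  unfold cut
  simp

theorem cut_spec {N t : Node} (h : N <:+ t) : cut N t ++ N = t := by
  obtain ⟨u, rfl⟩ := h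
  rw [cut_append]

theorem isCode_cut {c : Node → Node} (hc : IsCode c) {N : Node} (hN : N <:+ c []) :
    IsCode (fun s => cut N (c s)) := by
  have h1 : ∀ s, cut N (c s) ++ N = c s := fun s => cut_spec (hN.trans (hc.suffix (List.nil_suffix)))
  have h2 : ∀ {x y : Node}, (x ++ N) <:+ (y ++ N) → x <:+ y := by
    rintro x y ⟨v, hv⟩
    rw [← List.append_assoc] at hv
    exact ⟨v, List.append_cancel_right hv⟩
  have h3 : ∀ {x y : Node}, x <:+ y → (x ++ N) <:+ (y ++ N) := by
    rintro x y ⟨v, hv⟩
    exact ⟨v, by rw [← hv, List.append_assoc]⟩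
  constructor
  · intro s n
    obtain ⟨k, hk⟩ := hc.ext s n
    refine ⟨k, h2 ?_⟩
    rw [List.cons_append, h1, h1]
    exact hk
  · intro s n m k h4 h5
    have h6 := h3 h4
    have h7 := h3 h5
    rw [List.cons_append, h1, h1] at h6 h7
    exact hc.inj s n m k h6 h7

theorem ev_cut {c : Node → Node} (hc : IsCode c) {N : Node} (hN : N <:+ c []) (y : ℕ → ℕ) :
    app N (ev (fun s => cut N (c s)) y) = ev c y := by
  rw [← ev_append, ← ev_comp (isCode_append N) (isCode_cut hc hN)]
  congr 1
  funext s
  exact cut_spec (hN.trans (hc.suffix (List.nil_suffix)))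

/-! ### Gluing at a coordinate -/

section Glue

open Classical in
/-- The parameters after the coordinate `γ` is stripped of its first new node. -/
noncomputable def lam (γ : W) (n : ℕ) (l : Pt W → Pt W) (z : Pt W) : Pt W :=
  fun α => if α < γ then l z α else if α = γ then rest n (z γ) else z α

variable {γ : W} {n : ℕ} {l : Pt W → Pt W}

theorem lam_lt {α : W} (h : α < γ) (z : Pt W) : lam γ n l z α = l z α := by
  unfold lam; rw [if_pos h]

theorem lam_self (z : Pt W) : lam γ n l z γ = rest n (z γ) := by
  unfold lam; rw [if_neg (lt_irrefl γ), if_pos rfl]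

theorem lam_gt {α : W} (h : γ < α) (z : Pt W) : lam γ n l z α = z α := by
  unfold lam; rw [if_neg h.not_gt, if_neg h.ne']

theorem agree_lam (z : Pt W) : Agree γ (lam γ n l z) (l z) := fun _ hα => lam_lt hα z

theorem measurable_firstNew {Y : Type*} [MeasurableSpace Y] (hn : 0 < n) {y : Y → ℕ → ℕ}
    (hy : Measurable y) : Measurable fun a => firstNew n (y a) := by
  refine measurable_to_countable' fun N => ?_
  by_cases hN : IsNew n N
  · have h1 : (fun a => firstNew n (y a)) ⁻¹' {N} = {a | res (y a) N.length = N} := by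
      ext a
      exact firstNew_eq_iff hn hN
    rw [h1]
    exact measurable_res hy _ (measurableSet_singleton N)
  · have h1 : (fun a => firstNew n (y a)) ⁻¹' {N} = ∅ := by
      ext a
      simp only [Set.mem_preimage, Set.mem_singleton_iff, Set.mem_empty_iff_false, iff_false]
      rintro rfl
      exact hN (isNew_firstNew hn _)
    rw [h1]
    exact MeasurableSet.empty

theorem measurable_rest {Y : Type*} [MeasurableSpace Y] (hn : 0 < n) {y : Y → ℕ → ℕ}
    (hy : Measurable y) : Measurable fun a => rest n (y a) := by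
  refine measurable_pi_lambda _ fun i => ?_
  exact measurable_comp_countable (f := fun a (N : Node) => y a (i + N.length))
    (fun N => (measurable_pi_apply _).comp hy) (measurable_firstNew hn hy)

theorem measurable_lam (hn : 0 < n) (hl : Measurable l) : Measurable (lam γ n l) := by
  refine measurable_pi_lambda _ fun α => ?_
  rcases lt_trichotomy α γ with h | h | h
  · simp only [lam_lt h]
    exact (measurable_pi_apply α).comp hl
  · subst h
    simp only [lam_self]
    exact measurable_rest hn (measurable_pi_apply α)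
  · simp only [lam_gt h]
    exact measurable_pi_apply α

/-- The data for gluing conditions at the coordinate `γ`. -/
structure GlueData (W : Type u) [LinearOrder W] where
  I : Set W
  γ : W
  n : ℕ
  hn : 0 < n
  J : Cond W
  hJ : J.In (Set.Iio γ)
  T : Node → ℕ → Cond W
  hT : ∀ N i, (T N i).In (Set.Iio γ)ᶜ
  hT' : ∀ N i, (T N i).In I
  l : Node → ℕ → Pt W → Pt W
  hl : ∀ N i, Measurable (l N i)
  j : Node → Pt W → ℕ
  hj : ∀ N, Measurable (j N)
  hj' : ∀ N z z', Agree γ z z' → j N z = j N z'
  hlj : ∀ N i z z', j N z = i → j N z' = i → ∀ β, Agree β z z' → Agree β (l N i z) (l N i z')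

namespace GlueData

variable (G : GlueData W)

open Classical in
/-- The codes of the glued condition. -/
noncomputable def gcode (β : W) (z : Pt W) : Node → Node :=
  if β < G.γ then G.J.code β z
  else if β = G.γ then
    glueCode G.n (fun N => (G.T N (G.j N z)).code G.γ (G.l N (G.j N z) z)) id
  else (G.T (firstNew G.n (z G.γ)) (G.j (firstNew G.n (z G.γ)) z)).code β
    (lam G.γ G.n (G.l (firstNew G.n (z G.γ)) (G.j (firstNew G.n (z G.γ)) z)) z)

theorem gcode_lt {β : W} (h : β < G.γ) (z : Pt W) : G.gcode β z = G.J.code β z := by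
  unfold gcode; rw [if_pos h]

theorem gcode_self (z : Pt W) : G.gcode G.γ z =
    glueCode G.n (fun N => (G.T N (G.j N z)).code G.γ (G.l N (G.j N z) z)) id := by
  unfold gcode; rw [if_neg (lt_irrefl _), if_pos rfl]

theorem gcode_gt {β : W} (h : G.γ < β) (z : Pt W) : G.gcode β z =
    (G.T (firstNew G.n (z G.γ)) (G.j (firstNew G.n (z G.γ)) z)).code β
    (lam G.γ G.n (G.l (firstNew G.n (z G.γ)) (G.j (firstNew G.n (z G.γ)) z)) z) := by
  unfold gcode; rw [if_neg h.not_gt, if_neg h.ne']

/-- The glued condition. -/
noncomputable def glued : Cond W where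
  code := G.gcode
  dep := fun β z z' h => by
    rcases lt_trichotomy β G.γ with hβ | hβ | hβ
    · rw [G.gcode_lt hβ, G.gcode_lt hβ]
      exact G.J.dep β z z' h
    · subst hβ
      rw [G.gcode_self, G.gcode_self]
      congr 1
      funext N
      rw [← G.hj' N z z' h]
      exact (G.T N _).dep _ _ _ (G.hlj N _ z z' rfl (G.hj' N z z' h).symm _ h)
    · rw [G.gcode_gt hβ, G.gcode_gt hβ]
      have h1 : z G.γ = z' G.γ := h _ hβ
      rw [← h1, ← G.hj' _ z z' (h.mono hβ.le)]
      refine (G.T _ _).dep _ _ _ fun α hα => ?_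
      rcases lt_trichotomy α G.γ with h2 | h2 | h2
      · rw [lam_lt h2, lam_lt h2]
        exact G.hlj _ _ z z' rfl (G.hj' _ z z' (h.mono hβ.le)).symm G.γ (h.mono hβ.le) α h2
      · subst h2
        rw [lam_self, lam_self, h1]
      · rw [lam_gt h2, lam_gt h2, h α hα]
  meas := fun β s => by
    rcases lt_trichotomy β G.γ with hβ | hβ | hβ
    · simp only [G.gcode_lt hβ]
      exact G.J.meas β s
    · subst hβ
      simp only [G.gcode_self]
      unfold glueCode
      rcases split G.n s with _ | ⟨u, N⟩
      · exact measurable_const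
      · have h1 : Measurable fun z => (G.T N (G.j N z)).code G.γ (G.l N (G.j N z) z) u :=
          measurable_comp_countable (f := fun z i => (G.T N i).code G.γ (G.l N i z) u)
            (fun i => ((G.T N i).meas _ u).comp (G.hl N i)) (G.hj N)
        exact (Measurable.of_discrete (f := fun t : Node => t ++ id N)).comp h1
    · simp only [G.gcode_gt hβ]
      have h2 : Measurable fun z : Pt W => firstNew G.n (z G.γ) :=
        measurable_firstNew G.hn (measurable_pi_apply _)
      refine measurable_comp_countable (f := fun z N => (G.T N (G.j N z)).code β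
        (lam G.γ G.n (G.l N (G.j N z)) z) s) (fun N => ?_) h2
      exact measurable_comp_countable (f := fun z i => (G.T N i).code β
        (lam G.γ G.n (G.l N i) z) s)
        (fun i => ((G.T N i).meas _ s).comp (measurable_lam G.hn (G.hl N i))) (G.hj N)
  isCode := fun β z => by
    rcases lt_trichotomy β G.γ with hβ | hβ | hβ
    · rw [G.gcode_lt hβ]
      exact G.J.isCode β z
    · subst hβ
      rw [G.gcode_self]
      exact isCode_glueCode G.hn (fun N _ => (G.T N _).isCode _ _) (good_id _)
    · rw [G.gcode_gt hβ]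
      exact (G.T _ _).isCode _ _
  supp := by
    refine ((G.J.supp.union (Set.countable_singleton G.γ)).union
      (Set.countable_iUnion fun N => Set.countable_iUnion fun i => (G.T N i).supp)).mono ?_
    rintro β ⟨z, hz⟩
    rcases lt_trichotomy β G.γ with hβ | hβ | hβ
    · rw [G.gcode_lt hβ] at hz
      exact Or.inl (Or.inl ⟨z, hz⟩)
    · exact Or.inl (Or.inr hβ)
    · rw [G.gcode_gt hβ] at hz
      exact Or.inr (Set.mem_iUnion.mpr ⟨_, Set.mem_iUnion.mpr ⟨_, _, hz⟩⟩)

theorem glued_code (β : W) (z : Pt W) : G.glued.code β z = G.gcode β z := rfl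

theorem in_glued (hI : IsLowerSet G.I) (hγ : G.γ ∈ G.I) : G.glued.In G.I := by
  intro β hβ z
  rw [glued_code]
  rcases lt_trichotomy β G.γ with h | h | h
  · exact absurd (hI h.le hγ) hβ
  · exact absurd (h ▸ hγ) hβ
  · rw [G.gcode_gt h]
    exact G.hT' _ _ β hβ _

theorem fix_glued {F : Finset W} (hF : ∀ β ∈ F, β ≤ G.γ)
    (hJ : Fix (F.filter (· < G.γ)) G.n G.J) : Fix F G.n G.glued := by
  intro β hβ s hs z
  rw [glued_code]
  rcases lt_or_eq_of_le (hF β hβ) with h | h
  · rw [G.gcode_lt h]
    exact hJ β (by simp [hβ, h]) s hs z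
  · subst h
    rw [G.gcode_self]
    exact glueCode_old G.hn _ _ hs

/-- The factorization of the glued condition. -/
theorem factor_glued (hI : IsLowerSet G.I) (hγ : G.γ ∈ G.I) {N : Node} (hN : IsNew G.n N) {i : ℕ}
    {H : Cond W} (hH : H.In (Set.Iio G.γ))
    (hf : Factor (Set.Iio G.γ) G.J {z | G.j N z = i} H (G.l N i)) :
    Factor G.I G.glued {z | firstNew G.n (z G.γ) = N ∧ G.j N z = i}
      (H * Cond.stem G.γ N * G.T N i) (lam G.γ G.n (G.l N i)) := by
  have hTlow : ∀ (x : Pt W) (α : W), α < G.γ → (G.T N i).eval x α = x α := fun x α hα =>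
    (G.hT N i).eval_of_notMem (by simpa using hα) x
  have hSlow : ∀ (x : Pt W), Agree G.γ ((Cond.stem G.γ N).eval ((G.T N i).eval x)) x := by
    intro x α hα
    rw [Cond.stem_eval_of_ne hα.ne, hTlow x α hα]
  constructor
  · exact measurable_lam G.hn (G.hl N i)
  · rintro β z z' ⟨hz1, hz2⟩ ⟨hz1', hz2'⟩ h α hα
    rcases lt_trichotomy α G.γ with h2 | h2 | h2
    · rw [lam_lt h2, lam_lt h2]
      exact G.hlj N i z z' hz2 hz2' β h α hα
    · subst h2
      rw [lam_self, lam_self, h _ hα]
    · rw [lam_gt h2, lam_gt h2, h α hα]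
  · intro z β hβ
    rw [lam_gt]
    rcases lt_trichotomy β G.γ with h | h | h
    · exact absurd (hI h.le hγ) hβ
    · exact absurd (h ▸ hγ) hβ
    · exact h
  · rintro z ⟨hz1, hz2⟩
    funext β
    rw [Cond.mul_eval, Cond.mul_eval]
    rcases lt_trichotomy β G.γ with hβ | hβ | hβ
    · rw [H.agree_eval ((hSlow _).trans (agree_lam z)) β hβ, ← hf.eval z hz2,
        Cond.eval_apply, glued_code, G.gcode_lt hβ]
      rfl
    · subst hβ
      rw [hH.eval_of_notMem (by simp), Cond.stem_eval_self, Cond.eval_apply, Cond.eval_apply,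
        lam_self, glued_code, gcode_self]
      rw [(G.T N i).dep G.γ _ _ (agree_lam z)]
      conv_lhs => rw [← app_rest G.n (z G.γ), hz1]
      rw [ev_glueCode G.hn (fun N _ => (G.T N _).isCode _ _) (good_id _) hN, hz2]
      rfl
    · rw [hH.eval_of_notMem (by simpa using hβ.le), Cond.stem_eval_of_ne hβ.ne', Cond.eval_apply,
        Cond.eval_apply, lam_gt hβ, glued_code, gcode_gt _ hβ, hz1, hz2]
  · intro M hM hMP
    have hlow : ∀ z, Agree G.γ ((M.restrict (Set.Iio G.γ)).eval z) (M.eval z) :=
      fun z α hα => M.restrict_eval_of_mem (Set.mem_Iio.mpr hα) z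
    -- the part below `γ`
    obtain ⟨M1, hM1, hJM, hM1e⟩ := hf.lift (M.restrict (Set.Iio G.γ)) (M.in_restrict _)
      (fun z => by
        show G.j N _ = i
        rw [G.hj' N _ (M.eval z) (hlow z)]
        exact (hMP z).2)
    have hstem : ∀ z, N <:+ M.code G.γ z [] := by
      intro z
      refine stem_of_forall (M.isCode _ _) fun y => ?_
      classical
      have h1 := (hMP (Function.update z G.γ y)).1
      rw [Cond.eval_apply, Function.update_self, M.dep G.γ _ z (fun α hα => by
        rw [Function.update_of_ne hα.ne])] at h1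
      rw [← h1]
      exact firstNew_extends _ _
    classical
    let M2 : Cond W := {
      code := fun β z => if β < G.γ then id else if β = G.γ then fun s => cut N (M.code G.γ z s)
        else M.code β z
      dep := fun β z z' h => by
        rcases lt_trichotomy β G.γ with hβ | hβ | hβ
        · rw [if_pos hβ, if_pos hβ]
        · subst hβ
          simp only [lt_irrefl, if_false, if_true]
          rw [M.dep _ z z' h]
        · rw [if_neg hβ.not_gt, if_neg hβ.ne', if_neg hβ.not_gt, if_neg hβ.ne']
          exact M.dep β z z' h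
      meas := fun β s => by
        rcases lt_trichotomy β G.γ with hβ | hβ | hβ
        · simp only [if_pos hβ]
          exact measurable_const
        · subst hβ
          simp only [lt_irrefl, if_false, if_true]
          exact (Measurable.of_discrete (f := fun t : Node => cut N t)).comp (M.meas _ s)
        · simp only [if_neg hβ.not_gt, if_neg hβ.ne']
          exact M.meas β s
      isCode := fun β z => by
        rcases lt_trichotomy β G.γ with hβ | hβ | hβ
        · rw [if_pos hβ]
          exact isCode_id
        · subst hβ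
          simp only [lt_irrefl, if_false, if_true]
          exact isCode_cut (M.isCode _ _) (hstem z)
        · rw [if_neg hβ.not_gt, if_neg hβ.ne']
          exact M.isCode β z
      supp := by
        refine (M.supp.union (Set.countable_singleton G.γ)).mono ?_
        rintro β ⟨z, hz⟩
        rcases lt_trichotomy β G.γ with hβ | hβ | hβ
        · rw [if_pos hβ] at hz
          exact absurd rfl hz
        · exact Or.inr hβ
        · rw [if_neg hβ.not_gt, if_neg hβ.ne'] at hz
          exact Or.inl ⟨z, hz⟩ }
    have hM2lt : ∀ β z, β < G.γ → M2.code β z = id := fun β z hβ => if_pos hβ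
    have hM2self : ∀ z, M2.code G.γ z = fun s => cut N (M.code G.γ z s) := by
      intro z
      show (if G.γ < G.γ then id else if G.γ = G.γ then _ else _) = _
      rw [if_neg (lt_irrefl _), if_pos rfl]
    have hM2gt : ∀ β z, G.γ < β → M2.code β z = M.code β z := by
      intro β z hβ
      show (if β < G.γ then id else if β = G.γ then _ else _) = _
      rw [if_neg hβ.not_gt, if_neg hβ.ne']
    have hM2low : ∀ z, Agree G.γ (M2.eval z) z := by
      intro z α hα
      rw [Cond.eval_apply, hM2lt α z hα, ev_id]
    have heval : ∀ z, (M1 * M2).eval z = lam G.γ G.n (G.l N i) (M.eval z) := by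
      intro z
      funext α
      rw [Cond.mul_eval]
      rcases lt_trichotomy α G.γ with h2 | h2 | h2
      · rw [lam_lt h2, M1.agree_eval (hM2low z) α h2, hM1e z]
        refine hf.agree G.γ _ _ ?_ (hMP z).2 (hlow z) α h2
        show G.j N _ = i
        rw [G.hj' N _ (M.eval z) (hlow z)]
        exact (hMP z).2
      · subst h2
        rw [hM1.eval_of_notMem (by simp), lam_self, Cond.eval_apply, hM2self]
        have h3 := ev_cut (M.isCode G.γ z) (hstem z) (z G.γ)
        rw [Cond.eval_apply M z G.γ, ← h3, rest_app G.hn hN]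
      · rw [hM1.eval_of_notMem (by simpa using h2.le), lam_gt h2, Cond.eval_apply, hM2gt α z h2]
        rfl
    refine ⟨M1 * M2, ?_, ?_, heval⟩
    · refine (hM1.mono fun α hα => hI (le_of_lt hα) hγ).mul ?_
      intro β hβ z
      rcases lt_trichotomy β G.γ with h | h | h
      · exact absurd (hI h.le hγ) hβ
      · exact absurd (h ▸ hγ) hβ
      · rw [hM2gt β z h]
        exact hM β hβ z
    · refine Cond.ext' fun β z => ?_
      rw [Cond.mul_code, Cond.mul_code, heval z, Cond.mul_code, Cond.mul_code, Cond.mul_code M1]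
      rcases lt_trichotomy β G.γ with hβ | hβ | hβ
      · have h1 : (G.J * M.restrict (Set.Iio G.γ)).code β z = (H * M1).code β z := by rw [hJM]
        rw [Cond.mul_code, Cond.mul_code, M.restrict_code_of_mem (Set.mem_Iio.mpr hβ)] at h1
        have h2 : G.J.code β ((M.restrict (Set.Iio G.γ)).eval z) = G.J.code β (M.eval z) :=
          G.J.dep β _ _ ((hlow z).mono hβ.le)
        rw [h2] at h1
        rw [glued_code, G.gcode_lt hβ, h1, hM2lt β z hβ, Cond.stem_code_of_ne hβ.ne,
          (G.hT N i) β (by simpa using hβ), M1.dep β _ z ((hM2low z).mono hβ.le)]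
        have h3 : H.code β ((Cond.stem G.γ N).eval ((G.T N i).eval
            (lam G.γ G.n (G.l N i) (M.eval z)))) = H.code β (M1.eval z) := by
          refine H.dep β _ _ fun α hα => ?_
          have hα' := lt_trans hα hβ
          rw [hSlow _ α hα', ← heval z, Cond.mul_eval, M1.agree_eval (hM2low z) α hα']
        rw [h3]
        rfl
      · subst hβ
        rw [glued_code, gcode_self, hH G.γ (by simp), Cond.stem_code_self, hM1 G.γ (by simp),
          hM2self]
        funext s
        simp only [Function.comp_apply, id_eq]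
        have h1 : M.code G.γ z s = cut N (M.code G.γ z s) ++ N :=
          (cut_spec ((hstem z).trans ((M.isCode G.γ z).suffix List.nil_suffix))).symm
        conv_lhs => rw [h1]
        rw [glueCode_append G.hn _ _ hN, (hMP z).2]
        rw [(G.T N i).dep G.γ _ _ (agree_lam (M.eval z))]
        rfl
      · rw [glued_code, gcode_gt _ hβ, (hMP z).1, (hMP z).2, hH β (by simpa using hβ.le),
          Cond.stem_code_of_ne hβ.ne', hM1 β (by simpa using hβ.le), hM2gt β z hβ]
        rfl

end GlueData

end Glue

end Pool.Agent.Miller
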