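import Pool.Agent.Lib_helper75.Miller.Laver
import Pool.Agent.Lib_helper75.BVM.CohenAlgebra
import Pool.Agent.Lib_helper75.BVM.Tools

/-!
The complete Boolean algebra of the conditions, and the forcing relation.
-/

set_option autoImplicit false
set_option linter.unusedSectionVars false

universe u v

namespace Pool.Agent.Miller

open TopologicalSpace Pool.Agent.BVM BSet

variable {W : Type u} [LinearOrder W]

/-- The topology of the sets of conditions that are closed under extensions. -/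
instance : TopologicalSpace (Cond W) where
  IsOpen s := ∀ H ∈ s, ∀ L, H * L ∈ s
  isOpen_univ := fun _ _ _ => trivial
  isOpen_inter := fun _ _ hs ht H hH L => ⟨hs H hH.1 L, ht H hH.2 L⟩
  isOpen_sUnion := fun _ h H ⟨t, ht, hp⟩ L => ⟨t, ht, h t ht H hp L⟩

theorem isOpen_cond_iff {s : Set (Cond W)} : IsOpen s ↔ ∀ H ∈ s, ∀ L, H * L ∈ s := Iff.rfl

/-- The complete Boolean algebra of the conditions. -/
abbrev Bal (W : Type u) [LinearOrder W] : Type u := RO (Cond W)

/-- The condition `H` is in the regular open set `b`. -/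
def Frc (H : Cond W) (b : Bal W) : Prop := H ∈ RO.op b

/-- The open set of the extensions of a condition. -/
def coneO (H : Cond W) : Opens (Cond W) := ⟨{K | ∃ L, K = H * L}, by
  rintro K ⟨L, rfl⟩ M
  exact ⟨L * M, mul_assoc _ _ _⟩⟩

/-- The regular open set generated by a condition. -/
def cone (H : Cond W) : Bal W := RO.reg (coneO H)

theorem mem_compl_iff {O : Opens (Cond W)} {H : Cond W} : H ∈ Oᶜ ↔ ∀ L, H * L ∉ O := by
  constructor
  · intro hH L hL
    have h1 : H * L ∈ (Oᶜ : Opens (Cond W)) := (Oᶜ : Opens (Cond W)).isOpen H hH L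
    have h2 : H * L ∈ (O ⊓ Oᶜ : Opens (Cond W)) := ⟨hL, h1⟩
    rw [inf_compl_self] at h2
    exact h2
  · intro h
    have h1 : coneO H ≤ Oᶜ := by
      rw [le_compl_iff_disjoint_right, disjoint_iff_inf_le]
      rintro K ⟨⟨L, rfl⟩, hK⟩
      exact absurd hK (h L)
    exact h1 ⟨1, (mul_one H).symm⟩

theorem frc_mul {H : Cond W} {b : Bal W} (h : Frc H b) (L : Cond W) : Frc (H * L) b :=
  (RO.op b).isOpen H h L

theorem frc_compl {H : Cond W} {b : Bal W} : Frc H bᶜ ↔ ∀ L, ¬ Frc (H * L) b := by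
  unfold Frc
  rw [RO.op_compl, mem_compl_iff]

theorem frc_of_dense {H : Cond W} {b : Bal W} (h : ∀ L, ∃ M, Frc (H * L * M) b) : Frc H b := by
  have h1 : H ∈ (RO.op b)ᶜᶜ := by
    rw [mem_compl_iff]
    intro L hL
    rw [mem_compl_iff] at hL
    obtain ⟨M, hM⟩ := h L
    exact hL M hM
  rwa [RO.op_compl_compl] at h1

theorem le_iff_frc {b c : Bal W} : b ≤ c ↔ ∀ H, Frc H b → Frc H c := Iff.rfl

theorem frc_top (H : Cond W) : Frc H (⊤ : Bal W) := by
  show H ∈ RO.op ⊤
  rw [RO.op_top]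
  trivial

theorem not_frc_bot (H : Cond W) : ¬ Frc H (⊥ : Bal W) := by
  intro h
  exact h

theorem frc_inf {H : Cond W} {b c : Bal W} : Frc H (b ⊓ c) ↔ Frc H b ∧ Frc H c := by
  unfold Frc
  rw [RO.op_inf]
  exact Iff.rfl

theorem frc_cone_self (H : Cond W) : Frc H (cone H) := by
  show H ∈ (coneO H)ᶜᶜ
  rw [mem_compl_iff]
  intro L hL
  rw [mem_compl_iff] at hL
  exact hL 1 ⟨L, by rw [mul_one]⟩

theorem frc_cone_iff {H K : Cond W} : Frc K (cone H) ↔ ∀ L, ∃ M N, K * L * M = H * N := by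
  show K ∈ (coneO H)ᶜᶜ ↔ _
  rw [mem_compl_iff]
  refine forall_congr' fun L => ?_
  rw [mem_compl_iff]
  push Not
  exact Iff.rfl

theorem cone_le_iff {H : Cond W} {b : Bal W} : cone H ≤ b ↔ Frc H b := by
  constructor
  · intro h
    exact h (frc_cone_self H)
  · intro h K hK
    have hK' : Frc K (cone H) := hK
    rw [frc_cone_iff] at hK'
    refine frc_of_dense fun L => ?_
    obtain ⟨M, N, hMN⟩ := hK' L
    exact ⟨M, by rw [hMN]; exact frc_mul h N⟩

theorem frc_iInf {ι : Sort*} {H : Cond W} {b : ι → Bal W} :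
    Frc H (⨅ i, b i) ↔ ∀ i, Frc H (b i) := by
  simp only [← cone_le_iff, le_iInf_iff]

theorem frc_iSup {ι : Sort*} {H : Cond W} {b : ι → Bal W} :
    Frc H (⨆ i, b i) ↔ ∀ L, ∃ M i, Frc (H * L * M) (b i) := by
  constructor
  · intro h L
    by_contra hcon
    push Not at hcon
    have h1 : Frc (H * L) (⨆ i, b i)ᶜ := by
      rw [compl_iSup, frc_iInf]
      intro i
      rw [frc_compl]
      exact fun M => hcon M i
    rw [frc_compl] at h1
    have h2 := h1 1
    rw [mul_one] at h2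
    exact h2 (frc_mul h L)
  · intro h
    refine frc_of_dense fun L => ?_
    obtain ⟨M, i, hi⟩ := h L
    exact ⟨M, le_iff_frc.mp (le_iSup b i) _ hi⟩

theorem frc_em (H : Cond W) (b : Bal W) : ∃ L, Frc (H * L) b ∨ Frc (H * L) bᶜ := by
  by_cases h : ∃ L, Frc (H * L) b
  · obtain ⟨L, hL⟩ := h
    exact ⟨L, Or.inl hL⟩
  · push Not at h
    refine ⟨1, Or.inr ?_⟩
    rw [mul_one, frc_compl]
    exact h

theorem cone_ne_bot (H : Cond W) : cone H ≠ ⊥ := by
  intro h
  have := frc_cone_self H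
  rw [h] at this
  exact not_frc_bot H this

theorem eq_top_of_dense {b : Bal W} (h : ∀ H, ∃ L, Frc (H * L) b) : b = ⊤ := by
  refine top_unique (le_iff_frc.mpr fun H _ => frc_of_dense fun L => h _)

/-! ### The forcing relation for properties of ultrafilters -/

/-- The condition `H` forces the property `P`. -/
def Forces (H : Cond W) (P : UF (Bal W) → Prop) : Prop := ∀ V : UF (Bal W), cone H ∈ V → P V

section

variable {P Q : UF (Bal W) → Prop} {H : Cond W}

theorem forces_iff {b : Bal W} (hb : ∀ V, P V ↔ b ∈ V) : Forces H P ↔ Frc H b := by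
  rw [← cone_le_iff]
  constructor
  · intro h
    exact UF.le_of_forall fun V hV => (hb V).mp (h V hV)
  · intro h V hV
    exact (hb V).mpr (V.mono hV h)

theorem Forces.mul (h : Forces H P) (L : Cond W) : Forces (H * L) P := fun V hV =>
  h V (V.mono hV (cone_le_iff.mpr (frc_mul (frc_cone_self H) L)))

theorem Forces.mono (h : Forces H P) (hPQ : ∀ V, P V → Q V) : Forces H Q :=
  fun V hV => hPQ V (h V hV)

theorem Forces.and (h : Forces H P) (h' : Forces H Q) : Forces H fun V => P V ∧ Q V :=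
  fun V hV => ⟨h V hV, h' V hV⟩

theorem forces_of_dense (hP : HasTV P) (h : ∀ L, ∃ M, Forces (H * L * M) P) : Forces H P := by
  obtain ⟨b, hb⟩ := hP
  rw [forces_iff hb]
  refine frc_of_dense fun L => ?_
  obtain ⟨M, hM⟩ := h L
  exact ⟨M, (forces_iff hb).mp hM⟩

theorem forces_em (hP : HasTV P) (H : Cond W) :
    ∃ L, Forces (H * L) P ∨ Forces (H * L) fun V => ¬ P V := by
  obtain ⟨b, hb⟩ := hP
  obtain ⟨L, hL⟩ := frc_em H b
  refine ⟨L, hL.imp (forces_iff hb).mpr ?_⟩
  refine (forces_iff (b := bᶜ) fun V => ?_).mpr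
  rw [V.compl_mem_iff, hb]

theorem not_forces_false (H : Cond W) : ¬ Forces H fun _ => False := by
  intro h
  obtain ⟨U, hU⟩ := UF.exists_mem (cone_ne_bot H)
  exact h U hU

theorem Forces.absurd (h : Forces H P) (h' : Forces H fun V => ¬ P V) : False :=
  not_forces_false H fun V hV => h' V hV (h V hV)

theorem exists_forces_of_not (hP : HasTV P) (h : ¬ Forces H P) :
    ∃ L, Forces (H * L) fun V => ¬ P V := by
  by_contra hcon
  push Not at hcon
  apply h
  refine forces_of_dense hP fun L => ?_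
  obtain ⟨M, hM | hM⟩ := forces_em hP (H * L)
  · exact ⟨M, hM⟩
  · rw [mul_assoc] at hM
    exact absurd hM (hcon _)

/-- A property that is forced by a dense set of conditions holds in all the models. -/
theorem forall_of_dense (hP : HasTV P) (h : ∀ H, ∃ L, Forces (H * L) P) (V : UF (Bal W)) :
    P V := by
  obtain ⟨b, hb⟩ := hP
  have h1 : b = ⊤ := eq_top_of_dense fun H => by
    obtain ⟨L, hL⟩ := h H
    exact ⟨L, (forces_iff hb).mp hL⟩
  rw [hb, h1]
  exact V.top_mem

theorem exists_forces_mem {a : BSet (Bal W)} {P : ∀ V : UF (Bal W), Mod V → Prop}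
    (hP : ∀ x : BSet (Bal W), HasTV fun V => P V (cls V x))
    (h : Forces H fun V => ∃ x, Emem V x (cls V a) ∧ P V x) :
    ∃ L, ∃ i : a.Idx, Forces (H * L) fun V => a.wt i ∈ V ∧ P V (cls V (a.elt i)) := by
  choose χ hχ using hP
  have hE : Ext χ := HasTV.ext_of hχ
  have h1 : ∀ V, (∃ x, Emem V x (cls V a) ∧ P V x) ↔ (⨆ y, bmem y a ⊓ χ y) ∈ V := by
    intro V
    rw [iSup_mem_iff ((ext_bmem_left a).inf hE)]
    constructor
    · rintro ⟨x, hx1, hx2⟩
      obtain ⟨x, rfl⟩ := cls_surj V x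
      exact ⟨x, V.inf_mem hx1 ((hχ x V).mp hx2)⟩
    · rintro ⟨x, hx⟩
      obtain ⟨hx1, hx2⟩ := V.inf_mem_iff.mp hx
      exact ⟨cls V x, hx1, (hχ x V).mpr hx2⟩
  rw [forces_iff h1, iSup_bmem hE, frc_iSup] at h
  obtain ⟨M, i, hi⟩ := h 1
  rw [mul_one] at hi
  refine ⟨M, i, (forces_iff (b := a.wt i ⊓ χ (a.elt i)) fun V => ?_).mpr hi⟩
  rw [V.inf_mem_iff]
  exact and_congr_right fun _ => hχ _ V

/-- The name of a natural number. -/
noncomputable abbrev nN (n : ℕ) : BSet (Bal W) := vN (Bal W) (ULift.up.{u} n)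

theorem exists_forces_nat {P : ∀ V : UF (Bal W), Mod V → Prop}
    (hP : ∀ x : BSet (Bal W), HasTV fun V => P V (cls V x))
    (h : Forces H fun V => ∃ x, Emem V x (cls V (omega (Bal W))) ∧ P V x) :
    ∃ L, ∃ n : ℕ, Forces (H * L) fun V => P V (cls V (nN n)) := by
  obtain ⟨L, i, hi⟩ := exists_forces_mem hP h
  exact ⟨L, (show ULift.{u} ℕ from i).down, hi.mono fun V h => h.2⟩

/-- A name for a witness. -/
theorem exists_forces_name {P : ∀ V : UF (Bal W), Mod V → Prop}
    (hP : ∀ x : BSet (Bal W), HasTV fun V => P V (cls V x))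
    (h : Forces H fun V => ∃ x, P V x) :
    ∃ x : BSet (Bal W), Forces H fun V => P V (cls V x) := by
  obtain ⟨x, hx⟩ := HasTV.exists_witness hP
  exact ⟨x, fun V hV => hx V (h V hV)⟩

end

/-! ### Truth values of measurable sets -/

section Bool

variable [WellFoundedLT W]

/-- The truth value of the statement that the generic point is in `A`. -/
def bool (A : Set (Pt W)) : Bal W := RO.reg ⟨{H | ∀ z, H.eval z ∈ A}, by
  intro H hH L z
  rw [Cond.mul_eval]
  exact hH _⟩

theorem frc_bool {A : Set (Pt W)} {H : Cond W} :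
    Frc H (bool A) ↔ ∀ L, ∃ M, ∀ z, (H * L * M).eval z ∈ A := by
  show H ∈ (_ : Opens (Cond W))ᶜᶜ ↔ _
  rw [mem_compl_iff]
  refine forall_congr' fun L => ?_
  rw [mem_compl_iff]
  push Not
  exact Iff.rfl

theorem frc_bool_of_forall {A : Set (Pt W)} {H : Cond W} (h : ∀ z, H.eval z ∈ A) :
    Frc H (bool A) := by
  rw [frc_bool]
  refine fun L => ⟨1, fun z => ?_⟩
  rw [mul_one, Cond.mul_eval]
  exact h _

theorem exists_of_frc_bool {A : Set (Pt W)} {H : Cond W} (h : Frc H (bool A)) :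
    ∃ L, ∀ z, (H * L).eval z ∈ A := by
  obtain ⟨M, hM⟩ := frc_bool.mp h 1
  rw [mul_one] at hM
  exact ⟨M, hM⟩

theorem bool_mono {A A' : Set (Pt W)} (h : A ⊆ A') : bool A ≤ bool A' := by
  rw [le_iff_frc]
  intro H hH
  rw [frc_bool] at hH ⊢
  intro L
  obtain ⟨M, hM⟩ := hH L
  exact ⟨M, fun z => h (hM z)⟩

theorem bool_univ : bool (Set.univ : Set (Pt W)) = ⊤ :=
  eq_top_of_dense fun _ => ⟨1, frc_bool_of_forall fun _ => Set.mem_univ _⟩

theorem bool_empty : bool (∅ : Set (Pt W)) = ⊥ := by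
  rw [← le_bot_iff, le_iff_frc]
  intro H hH
  obtain ⟨L, hL⟩ := exists_of_frc_bool hH
  exact absurd (hL fun _ _ => 0) (Set.notMem_empty _)

theorem bool_compl {A : Set (Pt W)} (hA : MeasurableSet A) : bool Aᶜ = (bool A)ᶜ := by
  apply le_antisymm
  · rw [le_iff_frc]
    intro H hH
    rw [frc_compl]
    intro L hL
    obtain ⟨M, hM⟩ := exists_of_frc_bool (frc_mul hH L)
    obtain ⟨N, hN⟩ := exists_of_frc_bool (frc_mul hL M)
    have h1 := hN fun _ _ => 0
    have h2 : (H * L * M * N).eval (fun _ _ => 0) ∈ Aᶜ := by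
      rw [Cond.mul_eval]
      exact hM _
    exact h2 h1
  · rw [le_iff_frc]
    intro H hH
    rw [frc_bool]
    intro L
    obtain ⟨M, hM | hM⟩ := decides_of_measurableSet hA (H * L)
    · rw [frc_compl] at hH
      have := hH (L * M)
      rw [← mul_assoc] at this
      exact absurd (frc_bool_of_forall hM) this
    · exact ⟨M, hM⟩

theorem bool_inter {A A' : Set (Pt W)} : bool (A ∩ A') = bool A ⊓ bool A' := by
  apply le_antisymm
  · exact le_inf (bool_mono Set.inter_subset_left) (bool_mono Set.inter_subset_right)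
  · rw [le_iff_frc]
    intro H hH
    rw [frc_inf] at hH
    rw [frc_bool]
    intro L
    obtain ⟨M, hM⟩ := exists_of_frc_bool (frc_mul hH.1 L)
    obtain ⟨N, hN⟩ := exists_of_frc_bool (frc_mul hH.2 (L * M))
    refine ⟨M * N, fun z => ⟨?_, ?_⟩⟩
    · rw [← mul_assoc, Cond.mul_eval]
      exact hM _
    · have := hN z
      rwa [← mul_assoc] at this ⊢

theorem bool_iUnion {A : ℕ → Set (Pt W)} (hA : ∀ n, MeasurableSet (A n)) :
    bool (⋃ n, A n) = ⨆ n, bool (A n) := by
  apply le_antisymm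
  · rw [le_iff_frc]
    intro H hH
    rw [frc_iSup]
    intro L
    obtain ⟨M, hM⟩ := exists_of_frc_bool (frc_mul hH L)
    rcases avoid (fun n => decides_of_measurableSet (hA n)) (H * L * M) with ⟨n, N, hN⟩ | ⟨N, hN⟩
    · exact ⟨M * N, n, frc_bool_of_forall (by rw [← mul_assoc]; exact hN)⟩
    · have h1 := hM (N.eval fun _ _ => 0)
      obtain ⟨n, hn⟩ := Set.mem_iUnion.mp h1
      rw [← Cond.mul_eval] at hn
      exact absurd hn (hN n _)
  · exact iSup_le fun n => bool_mono (Set.subset_iUnion A n)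

theorem bool_iInter {A : ℕ → Set (Pt W)} (hA : ∀ n, MeasurableSet (A n)) :
    bool (⋂ n, A n) = ⨅ n, bool (A n) := by
  have h1 : (⋂ n, A n) = (⋃ n, (A n)ᶜ)ᶜ := by simp
  rw [h1, bool_compl (MeasurableSet.iUnion fun n => (hA n).compl),
    bool_iUnion fun n => (hA n).compl, compl_iSup]
  congr 1
  funext n
  rw [bool_compl (hA n), compl_compl]

/-- A measurable set is in an ultrafilter. -/
theorem bool_compl_mem {A : Set (Pt W)} (hA : MeasurableSet A) {V : UF (Bal W)} :
    bool Aᶜ ∈ V ↔ bool A ∉ V := by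
  rw [bool_compl hA, V.compl_mem_iff]

theorem forces_bool {A : Set (Pt W)} {H : Cond W} :
    Forces H (fun V => bool A ∈ V) ↔ Frc H (bool A) := forces_iff fun _ => Iff.rfl

end Bool

/-! ### Simultaneous choice of measurable functions -/

section Choice

variable [WellFoundedLT W]

/-- Countably many names for elements of a measurable space can be read at once. -/
theorem countable_choice {Y : Type*} [MeasurableSpace Y] (Φ : ℕ → Cond W → (Pt W → Y) → Prop)
    (R : ℕ → Y → Prop)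
    (hmul : ∀ m K L f, Φ m K f → Φ m (K * L) f)
    (hloc : ∀ m K f f', (∀ z, f (K.eval z) = f' (K.eval z)) → Φ m K f → Φ m K f')
    (hreg : ∀ m K f, (∀ L, ∃ M, Φ m (K * L * M) f) → Φ m K f)
    (H : Cond W) (hdense : ∀ m L, ∃ M f, Measurable f ∧ (∀ x, R m (f x)) ∧ Φ m (H * L * M) f) :
    ∃ K, ∀ m, ∃ f, Measurable f ∧ (∀ x, R m (f x)) ∧ Φ m (H * K) f := by
  let D : ℕ → ℕ → Set (Cond W) := fun m _ =>
    {L | ∃ f, Measurable f ∧ (∀ x, R m (f x)) ∧ Φ m (H * L) f}
  have hd : ∀ m i, DenseIn Set.univ (D m i) := by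
    intro m i L _
    obtain ⟨M, f, hf, hR, h⟩ := hdense m L
    exact ⟨M, M.in_univ, f, hf, hR, by rwa [← mul_assoc]⟩
  have ho : ∀ m i, OpenIn Set.univ (D m i) := by
    rintro m i L ⟨f, hf, hR, h⟩ M -
    exact ⟨f, hf, hR, by rw [← mul_assoc]; exact hmul m _ _ _ h⟩
  obtain ⟨K, -, -, hK⟩ := readable_all isLowerSet_univ ∅ (by simp) 1 one_pos D hd ho
  refine ⟨K, fun m => ?_⟩
  obtain ⟨j, hj, -, hr⟩ := hK m
  choose G hG hGI l hl using hr
  choose f hf hR hΦ using hG
  let F : Pt W → Y := fun x => f (j (inv (H * K) x)) x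
  have hF : Measurable F := measurable_comp_countable (f := fun x i => f i x) (fun i => hf i)
    (hj.comp (measurable_inv _))
  refine ⟨F, hF, fun x => hR _ x, hreg m _ _ fun L => ?_⟩
  obtain ⟨M, i, hM⟩ := exists_const hj L
  obtain ⟨M', -, h1, h2⟩ := (hl i).lift (L * M) (Cond.in_univ _) hM
  have h3 : H * K * L * M = H * G i * M' := by
    rw [mul_assoc (H * K), mul_assoc H K, h1, mul_assoc]
  refine ⟨M, hloc m _ (f i) F (fun z => ?_) ?_⟩
  · show f i _ = f (j (inv (H * K) _)) _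
    have h4 : inv (H * K) ((H * K * L * M).eval z) = (L * M).eval z := by
      rw [mul_assoc (H * K), Cond.mul_eval, inv_eval]
    rw [h4, hM z]
  · rw [h3]
    exact hmul m _ _ _ (hΦ i)

end Choice

end Pool.Agent.Miller
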