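import Pool.Agent.Lib_helper75.Miller.Cond

/-!
Infinite compositions of conditions.
-/

set_option autoImplicit false
set_option linter.unusedSectionVars false

universe u v

namespace Pool.Agent.Miller

/-- The composition `c m ∘ c (m + 1) ∘ ... ∘ c (m + k - 1)`. -/
def iter (c : ℕ → Node → Node) (m : ℕ) : ℕ → Node → Node
  | 0 => id
  | k + 1 => iter c m k ∘ c (m + k)

theorem iter_succ' (c : ℕ → Node → Node) (m k : ℕ) : iter c m (k + 1) = c m ∘ iter c (m + 1) k := by
  induction k with
  | zero => rfl
  | succ k ih =>
    rw [iter, ih]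
    show (c m ∘ iter c (m + 1) k) ∘ c (m + (k + 1)) = c m ∘ (iter c (m + 1) k ∘ c (m + 1 + k))
    rw [show m + (k + 1) = m + 1 + k by omega]
    rfl

theorem isCode_iter {c : ℕ → Node → Node} (hc : ∀ i, IsCode (c i)) (m k : ℕ) :
    IsCode (iter c m k) := by
  induction k with
  | zero => exact isCode_id
  | succ k ih => exact ih.comp (hc _)

theorem iter_stable {c : ℕ → Node → Node} {s : Node} {N : ℕ} (h : ∀ i, N ≤ i → c i s = s)
    (m : ℕ) {k l : ℕ} (hk : N ≤ m + k) (hkl : k ≤ l) : iter c m l s = iter c m k s := by
  induction l, hkl using Nat.le_induction with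
  | base => rfl
  | succ l hl ih =>
    rw [iter, Function.comp_apply, h _ (by omega), ih]

theorem iter_fix {c : ℕ → Node → Node} {s : Node} {m : ℕ} (h : ∀ i, m ≤ i → c i s = s) (k : ℕ) :
    iter c m k s = s := by
  have := iter_stable (N := m) h m (k := 0) (l := k) (by omega) (by omega)
  rw [this]
  rfl

theorem iter_congr {c d : ℕ → Node → Node} (h : ∀ i, c i = d i) (m k : ℕ) :
    iter c m k = iter d m k := by
  have : c = d := funext h
  rw [this]

variable {W : Type u} [LinearOrder W] [WellFoundedLT W]

namespace Cond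

/-- Agreement with given codes below a coordinate. -/
noncomputable def ptBelow (z : Pt W) (β : W) (c : ∀ α, α < β → Node → Node) : Pt W := by
  classical
  exact fun α => if h : α < β then ev (c α h) (z α) else z α

/-- The codes of the infinite composition. -/
noncomputable def limCode (K : ℕ → Cond W) (N : W → Node → ℕ) (β : W) :
    ℕ → Pt W → Node → Node :=
  (wellFounded_lt (α := W)).fix (C := fun _ => ℕ → Pt W → Node → Node)
    (fun β ih m z s => iter (fun i => (K i).code β (ptBelow z β fun α h => ih α h (i + 1) z)) m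
      (N β s) s) β

theorem limCode_def (K : ℕ → Cond W) (N : W → Node → ℕ) (β : W) (m : ℕ) (z : Pt W) (s : Node) :
    limCode K N β m z s = iter (fun i => (K i).code β
      (ptBelow z β fun α _ => limCode K N α (i + 1) z)) m (N β s) s := by
  unfold limCode
  rw [WellFounded.fix_eq]

variable {K : ℕ → Cond W} {N : W → Node → ℕ}

/-- The codes of the composed conditions. -/
noncomputable def cds (K : ℕ → Cond W) (N : W → Node → ℕ) (β : W) (z : Pt W) (i : ℕ) :
    Node → Node := (K i).code β (ptBelow z β fun α _ => limCode K N α (i + 1) z)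

theorem limCode_eq (hN : ∀ β s k, N β s ≤ k → ∀ z, (K k).code β z s = s) (β : W) (m : ℕ)
    (z : Pt W) (s : Node) {k : ℕ} (hk : N β s ≤ m + k) :
    limCode K N β m z s = iter (cds K N β z) m k s := by
  rw [limCode_def]
  have h1 : ∀ i, N β s ≤ i → cds K N β z i s = s := fun i hi => hN β s i hi _
  show iter (cds K N β z) m (N β s) s = _
  rcases le_total k (N β s) with h | h
  · exact iter_stable h1 m hk h
  · exact (iter_stable h1 m (by omega) h).symm

theorem isCode_limCode (hN : ∀ β s k, N β s ≤ k → ∀ z, (K k).code β z s = s) (β : W) (m : ℕ)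
    (z : Pt W) : IsCode (limCode K N β m z) := by
  have hc : ∀ i, IsCode (cds K N β z i) := fun i => (K i).isCode β _
  constructor
  · intro s n
    rw [limCode_eq hN β m z s (k := N β s + N β (n :: s)) (by omega),
      limCode_eq hN β m z (n :: s) (k := N β s + N β (n :: s)) (by omega)]
    exact (isCode_iter hc m _).ext s n
  · intro s a b k h1 h2
    rw [limCode_eq hN β m z s (k := N β s + N β (a :: s) + N β (b :: s)) (by omega),
      limCode_eq hN β m z (a :: s) (k := N β s + N β (a :: s) + N β (b :: s)) (by omega)] at h1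
    rw [limCode_eq hN β m z s (k := N β s + N β (a :: s) + N β (b :: s)) (by omega),
      limCode_eq hN β m z (b :: s) (k := N β s + N β (a :: s) + N β (b :: s)) (by omega)] at h2
    exact (isCode_iter hc m _).inj s a b k h1 h2

theorem limCode_dep (K : ℕ → Cond W) (N : W → Node → ℕ) (β : W) :
    ∀ m z z', Agree β z z' → limCode K N β m z = limCode K N β m z' := by
  induction β using WellFoundedLT.induction with
  | ind β ih =>
    intro m z z' h
    funext s
    rw [limCode_def, limCode_def]
    refine congrFun (iter_congr (fun i => ?_) m _) s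
    refine (K i).dep β _ _ fun α hα => ?_
    unfold ptBelow
    simp only [dif_pos hα]
    rw [ih α hα (i + 1) z z' (h.mono hα.le), h α hα]

theorem measurable_limCode (K : ℕ → Cond W) (N : W → Node → ℕ) (β : W) :
    ∀ m s, Measurable fun z => limCode K N β m z s := by
  induction β using WellFoundedLT.induction with
  | ind β ih =>
    intro m s
    have h1 : ∀ i, Measurable fun z => ptBelow z β fun α _ => limCode K N α (i + 1) z := by
      intro i
      refine measurable_pi_lambda _ fun α => ?_
      unfold ptBelow
      by_cases hα : α < β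
      · simp only [dif_pos hα]
        exact measurable_ev (ih α hα (i + 1)) (measurable_pi_apply α)
      · simp only [dif_neg hα]
        exact measurable_pi_apply α
    have h2 : ∀ k s, Measurable fun z => iter (fun i => (K i).code β
        (ptBelow z β fun α _ => limCode K N α (i + 1) z)) m k s := by
      intro k
      induction k with
      | zero => intro s; exact measurable_const
      | succ k ihk =>
        intro s
        exact measurable_comp_countable ihk (((K (m + k)).meas β s).comp (h1 (m + k)))
    simp only [limCode_def]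
    exact h2 _ s

theorem limCode_of_id (K : ℕ → Cond W) (N : W → Node → ℕ) {β : W}
    (h : ∀ i z, (K i).code β z = id) (m : ℕ) (z : Pt W) : limCode K N β m z = id := by
  funext s
  rw [limCode_def]
  exact iter_fix (fun i _ => by rw [h]; rfl) _

/-- The infinite composition `K m * K (m + 1) * ...`. -/
noncomputable def lim (K : ℕ → Cond W) (N : W → Node → ℕ)
    (hN : ∀ β s k, N β s ≤ k → ∀ z, (K k).code β z s = s) (m : ℕ) : Cond W where
  code := fun β z => limCode K N β m z
  dep := fun β z z' h => limCode_dep K N β m z z' h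
  meas := fun β s => measurable_limCode K N β m s
  isCode := fun β z => isCode_limCode hN β m z
  supp := by
    refine (Set.countable_iUnion fun i => (K i).supp).mono ?_
    rintro β ⟨z, hz⟩
    by_contra hβ
    apply hz
    refine limCode_of_id K N (fun i z => ?_) m z
    by_contra h
    exact hβ (Set.mem_iUnion.mpr ⟨i, z, h⟩)

variable (hN : ∀ β s k, N β s ≤ k → ∀ z, (K k).code β z s = s)

theorem lim_code (m : ℕ) (β : W) (z : Pt W) : (lim K N hN m).code β z = limCode K N β m z := rfl

theorem lim_eq_mul (m : ℕ) : lim K N hN m = K m * lim K N hN (m + 1) := by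
  refine ext' fun β z => ?_
  rw [mul_code, lim_code, lim_code]
  funext s
  rw [limCode_eq hN β m z s (k := N β s + 1) (by omega), iter_succ',
    Function.comp_apply, Function.comp_apply,
    limCode_eq hN β (m + 1) z s (k := N β s) (by omega)]
  have h1 : cds K N β z m = (K m).code β ((lim K N hN (m + 1)).eval z) := by
    refine (K m).dep β _ _ fun α hα => ?_
    unfold ptBelow
    simp only [dif_pos hα]
    rfl
  rw [h1]

theorem in_lim {I : Set W} (h : ∀ i, (K i).In I) (m : ℕ) : (lim K N hN m).In I :=
  fun β hβ z => limCode_of_id K N (fun i z => h i β hβ z) m z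

theorem lim_fix {m : ℕ} {β : W} {s : Node} (h : ∀ k, m ≤ k → ∀ z, (K k).code β z s = s)
    (z : Pt W) : (lim K N hN m).code β z s = s := by
  rw [lim_code, limCode_def]
  exact iter_fix (fun i hi => h i hi _) _

end Cond

/-- The condition `K` fixes the first `n` nodes at the coordinates in `F`. -/
def Fix (F : Finset W) (n : ℕ) (K : Cond W) : Prop :=
  ∀ β ∈ F, ∀ s, Old n s → ∀ z, K.code β z s = s

theorem Fix.mono {F F' : Finset W} {n n' : ℕ} {K : Cond W} (h : Fix F' n' K) (hF : F ⊆ F')
    (hn : n ≤ n') : Fix F n K := fun β hβ s hs z => h β (hF hβ) s (hs.mono hn) z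

theorem Fix.mul {F : Finset W} {n : ℕ} {H K : Cond W} (hH : Fix F n H) (hK : Fix F n K) :
    Fix F n (H * K) := by
  intro β hβ s hs z
  rw [Cond.mul_code, Function.comp_apply, hK β hβ s hs, hH β hβ s hs]

theorem fix_one (F : Finset W) (n : ℕ) : Fix F n (1 : Cond W) := fun _ _ _ _ _ => rfl

/-- The fusion lemma. -/
theorem exists_fusion {I : Set W} (K : ℕ → Cond W) (hI : ∀ i, (K i).In I)
    (F : ℕ → Finset W) (n : ℕ → ℕ) (hF : Monotone F) (hn : Monotone n)
    (hn' : ∀ i, i ≤ n i) (hfix : ∀ i, Fix (F i) (n i) (K i))
    (hsupp : ∀ i β z, (K i).code β z ≠ id → ∃ j, β ∈ F j) :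
    ∃ L : ℕ → Cond W, (∀ m, L m = K m * L (m + 1)) ∧ (∀ m, (L m).In I) ∧
      ∀ m, Fix (F m) (n m) (L m) := by
  classical
  have key : ∀ β s, ∃ k0, ∀ k, k0 ≤ k → ∀ z, (K k).code β z s = s := by
    intro β s
    by_cases h : ∃ j, β ∈ F j
    · obtain ⟨j, hj⟩ := h
      refine ⟨max j (Encodable.encode s + 1), fun k hk z => ?_⟩
      refine hfix k β (hF (le_trans (le_max_left _ _) hk) hj) s ?_ z
      have h1 := le_trans (le_max_right _ _) hk
      have h2 := hn' k
      show Encodable.encode s < n k
      omega
    · refine ⟨0, fun k _ z => ?_⟩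
      have h1 : (K k).code β z = id := by
        by_contra h2
        exact h (hsupp k β z h2)
      rw [h1]
      rfl
  choose N hN using key
  refine ⟨Cond.lim K N hN, Cond.lim_eq_mul hN, Cond.in_lim hN hI, fun m β hβ s hs z => ?_⟩
  exact Cond.lim_fix hN (fun k hk z => hfix k β (hF hk hβ) s (hs.mono (hn hk)) z) z

end Pool.Agent.Miller
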