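import Pool.Agent.Lib_helper75.Miller.Code

/-!
The first nodes of an enumeration of the nodes, the minimal nodes outside of them, and codes that
are glued from codes for these minimal nodes.
-/

set_option autoImplicit false

namespace Pool.Agent.Miller

/-- `t` is one of the first `n` nodes. -/
def Old (n : ℕ) (t : Node) : Prop := Encodable.encode t < n

instance (n : ℕ) (t : Node) : Decidable (Old n t) := inferInstanceAs (Decidable (_ < _))

theorem encode_lt_cons (k : ℕ) (s : Node) : Encodable.encode s < Encodable.encode (k :: s) := by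
  rw [Encodable.encode_list_cons]
  exact Nat.lt_succ_of_le (Nat.right_le_pair _ _)

theorem Old.tail {n k : ℕ} {s : Node} (h : Old n (k :: s)) : Old n s :=
  lt_trans (encode_lt_cons k s) h

theorem Old.mono {n m : ℕ} {s : Node} (h : Old n s) (hnm : n ≤ m) : Old m s := lt_of_lt_of_le h hnm

theorem Old.suffix {n : ℕ} {s t : Node} (h : Old n t) (hs : s <:+ t) : Old n s := by
  induction t with
  | nil => rwa [List.suffix_nil.mp hs]
  | cons a t ih =>
    rcases List.suffix_cons_iff.mp hs with rfl | hs
    · exact h
    · exact ih h.tail hs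

theorem length_le_encode (s : Node) : s.length ≤ Encodable.encode s := by
  induction s with
  | nil => simp
  | cons a s ih =>
    have := encode_lt_cons a s
    simp only [List.length_cons]
    omega

theorem old_nil {n : ℕ} (hn : 0 < n) : Old n [] := hn

theorem finite_old (n : ℕ) : {s : Node | Old n s}.Finite :=
  Set.Finite.preimage Encodable.encode_injective.injOn (Set.finite_lt_nat n)

/-- `N` is a minimal node outside of the first `n` nodes. -/
def IsNew (n : ℕ) (N : Node) : Prop := ∃ k s, N = k :: s ∧ Old n s ∧ ¬ Old n (k :: s)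

theorem IsNew.not_old {n : ℕ} {N : Node} (h : IsNew n N) : ¬ Old n N := by
  obtain ⟨k, s, rfl, -, h⟩ := h
  exact h

/-- The decomposition of a node at its minimal part outside of the first `n` nodes. -/
def split (n : ℕ) : Node → Option (Node × Node)
  | [] => none
  | k :: s => match split n s with
    | some (t, N) => some (k :: t, N)
    | none => if Old n (k :: s) then none else some ([], k :: s)

theorem split_spec {n : ℕ} (hn : 0 < n) (t : Node) :
    (split n t = none ∧ Old n t) ∨
      (∃ u N, split n t = some (u, N) ∧ t = u ++ N ∧ IsNew n N ∧ ¬ Old n t) := by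
  induction t with
  | nil => exact Or.inl ⟨rfl, hn⟩
  | cons k s ih =>
    rcases ih with ⟨h1, h2⟩ | ⟨u, N, h1, h2, h3, h4⟩
    · by_cases h : Old n (k :: s)
      · left
        exact ⟨by simp [split, h1, h], h⟩
      · right
        exact ⟨[], k :: s, by simp [split, h1, h], rfl, ⟨k, s, rfl, h2, h⟩, h⟩
    · right
      exact ⟨k :: u, N, by simp [split, h1], by simp [h2], h3, fun h => h4 h.tail⟩

theorem split_of_old {n : ℕ} (hn : 0 < n) {t : Node} (h : Old n t) : split n t = none := by
  rcases split_spec hn t with h1 | ⟨u, N, h1, h2, h3, h4⟩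
  · exact h1.1
  · exact absurd h h4

theorem split_append {n : ℕ} (hn : 0 < n) {N : Node} (hN : IsNew n N) (u : Node) :
    split n (u ++ N) = some (u, N) := by
  induction u with
  | nil =>
    obtain ⟨k, s, rfl, h1, h2⟩ := hN
    simp [split, split_of_old hn h1, h2]
  | cons a u ih => simp [split, ih]

/-! ### The first new node of a sequence -/

theorem exists_not_old (n : ℕ) (y : ℕ → ℕ) : ∃ m, ¬ Old n (res y m) := by
  refine ⟨n, fun h => ?_⟩
  have h1 := length_le_encode (res y n)
  rw [length_res] at h1
  exact absurd h (not_lt.mpr h1)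

/-- The minimal node outside of the first `n` nodes that is extended by `y`. -/
noncomputable def firstNew (n : ℕ) (y : ℕ → ℕ) : Node :=
  res y (Nat.find (exists_not_old n y))

theorem isNew_firstNew {n : ℕ} (hn : 0 < n) (y : ℕ → ℕ) : IsNew n (firstNew n y) := by
  unfold firstNew
  have h1 := Nat.find_spec (exists_not_old n y)
  have h2 := fun m => Nat.find_min (exists_not_old n y) (m := m)
  generalize Nat.find (exists_not_old n y) = m at *
  cases m with
  | zero => exact absurd (old_nil hn) h1
  | succ m =>
    refine ⟨y m, res y m, rfl, ?_, h1⟩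
    by_contra h3
    exact h2 m (Nat.lt_succ_self m) h3

theorem firstNew_extends (n : ℕ) (y : ℕ → ℕ) :
    res y (firstNew n y).length = firstNew n y := by
  unfold firstNew
  rw [length_res]

theorem firstNew_eq_iff {n : ℕ} (hn : 0 < n) {N : Node} (hN : IsNew n N) {y : ℕ → ℕ} :
    firstNew n y = N ↔ res y N.length = N := by
  constructor
  · rintro rfl
    exact firstNew_extends n y
  · intro h
    obtain ⟨k, s, rfl, h1, h2⟩ := hN
    unfold firstNew
    have h3 : Nat.find (exists_not_old n y) = (k :: s).length := by
      rw [Nat.find_eq_iff]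
      refine ⟨by rw [h]; exact h2, fun m hm => ?_⟩
      rw [not_not]
      refine h1.suffix ?_
      have h4 : res y m <:+ k :: s := by
        rw [← h]
        exact res_suffix y hm.le
      rcases List.suffix_cons_iff.mp h4 with h5 | h5
      · rw [← h5] at hm
        simp at hm
      · exact h5
    rw [h3, h]

/-- The remainder of a sequence after its first new node. -/
noncomputable def rest (n : ℕ) (y : ℕ → ℕ) : ℕ → ℕ := fun i => y (i + (firstNew n y).length)

theorem app_rest (n : ℕ) (y : ℕ → ℕ) : app (firstNew n y) (rest n y) = y :=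
  app_shift (firstNew_extends n y)

theorem firstNew_app {n : ℕ} (hn : 0 < n) {N : Node} (hN : IsNew n N) (y : ℕ → ℕ) :
    firstNew n (app N y) = N := (firstNew_eq_iff hn hN).mpr (res_app_length N y)

theorem rest_app {n : ℕ} (hn : 0 < n) {N : Node} (hN : IsNew n N) (y : ℕ → ℕ) :
    rest n (app N y) = y := by
  funext i
  unfold rest
  rw [firstNew_app hn hN]
  simp [app]

/-! ### Gluing codes -/

/-- The code that is the identity on the first `n` nodes, and that on the nodes above the new node
`N` is given by the code `c N`, moved to the node `ρ N`. -/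
def glueCode (n : ℕ) (c : Node → Node → Node) (ρ : Node → Node) (t : Node) : Node :=
  match split n t with
  | none => t
  | some (u, N) => c N u ++ ρ N

theorem glueCode_old {n : ℕ} (hn : 0 < n) (c : Node → Node → Node) (ρ : Node → Node) {t : Node}
    (h : Old n t) : glueCode n c ρ t = t := by
  simp [glueCode, split_of_old hn h]

theorem glueCode_append {n : ℕ} (hn : 0 < n) (c : Node → Node → Node) (ρ : Node → Node) {N : Node}
    (hN : IsNew n N) (u : Node) : glueCode n c ρ (u ++ N) = c N u ++ ρ N := by
  simp [glueCode, split_append hn hN]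

/-- The map `ρ` changes only the last term of a new node, in an injective way. -/
structure Good (n : ℕ) (ρ : Node → Node) : Prop where
  head : ∀ k s, IsNew n (k :: s) → ∃ k', ρ (k :: s) = k' :: s ∧ IsNew n (k' :: s)
  inj : ∀ k m s, IsNew n (k :: s) → IsNew n (m :: s) → ρ (k :: s) = ρ (m :: s) → k = m

theorem good_id (n : ℕ) : Good n id where
  head k s h := ⟨k, rfl, h⟩
  inj k m s _ _ h := by simpa using h

theorem cons_suffix_iff {k a : ℕ} {s t : Node} (h : (k :: s) <:+ t) (hl : (a :: s) <:+ t) :
    k = a := by
  have := suffix_eq h hl (by simp)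
  simpa using this

theorem isCode_glueCode {n : ℕ} (hn : 0 < n) {c : Node → Node → Node} {ρ : Node → Node}
    (hc : ∀ N, IsNew n N → IsCode (c N)) (hρ : Good n ρ) : IsCode (glueCode n c ρ) where
  ext s k := by
    rcases split_spec hn s with ⟨h1, h2⟩ | ⟨u, N, h1, rfl, h3, h4⟩
    · rw [glueCode_old hn c ρ h2]
      by_cases h : Old n (k :: s)
      · rw [glueCode_old hn c ρ h]
        exact ⟨k, List.suffix_refl _⟩
      · have hN : IsNew n (k :: s) := ⟨k, s, rfl, h2, h⟩
        obtain ⟨k', hk', hk''⟩ := hρ.head k s hN
        refine ⟨k', ?_⟩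
        have h5 := glueCode_append hn c ρ hN []
        rw [List.nil_append] at h5
        rw [h5, hk']
        exact List.suffix_append _ _
    · obtain ⟨a, ha⟩ := (hc N h3).ext u k
      refine ⟨a, ?_⟩
      rw [glueCode_append hn c ρ h3, ← List.cons_append, ← List.cons_append,
        glueCode_append hn c ρ h3]
      obtain ⟨v, hv⟩ := ha
      rw [← hv]
      exact ⟨v, by simp⟩
  inj s k m a h1 h2 := by
    rcases split_spec hn s with ⟨-, h3⟩ | ⟨u, N, -, rfl, h3, h4⟩
    · rw [glueCode_old hn c ρ h3] at h1 h2
      have key : ∀ k, (a :: s) <:+ glueCode n c ρ (k :: s) →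
          (Old n (k :: s) ∧ a = k) ∨ (IsNew n (k :: s) ∧ ρ (k :: s) = a :: s) := by
        intro k hk
        by_cases h : Old n (k :: s)
        · rw [glueCode_old hn c ρ h] at hk
          exact Or.inl ⟨h, cons_suffix_iff hk (List.suffix_refl _)⟩
        · right
          have hN : IsNew n (k :: s) := ⟨k, s, rfl, h3, h⟩
          refine ⟨hN, ?_⟩
          obtain ⟨k', hk', -⟩ := hρ.head k s hN
          have h5 := glueCode_append hn c ρ hN []
          rw [List.nil_append] at h5
          rw [h5, hk'] at hk
          rw [hk', cons_suffix_iff hk (List.suffix_append _ _)]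
      rcases key k h1 with ⟨h5, h6⟩ | ⟨h5, h6⟩
      · rcases key m h2 with ⟨h7, h8⟩ | ⟨h7, h8⟩
        · rw [← h6, ← h8]
        · obtain ⟨k', hk', hk''⟩ := hρ.head m s h7
          rw [h8] at hk'
          rw [← hk', h6] at hk''
          exact absurd h5 hk''.not_old
      · rcases key m h2 with ⟨h7, h8⟩ | ⟨h7, h8⟩
        · obtain ⟨k', hk', hk''⟩ := hρ.head k s h5
          rw [h6] at hk'
          rw [← hk', h8] at hk''
          exact absurd h7 hk''.not_old
        · exact hρ.inj k m s h5 h7 (h6.trans h8.symm)
    · rw [glueCode_append hn c ρ h3, ← List.cons_append, ← List.cons_append,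
        glueCode_append hn c ρ h3] at h1 h2
      have key : ∀ {x y : Node}, x ++ ρ N <:+ y ++ ρ N → x <:+ y := by
        rintro x y ⟨v, hv⟩
        rw [← List.append_assoc] at hv
        exact ⟨v, List.append_cancel_right hv⟩
      exact (hc N h3).inj u k m a (key h1) (key h2)

theorem ev_glueCode {n : ℕ} (hn : 0 < n) {c : Node → Node → Node} {ρ : Node → Node}
    (hc : ∀ N, IsNew n N → IsCode (c N)) (hρ : Good n ρ) {N : Node} (hN : IsNew n N)
    (y : ℕ → ℕ) : ev (glueCode n c ρ) (app N y) = app (ρ N) (ev (c N) y) := by
  have hg := isCode_glueCode hn hc hρ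
  refine eq_of_res fun m => ⟨(c N (res y m)).length + (ρ N).length, ?_, ?_⟩
  · have := (hc N hN).length_le (res y m)
    rw [length_res] at this
    omega
  · rw [res_app, res_ev (hc N hN)]
    have h1 := res_ev hg (app N y) (m + N.length)
    rw [res_app, glueCode_append hn c ρ hN] at h1
    simpa using h1

end Pool.Agent.Miller
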