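import Pool.Agent.Lib_helper75.Miller.NwdCode

/-!
The statement (H) holds in the quotient models.
-/

set_option autoImplicit false
set_option linter.unusedSectionVars false

namespace Pool.Agent.Miller

open Pool.Agent.BVM BSet

/-! ### The small sets are nowhere dense -/

/-- The set of the points such that `f` is in the small sets from `l` on, and `k` is in the
nowhere dense set. -/
def Wt (g : Pt W0 → ℕ → ℕ) (N : ℕ) (F : Pt W0 → (ℕ → Finset ℕ) × (ℕ → ℕ)) (l : ℕ)
    (f k : Pt W0 → ℝ) : Set (Pt W0) :=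
  {z | ∀ m, l ≤ m → InU (g z) N (F z).1 (f z) ((F z).2 m) ((F z).2 (m + 1))} ∩
    ({z | |k z| ≤ N} ∩ {z | ∀ i, ¬ ((loQ (g z i) : ℝ) < k z ∧ k z < hiQ (g z i))})

/-- The name of the sum of the small set and the nowhere dense set. -/
noncomputable def CN (g : Pt W0 → ℕ → ℕ) (N : ℕ) (F : Pt W0 → (ℕ → Finset ℕ) × (ℕ → ℕ)) (l : ℕ) :
    BSet (Bal W0) :=
  mk (MFn W0 × MFn W0) (fun p => rN fun z => p.1.1 z + p.2.1 z)
    fun p => bool (Wt g N F l p.1.1 p.2.1)

theorem mem_CN {g : Pt W0 → ℕ → ℕ} {N : ℕ} {F : Pt W0 → (ℕ → Finset ℕ) × (ℕ → ℕ)} {l : ℕ}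
    {f k : Pt W0 → ℝ} (hf : Measurable f) (hk : Measurable k) {V : UF (Bal W0)}
    (h : bool (Wt g N F l f k) ∈ V) :
    Emem V (cls V (rN fun z => f z + k z)) (cls V (CN g N F l)) :=
  V.mono h (wt_le_bmem (CN g N F l)
    (show (CN g N F l).Idx from ((⟨f, hf⟩, ⟨k, hk⟩) : MFn W0 × MFn W0)))

theorem isNwd_CN {g : Pt W0 → ℕ → ℕ} (hg : Measurable g) (hhole : ∀ z, IsHole (g z)) (N : ℕ)
    {F : Pt W0 → (ℕ → Finset ℕ) × (ℕ → ℕ)} (hF : Measurable F)
    (hFS : ∀ z, SmallS (F z).1 ∧ StrictMono (F z).2) (l : ℕ) (V : UF (Bal W0)) :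
    IsNwd (Emem V) (cls V (RN W0)) (cls V (ltN W0)) (cls V (CN g N F l)) := by
  have hcm : ∀ q : ℚ, Measurable fun _ : Pt W0 => (q : ℝ) := fun q => measurable_const
  constructor
  · intro x hx
    refine forall_mem_of_idx (a := CN g N F l) (P := fun V x => Emem V x (cls V (RN W0)))
      (fun x => HasTV.mem x _) V.top_mem (fun (i : MFn W0 × MFn W0) V _ _ => ?_) x hx
    exact rN_mem (i.1.2.add i.2.2) V
  · intro a b ha hb hab
    refine forall_RN₂ (P := fun V a b => Rel (Emem V) (cls V (ltN W0)) a b →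
      ∃ c d, Emem V c (cls V (RN W0)) ∧ Emem V d (cls V (RN W0)) ∧
        Rel (Emem V) (cls V (ltN W0)) c d ∧ ∀ x, Emem V x (cls V (RN W0)) →
          Rel (Emem V) (cls V (ltN W0)) c x → Rel (Emem V) (cls V (ltN W0)) x d →
            Rel (Emem V) (cls V (ltN W0)) a x ∧ Rel (Emem V) (cls V (ltN W0)) x b ∧
              ¬ Emem V x (cls V (CN g N F l)))
      (fun a b => (hasTV_rel _ a b).imp (HasTV.ex fun c => HasTV.ex fun d =>
        (HasTV.mem c _).and ((HasTV.mem d _).and ((hasTV_rel _ c d).and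
          (HasTV.all fun x => (HasTV.mem x _).imp ((hasTV_rel _ c x).imp ((hasTV_rel _ x d).imp
            ((hasTV_rel _ a x).and ((hasTV_rel _ x b).and (HasTV.mem x _).not)))))))))
      (fun f hf k hk V hab => ?_) V a b ha hb hab
    rw [rel_ltN hf hk] at hab
    have hTV : HasTV fun V => ∃ c d, Emem V c (cls V (RN W0)) ∧ Emem V d (cls V (RN W0)) ∧
        Rel (Emem V) (cls V (ltN W0)) c d ∧ ∀ x, Emem V x (cls V (RN W0)) →
          Rel (Emem V) (cls V (ltN W0)) c x → Rel (Emem V) (cls V (ltN W0)) x d →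
            Rel (Emem V) (cls V (ltN W0)) (cls V (rN f)) x ∧
            Rel (Emem V) (cls V (ltN W0)) x (cls V (rN k)) ∧
              ¬ Emem V x (cls V (CN g N F l)) :=
      HasTV.ex fun c => HasTV.ex fun d =>
        (HasTV.mem c _).and ((HasTV.mem d _).and ((hasTV_rel _ c d).and
          (HasTV.all fun x => (HasTV.mem x _).imp ((hasTV_rel _ c x).imp ((hasTV_rel _ x d).imp
            ((hasTV_rel _ _ x).and ((hasTV_rel _ x _).and (HasTV.mem x _).not)))))))
    -- a rational interval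
    refine iUnion_elim hTV (A := fun i => {z | f z ≤ loQ i} ∩ {z | (hiQ i : ℝ) ≤ k z})
      (fun i => (measurableSet_le hf (hcm _)).inter (measurableSet_le (hcm _) hk)) V.top_mem
      (bool_mem_mono hab fun z hz => ?_) fun i V _ hi => ?_
    · obtain ⟨i, hi⟩ := iUnion_between (show f z < k z from hz)
      exact Set.mem_iUnion.mpr ⟨i, hi⟩
    -- the interval that is disjoint from the sum
    refine iUnion_elim hTV (A := fun p : ℕ => {_z | l ≤ p.unpair.1} ∩
        ({_z | loQ i ≤ loQ p.unpair.2 ∧ hiQ p.unpair.2 ≤ hiQ i} ∩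
          {z | SepAll (g z) N (F z).1 ((F z).2 p.unpair.1) ((F z).2 (p.unpair.1 + 1))
            p.unpair.2})) (fun p => ?_) hi (bool_mem_of_forall V fun z => ?_) fun p V hi hp => ?_
    · refine (MeasurableSet.const _).inter ((MeasurableSet.const _).inter ?_)
      exact measurableSet_sepAll hg (measurable_fst.comp hF)
        ((measurable_pi_apply _).comp (measurable_snd.comp hF))
        ((measurable_pi_apply _).comp (measurable_snd.comp hF)) N _
    · obtain ⟨m, hm, j, hj1, hj2, hj3⟩ := exists_sepAll (hhole z) N (hFS z).1 (hFS z).2 l i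
      refine Set.mem_iUnion.mpr ⟨Nat.pair m j, ?_⟩
      simp only [Nat.unpair_pair]
      exact ⟨hm, ⟨hj1, hj2⟩, hj3⟩
    · obtain ⟨hp1, hp2⟩ := bool_inter_mem.mp hp
      obtain ⟨hp2, hp3⟩ := bool_inter_mem.mp hp2
      generalize p.unpair.1 = m at hp1 hp3
      generalize p.unpair.2 = j at hp2 hp3
      have hm : l ≤ m := by
        by_contra hcon
        exact bool_mem_false hp1 fun z hz => hcon hz
      have hj : loQ i ≤ loQ j ∧ hiQ j ≤ hiQ i := by
        by_contra hcon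
        exact bool_mem_false hp2 fun z hz => hcon hz
      refine ⟨_, _, rN_mem (hcm (loQ j)) V, rN_mem (hcm (hiQ j)) V, ?_, fun x hx hcx hxd => ?_⟩
      · rw [rel_ltN (hcm _) (hcm _)]
        exact bool_mem_of_forall V fun z => by exact_mod_cast loQ_lt_hiQ j
      have hc := V.inf_mem hi hp3
      refine forall_mem_RN (P := fun V x =>
        Rel (Emem V) (cls V (ltN W0)) (cls V (cN W0 (loQ j))) x →
        Rel (Emem V) (cls V (ltN W0)) x (cls V (cN W0 (hiQ j))) →
          Rel (Emem V) (cls V (ltN W0)) (cls V (rN f)) x ∧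
          Rel (Emem V) (cls V (ltN W0)) x (cls V (rN k)) ∧ ¬ Emem V x (cls V (CN g N F l)))
        (fun x => (hasTV_rel _ _ x).imp ((hasTV_rel _ x _).imp ((hasTV_rel _ _ x).and
          ((hasTV_rel _ x _).and (HasTV.mem x _).not)))) hc (fun h hh V hc hcx hxd => ?_) x hx
        hcx hxd
      obtain ⟨hi, hp3⟩ := V.inf_mem_iff.mp hc
      rw [rel_ltN (hcm _) hh] at hcx
      rw [rel_ltN hh (hcm _)] at hxd
      refine ⟨?_, ?_, fun hxC => ?_⟩
      · rw [rel_ltN hf hh]
        refine bool_mem_mono (bool_inter_mem.mpr ⟨hi, hcx⟩) fun z hz => ?_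
        have h1 : f z ≤ loQ i := hz.1.1
        have h2 : (loQ j : ℝ) < h z := hz.2
        have h3 : (loQ i : ℝ) ≤ loQ j := by exact_mod_cast hj.1
        exact (h1.trans h3).trans_lt h2
      · rw [rel_ltN hh hk]
        refine bool_mem_mono (bool_inter_mem.mpr ⟨hi, hxd⟩) fun z hz => ?_
        have h1 : (hiQ i : ℝ) ≤ k z := hz.1.2
        have h2 : h z < (hiQ j : ℝ) := hz.2
        have h3 : (hiQ j : ℝ) ≤ hiQ i := by exact_mod_cast hj.2
        exact h2.trans_le (h3.trans h1)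
      · refine forall_mem_of_idx (a := CN g N F l) (P := fun V x =>
          ¬ (Rel (Emem V) (cls V (ltN W0)) (cls V (cN W0 (loQ j))) x ∧
            Rel (Emem V) (cls V (ltN W0)) x (cls V (cN W0 (hiQ j)))))
          (fun x => ((hasTV_rel _ _ x).and (hasTV_rel _ x _)).not) hp3
          (fun (p : MFn W0 × MFn W0) V hp3 hw hx => ?_) _ hxC
          ⟨(rel_ltN (hcm _) hh V).mpr hcx, (rel_ltN hh (hcm _) V).mpr hxd⟩
        obtain ⟨⟨u, hu⟩, ⟨v, hv⟩⟩ := p
        obtain ⟨hx1, hx2⟩ := hx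
        have hw' : bool (Wt g N F l u v) ∈ V := hw
        have huv : Measurable fun z => u z + v z := hu.add hv
        have hx1' := (rel_ltN (hcm _) huv V).mp hx1
        have hx2' := (rel_ltN huv (hcm _) V).mp hx2
        refine bool_mem_false (bool_inter_mem.mpr ⟨bool_inter_mem.mpr ⟨hp3, hw'⟩,
          bool_inter_mem.mpr ⟨hx1', hx2'⟩⟩) fun z hz => ?_
        obtain ⟨⟨hz1, hz2⟩, hz3, hz4⟩ := hz
        exact SepAll.avoid hz1 (hz2.1 m hm) hz2.2.1 hz2.2.2 ⟨hz3, hz4⟩

/-! ### The reading of a meager set -/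

theorem iSup_elim {P : UF (Bal W0) → Prop} (hP : HasTV P) {b : ℕ → Bal W0} {c : Bal W0}
    {V : UF (Bal W0)} (hc : c ∈ V) (hV : (⨆ n, b n) ∈ V)
    (h : ∀ n (V : UF (Bal W0)), c ∈ V → b n ∈ V → P V) : P V := by
  obtain ⟨d, hd⟩ := hP
  rw [hd]
  refine V.mono (V.inf_mem hc hV) ?_
  rw [inf_iSup_eq]
  refine iSup_le fun n => UF.le_of_forall fun V hV => ?_
  rw [← hd]
  exact h n V (V.inf_mem_iff.mp hV).1 (V.inf_mem_iff.mp hV).2

theorem exists_nwds {m : BSet (Bal W0)} {H : Cond W0}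
    (h : Forces H fun V => IsMeager (Emem V) (cls V (RN W0)) (cls V (ltN W0)) (cls V m)) :
    ∃ N : ℕ → BSet (Bal W0),
      (∀ n, Forces H fun V => IsNwd (Emem V) (cls V (RN W0)) (cls V (ltN W0)) (cls V (N n))) ∧
      ∀ x, Forces H fun V => Emem V (cls V x) (cls V m) → (⨆ n, bmem x (N n)) ∈ V := by
  have h1 : Forces H fun V => ∃ f,
      (∀ n, Emem V n (cls V (omega (Bal W0))) → ∃ N,
        IsNwd (Emem V) (cls V (RN W0)) (cls V (ltN W0)) N ∧
          ∀ N', Rel (Emem V) f n N' ↔ N' = N) ∧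
      ∀ x, Emem V x (cls V m) → ∃ n, Emem V n (cls V (omega (Bal W0))) ∧
        ∃ N, Rel (Emem V) f n N ∧ Emem V x N := by
    intro V hV
    obtain ⟨w, f, hw, h1, h2⟩ := h V hV
    rw [isOmega_iff] at hw
    subst hw
    refine ⟨f, h1, fun x hx => ?_⟩
    obtain ⟨n, N, hn, hN⟩ := h2 x hx
    exact ⟨n, hn, N, hN⟩
  obtain ⟨f, hf⟩ := exists_forces_name (fun f => HasTV.and
    (HasTV.all fun n => (HasTV.mem n _).imp (HasTV.ex fun N => (hasTV_isNwd _ _ N).and
      (HasTV.all fun N' => (hasTV_rel f n N').iff (HasTV.eq N' N))))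
    (HasTV.all fun x => (HasTV.mem x m).imp (HasTV.ex fun n => (HasTV.mem n _).and
      (HasTV.ex fun N => (hasTV_rel f n N).and (HasTV.mem x N))))) h1
  have h2 : ∀ n : ℕ, ∃ N : BSet (Bal W0), Forces H fun V =>
      IsNwd (Emem V) (cls V (RN W0)) (cls V (ltN W0)) (cls V N) ∧
        ∀ N', Rel (Emem V) (cls V f) (cls V (nN n)) N' ↔ N' = cls V N := by
    intro n
    exact exists_forces_name (P := fun V N =>
      IsNwd (Emem V) (cls V (RN W0)) (cls V (ltN W0)) N ∧
        ∀ N', Rel (Emem V) (cls V f) (cls V (nN n)) N' ↔ N' = N)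
      (fun N => (hasTV_isNwd _ _ N).and (HasTV.all fun N' => (hasTV_rel f _ N').iff
        (HasTV.eq N' N))) (fun V hV => (hf V hV).1 _ (nN_mem n V))
  choose N hN using h2
  refine ⟨N, fun n => (hN n).mono fun V h => h.1, fun x V hV hx => ?_⟩
  obtain ⟨n, hn, N', hN', hx'⟩ := (hf V hV).2 _ hx
  refine omega_elim (P := fun V n => ∃ N, Rel (Emem V) (cls V f) n N ∧ Emem V (cls V x) N)
    (Q := fun V _ => (⨆ n, bmem x (N n)) ∈ V)
    (fun n => HasTV.ex fun N => (hasTV_rel f n N).and (HasTV.mem x N))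
    (fun _ => ⟨_, fun _ => Iff.rfl⟩) hV (fun n V hV h => ?_) n hn ⟨N', hN', hx'⟩
  obtain ⟨N', hN', hx'⟩ := h
  rw [((hN n) V hV).2 N'] at hN'
  subst hN'
  exact V.mono hx' (le_iSup (fun n => bmem x (N n)) n)

/-! ### The statement (H) -/

theorem statementH (V : UF (Bal W0)) : StatementH (Emem V) (cls V (RN W0)) (cls V (addN W0))
    (cls V (ltN W0)) (cls V (cN W0 0)) := by
  intro X hXR hSMZ m s hmR hm hs
  obtain ⟨X, rfl⟩ := cls_surj V X
  obtain ⟨m, rfl⟩ := cls_surj V m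
  obtain ⟨s, rfl⟩ := cls_surj V s
  refine imp_of_dense (P := fun V => IsSub (Emem V) (cls V X) (cls V (RN W0)) ∧
      IsSMZ (Emem V) (cls V (RN W0)) (cls V (addN W0)) (cls V (ltN W0)) (cls V (cN W0 0))
        (cls V X) ∧ IsSub (Emem V) (cls V m) (cls V (RN W0)) ∧
      IsMeager (Emem V) (cls V (RN W0)) (cls V (ltN W0)) (cls V m) ∧
      IsSumSet (Emem V) (cls V (addN W0)) (cls V s) (cls V X) (cls V m))
    (Q := fun V => IsMeager (Emem V) (cls V (RN W0)) (cls V (ltN W0)) (cls V s))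
    ((hasTV_isSub _ _).and ((hasTV_isSMZ _ _ _ _ _).and ((hasTV_isSub _ _).and
      ((hasTV_isMeager _ _ _).and (hasTV_isSumSet _ _ _ _))))) (hasTV_isMeager _ _ _)
    (fun H hH => ?_) V ⟨hXR, hSMZ, hmR, hm, hs⟩
  clear hXR hSMZ hmR hm hs V
  obtain ⟨N, hN1, hN2⟩ := exists_nwds (hH.mono fun V h => h.2.2.2.1)
  obtain ⟨K1, g, hg, hhole, hgN⟩ := exists_holes hN1
  have hX : SMZName X (H * K1) := (smzName_of_forces (hH.mono fun V h => h.2.1)).mul K1
  have hset : ∀ (g : Pt W0 → ℕ → ℕ) (n : ℕ) (F F' : Pt W0 → (ℕ → Finset ℕ) × (ℕ → ℕ))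
      (f : Pt W0 → ℝ) (z : Pt W0), F z = F' z → z ∈ (Away g n F f)ᶜ → z ∈ (Away g n F' f)ᶜ := by
    intro g n F F' f z h hz hz'
    apply hz
    simp only [Away, Set.mem_ofPred_eq] at hz' ⊢
    rw [h]
    exact hz'
  obtain ⟨K2, hK2⟩ := countable_choice (Y := (ℕ → Finset ℕ) × (ℕ → ℕ)) (fun p K F =>
      ∀ f, Measurable f → Forces K fun V => Emem V (cls V (rN f)) (cls V X) →
        bool {z | |f z| ≤ p.unpair.2} ∈ V → bool (Away (g p.unpair.1) p.unpair.2 F f)ᶜ ∈ V)
    (fun _ y => SmallS y.1 ∧ StrictMono y.2)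
    (fun p K L F h f hf => (h f hf).mul L)
    (fun p K F F' hFF h f hf V hV hfX hfN => bool_mem_mono
      (bool_inter_mem.mpr ⟨forces_bool_of_forall (A := {z | F z = F' z}) (H := K) hFF V hV,
        h f hf V hV hfX hfN⟩) fun z hz => hset _ _ F F' f z hz.1 hz.2)
    (fun p K F h f hf => forces_of_dense ((HasTV.mem _ _).imp ((hasTV_bool _).imp
      (hasTV_bool _))) fun L => ⟨(h L).choose, (h L).choose_spec f hf⟩) (H * K1)
    (fun p L => by
      obtain ⟨M, F, hF, hFS, hM⟩ := core (hX.mul L) (hg p.unpair.1) p.unpair.2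
      exact ⟨M, F, hF, hFS, hM⟩)
  choose F hF hFS hFΦ using hK2
  let C : ℕ → BSet (Bal W0) := fun q =>
    CN (g q.unpair.1.unpair.1) q.unpair.1.unpair.2 (F q.unpair.1) q.unpair.2
  have hC : ∀ q (V : UF (Bal W0)), IsNwd (Emem V) (cls V (RN W0)) (cls V (ltN W0))
      (cls V (C q)) := fun q V => isNwd_CN (hg _) (hhole _) _ (hF _) (hFS _) _ V
  refine ⟨K1 * K2, fun V hV => ⟨cls V (omega (Bal W0)), cls V (seqN C), isOmega_omega V, ?_, ?_⟩⟩
  · intro n hn
    refine forall_mem_omega (P := fun V n => ∃ N,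
      IsNwd (Emem V) (cls V (RN W0)) (cls V (ltN W0)) N ∧
        ∀ N', Rel (Emem V) (cls V (seqN C)) n N' ↔ N' = N)
      (fun n => HasTV.ex fun N => (hasTV_isNwd _ _ N).and (HasTV.all fun N' =>
        (hasTV_rel _ n N').iff (HasTV.eq N' N))) V.top_mem (fun n V _ => ?_) n hn
    exact ⟨cls V (C n), hC n V, fun N' => rel_seqN C n N'⟩
  · intro x hx
    have hVT : cone (H * K1 * K2) ∈ V := by rwa [mul_assoc]
    have hVK : ∀ V : UF (Bal W0), cone (H * K1 * K2) ∈ V → cone (H * K1) ∈ V := fun V hV =>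
      V.mono hV (cone_le_iff.mpr (frc_mul (frc_cone_self _) _))
    have hVH : ∀ V : UF (Bal W0), cone (H * K1 * K2) ∈ V → cone H ∈ V := fun V hV =>
      V.mono (hVK V hV) (cone_le_iff.mpr (frc_mul (frc_cone_self _) _))
    obtain ⟨hXR, -, hmR, -, hs⟩ := hH V (hVH V hVT)
    obtain ⟨u, v, hu, hv, huv⟩ := (hs x).mp hx
    refine forall_RN₂ (P := fun V u v => cone (H * K1 * K2) ∈ V → Emem V u (cls V X) →
      Emem V v (cls V m) → ∀ x, Op (Emem V) (cls V (addN W0)) u v x →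
        ∃ n N, Emem V n (cls V (omega (Bal W0))) ∧ Rel (Emem V) (cls V (seqN C)) n N ∧
          Emem V x N)
      (fun u v => HasTV.imp ⟨_, fun _ => Iff.rfl⟩ ((HasTV.mem u _).imp ((HasTV.mem v _).imp
        (HasTV.all fun x => (hasTV_op u v x _).imp (HasTV.ex fun n => HasTV.ex fun N =>
          (HasTV.mem n _).and ((hasTV_rel _ n N).and (HasTV.mem x N)))))))
      (fun f hf k hk V hVT hfX hkm x hx => ?_) V u v (hXR u hu) (hmR v hv) hVT hu hv x huv
    rw [op_addN hf hk] at hx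
    subst hx
    have hgoal : ∀ q (V : UF (Bal W0)),
        Emem V (cls V (rN fun z => f z + k z)) (cls V (C q)) →
        ∃ n N, Emem V n (cls V (omega (Bal W0))) ∧ Rel (Emem V) (cls V (seqN C)) n N ∧
          Emem V (cls V (rN fun z => f z + k z)) N := fun q V h =>
      ⟨cls V (nN q), cls V (C q), nN_mem q V, (rel_seqN C q _).mpr rfl, h⟩
    have hTV : HasTV fun V : UF (Bal W0) => ∃ n N, Emem V n (cls V (omega (Bal W0))) ∧
        Rel (Emem V) (cls V (seqN C)) n N ∧ Emem V (cls V (rN fun z => f z + k z)) N :=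
      HasTV.ex fun n => HasTV.ex fun N => (HasTV.mem n _).and ((hasTV_rel _ n N).and
        (HasTV.mem _ N))
    refine iSup_elim hTV (c := cone (H * K1 * K2) ⊓ bmem (rN f) X) (V.inf_mem hVT hfX)
      (hN2 (rN k) V (hVH V hVT) hkm) fun n V hc hkN => ?_
    refine iUnion_elim hTV (A := fun b : ℕ => {z | |f z| ≤ b} ∩ {z | |k z| ≤ b})
      (fun b => (measurableSet_le hf.abs measurable_const).inter
        (measurableSet_le hk.abs measurable_const))
      (V.inf_mem hc hkN) (bool_mem_of_forall V fun z => ?_) fun b V hc hb => ?_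
    · obtain ⟨b, hb⟩ := exists_nat_ge (max |f z| |k z|)
      exact Set.mem_iUnion.mpr ⟨b, (le_max_left _ _).trans hb, (le_max_right _ _).trans hb⟩
    · obtain ⟨hc, hkN⟩ := V.inf_mem_iff.mp hc
      obtain ⟨hVT, hfX⟩ := V.inf_mem_iff.mp hc
      obtain ⟨hb1, hb2⟩ := bool_inter_mem.mp hb
      have h1 := hFΦ (Nat.pair n b) f hf V hVT hfX
      have h2 := hgN n k hk V (hVK V hVT) hkN
      rw [Nat.unpair_pair] at h1
      have h3 := h1 hb1
      refine iUnion_elim hTV (A := fun l : ℕ => {z | ∀ i, l ≤ i → InU (g n z) b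
          (F (Nat.pair n b) z).1 (f z) ((F (Nat.pair n b) z).2 i)
            ((F (Nat.pair n b) z).2 (i + 1))})
        (fun l => ?_) (V.inf_mem (V.inf_mem hb2 h2) V.top_mem) (bool_mem_mono h3 fun z hz => ?_)
        fun l V hc hl => hgoal (Nat.pair (Nat.pair n b) l) V ?_
      · have h4 : {z | ∀ i, l ≤ i → InU (g n z) b (F (Nat.pair n b) z).1 (f z)
            ((F (Nat.pair n b) z).2 i) ((F (Nat.pair n b) z).2 (i + 1))} =
            ⋂ i : ℕ, ({_z | l ≤ i}ᶜ ∪ {z | InU (g n z) b (F (Nat.pair n b) z).1 (f z)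
            ((F (Nat.pair n b) z).2 i) ((F (Nat.pair n b) z).2 (i + 1))}) := by
          ext z
          simp only [Set.mem_ofPred_eq, Set.mem_iInter, Set.mem_union, Set.mem_compl_iff,
            imp_iff_not_or]
        rw [h4]
        refine MeasurableSet.iInter fun i => (MeasurableSet.const _).compl.union ?_
        exact measurableSet_inU (hg n) (measurable_fst.comp (hF _)) hf
          ((measurable_pi_apply i).comp (measurable_snd.comp (hF _)))
          ((measurable_pi_apply (i + 1)).comp (measurable_snd.comp (hF _))) b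
      · simp only [Away, Set.mem_compl_iff, Set.mem_ofPred_eq, not_forall, not_exists, not_and,
          not_not] at hz
        exact Set.mem_iUnion.mpr hz
      · obtain ⟨hc, -⟩ := V.inf_mem_iff.mp hc
        obtain ⟨hb2, h2⟩ := V.inf_mem_iff.mp hc
        simp only [C, Nat.unpair_pair]
        exact mem_CN hf hk (bool_inter_mem.mpr ⟨hl, bool_inter_mem.mpr ⟨hb2, h2⟩⟩)

end Pool.Agent.Miller
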