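import Pool.Agent.Lib_helper75.Miller.Bound

/-!
Names for natural numbers with a bound from an initial segment of the coordinates are captured by
small finite sets from the initial segment.
-/

set_option autoImplicit false
set_option linter.unusedSectionVars false

universe u v

namespace Pool.Agent.Miller

variable {W : Type u} [LinearOrder W] [WellFoundedLT W]

open Classical in
/-- The coordinates outside of `J`. -/
noncomputable def outside (F : Finset W) (J : Set W) : Finset W := F.filter fun β => β ∉ J

theorem mem_outside {F : Finset W} {J : Set W} {β : W} : β ∈ outside F J ↔ β ∈ F ∧ β ∉ J := by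
  classical
  unfold outside
  exact Finset.mem_filter

/-- The inductive statement for the capturing of names. -/
def Capture (d : W) (F : Finset W) (n : ℕ) (v : Pt W → ℕ) (J : Set W) : Prop :=
  ∃ K : Cond W, Fix F n K ∧ ∃ A : Pt W → Finset ℕ, Measurable A ∧
    (∀ z z' : Pt W, (∀ α ∈ J, z α = z' α) → A z = A z') ∧
    (∀ z, (A z).card ≤ n ^ (outside F J).card) ∧
    (∀ z, v (K.eval z) ∈ A z) ∧
    ∃ b : Pt W → ℕ, (∀ z z', Agree d z z' → b z = b z') ∧ ∀ z, A z ⊆ Finset.range (b z)

theorem capture_univ {d : W} (F : Finset W) (n : ℕ) {v b : Pt W → ℕ} (hv : Measurable v)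
    (hb : ∀ z z', Agree d z z' → b z = b z') (hvb : ∀ z, v z < b z) :
    Capture d F n v Set.univ := by
  refine ⟨1, fix_one F n, fun z => {v z}, ?_, ?_, ?_, ?_, b, hb, ?_⟩
  · exact (Measurable.of_discrete (f := fun k : ℕ => ({k} : Finset ℕ))).comp hv
  · intro z z' h
    rw [show z = z' from funext fun α => h α (Set.mem_univ α)]
  · intro z
    have h1 : outside F Set.univ = ∅ := by
      ext β
      simp [mem_outside]
    simp [h1]
  · intro z
    simp
  · intro z
    simpa using hvb z

theorem measurable_biUnion {Y : Type*} [MeasurableSpace Y] {ι : Type*} [DecidableEq ι]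
    (S : Finset ι) {f : Y → ι → Finset ℕ} (hf : ∀ i, Measurable fun a => f a i) :
    Measurable fun a => S.biUnion (f a) := by
  induction S using Finset.induction_on with
  | empty => simpa using measurable_const
  | insert i S hi ih =>
    simp only [Finset.biUnion_insert]
    refine measurable_comp_countable (f := fun a (B : Finset ℕ) => f a i ∪ B) (fun B => ?_) ih
    exact (Measurable.of_discrete (f := fun A : Finset ℕ => A ∪ B)).comp (hf i)

/-- Extending `Fix` for a condition that is concentrated on `J`. -/
theorem fix_of_in {F : Finset W} {n : ℕ} {J : Set W} {K : Cond W} (hK : K.In J)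
    (h : ∀ β ∈ F, β ∈ J → ∀ s, Old n s → ∀ z, K.code β z s = s) : Fix F n K := by
  intro β hβ s hs z
  by_cases hJ : β ∈ J
  · exact h β hβ hJ s hs z
  · rw [hK β hJ]
    rfl

/-- The sets of the conditions on which `A` is constant. -/
def constSet {C : Type*} (A : Pt W → C) : Set (Cond W) := {H | ∃ a, ∀ z, A (H.eval z) = a}

theorem denseIn_constSet {C : Type*} [Countable C] [MeasurableSpace C] [MeasurableSingletonClass C]
    {A : Pt W → C} (hA : Measurable A) {J : Set W} (hJ : IsLowerSet J)
    (hAJ : ∀ z z' : Pt W, (∀ α ∈ J, z α = z' α) → A z = A z') : DenseIn J (constSet A) := by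
  intro H _
  obtain ⟨L, hL, a, ha⟩ := exists_const_in hJ hA hAJ H
  exact ⟨L, hL, a, ha⟩

theorem openIn_constSet {C : Type*} (A : Pt W → C) (J : Set W) : OpenIn J (constSet A) := by
  rintro H ⟨a, ha⟩ L _
  exact ⟨a, fun z => by rw [Cond.mul_eval]; exact ha _⟩

theorem capture_final {d : W} {F : Finset W} {n : ℕ} (hn : 0 < n) {v : Pt W → ℕ} {J : Set W}
    (hJ : IsLowerSet J) (hdJ : Set.Iio d ⊆ J) (hF : ∀ β ∈ F, β ∈ J → β < d)
    (h : Capture d F n v J) : Capture d F n v (Set.Iio d) := by
  classical
  obtain ⟨K, hK, A, hA, hAJ, hAc, hvA, b, hb, hAb⟩ := h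
  obtain ⟨K', hK', hKF, j, hj, -, hj2, hr⟩ := readable hJ (F.filter fun β => β ∈ J)
    (fun β hβ => (Finset.mem_filter.mp hβ).2) n hn (fun _ => constSet A)
    (fun _ => denseIn_constSet hA hJ hAJ) (fun _ => openIn_constSet A J)
  choose H hH hHI l hl using hr
  choose a ha using hH
  have hA' : ∀ z, A (K'.eval z) = a (j z) := fun z => by
    rw [(hl (j z)).eval z rfl, ha]
  have hjd : ∀ z z' : Pt W, (∀ α ∈ Set.Iio d, z α = z' α) → j z = j z' :=
    hj2 (Set.Iio d) (fun β hβ => by
      obtain ⟨h1, h2⟩ := Finset.mem_filter.mp hβ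
      exact hF β h1 h2) (isLowerSet_Iio d)
  refine ⟨K * K', hK.mul (fix_of_in hK' fun β hβ hβJ s hs z => hKF β (by simp [hβ, hβJ]) s hs z),
    fun z => a (j z), measurable_from_nat.comp hj, fun z z' h => congrArg a (hjd z z' h),
    fun z => ?_,
    fun z => ?_, fun z => b (K'.eval z), fun z z' h => hb _ _ (K'.agree_eval h), fun z => ?_⟩
  · show (a (j z)).card ≤ _
    rw [← hA' z]
    refine (hAc _).trans (Nat.pow_le_pow_right hn (Finset.card_le_card ?_))
    intro β hβ
    rw [mem_outside] at hβ ⊢
    exact ⟨hβ.1, fun h => hβ.2 (hdJ h)⟩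
  · show _ ∈ a (j z)
    rw [Cond.mul_eval, ← hA' z]
    exact hvA _
  · show a (j z) ⊆ _
    rw [← hA' z]
    exact hAb _

theorem IsNew.old_tail {n k : ℕ} {s : Node} (h : IsNew n (k :: s)) : Old n s := by
  obtain ⟨k', s', h1, h2, -⟩ := h
  simp only [List.cons.injEq] at h1
  rw [h1.2]
  exact h2

theorem capture_step {d : W} {F : Finset W} {n : ℕ} (hn : 0 < n) {v : Pt W → ℕ} {J : Set W}
    (hJ : IsLowerSet J) {γ : W} (hγF : γ ∈ F) (hγJ : γ ∈ J) (hγ : ∀ β ∈ F, β ∈ J → β ≤ γ)
    (hdγ : d ≤ γ) (h : Capture d F n v J) : Capture d F n v (Set.Iio γ) := by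
  classical
  obtain ⟨K, hK, A, hA, hAJ, hAc, hvA, b, hb, hAb⟩ := h
  obtain ⟨K', hK', hKF, j, hj, hj1, -, hr⟩ := readable hJ (F.filter fun β => β ∈ J)
    (fun β hβ => (Finset.mem_filter.mp hβ).2) n hn (fun _ => constSet A)
    (fun _ => denseIn_constSet hA hJ hAJ) (fun _ => openIn_constSet A J)
  choose H hH hHI l hl using hr
  choose a ha using hH
  have hA' : ∀ z, A (K'.eval z) = a (j z) := fun z => by
    rw [(hl (j z)).eval z rfl, ha]
  have hj1' : ∀ z z', Agree γ z z' → firstNew n (z γ) = firstNew n (z' γ) → j z = j z' :=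
    hj1 γ fun β hβ => hγ β (Finset.mem_filter.mp hβ).1 (Finset.mem_filter.mp hβ).2
  -- the values for the new nodes
  let pt : Node → Pt W → Pt W := fun N z => Function.update z γ (app N fun _ => 0)
  have hpt : ∀ N z, Agree γ (pt N z) z := fun N z α hα => Function.update_of_ne hα.ne _ _
  have hptm : ∀ N, Measurable (pt N) := by
    intro N
    refine measurable_pi_lambda _ fun α => ?_
    by_cases hα : α = γ
    · subst hα
      simp only [pt, Function.update_self]
      exact measurable_const
    · simp only [pt, Function.update_of_ne hα]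
      exact measurable_pi_apply α
  let nv : Pt W → Node → Finset ℕ := fun z N => a (j (pt N z))
  have hnvm : ∀ N, Measurable fun z => nv z N := fun N =>
    measurable_from_nat.comp (hj.comp (hptm N))
  have hnv : ∀ z N, IsNew n N → firstNew n (z γ) = N → a (j z) = nv z N := by
    intro z N hN hz
    show a (j z) = a (j (pt N z))
    rw [hj1' z (pt N z) (hpt N z).symm]
    rw [hz]
    show N = firstNew n (Function.update z γ (app N fun _ => 0) γ)
    rw [Function.update_self, firstNew_app hn hN]
  have hnvd : ∀ z z' N, Agree γ z z' → nv z N = nv z' N := by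
    intro z z' N h
    show a (j (pt N z)) = a (j (pt N z'))
    rw [hj1' (pt N z) (pt N z') (((hpt N z).trans h).trans (hpt N z').symm)]
    show firstNew n (Function.update z γ _ γ) = firstNew n (Function.update z' γ _ γ)
    rw [Function.update_self, Function.update_self]
  have hnvb : ∀ z N, nv z N ⊆ Finset.range (b (K'.eval z)) := by
    intro z N
    show a (j (pt N z)) ⊆ _
    rw [← hA', ← hb _ _ (K'.agree_eval ((hpt N z).mono hdγ))]
    exact hAb _
  have hnvc : ∀ z N, (nv z N).card ≤ n ^ (outside F J).card := by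
    intro z N
    show (a (j (pt N z))).card ≤ _
    rw [← hA']
    exact hAc _
  -- the value that occurs infinitely often
  let vc : Pt W → Node → ℕ := fun z s => pick fun e => ∀ m, ∃ k, m ≤ k ∧ (IsNew n (k :: s) ∧
    Encodable.encode (nv z (k :: s)) = e)
  have hvc : ∀ z s, Old n s → ∀ m, ∃ k, m ≤ k ∧ (IsNew n (k :: s) ∧
      Encodable.encode (nv z (k :: s)) = vc z s) := by
    intro z s hs
    refine pick_spec (P := fun e => ∀ m, ∃ k, m ≤ k ∧ (IsNew n (k :: s) ∧
      Encodable.encode (nv z (k :: s)) = e)) ?_
    have hfin : Finite {B : Finset ℕ // B ⊆ Finset.range (b (K'.eval z))} := by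
      have : {B : Finset ℕ | B ⊆ Finset.range (b (K'.eval z))}.Finite := by
        exact (Finset.range (b (K'.eval z))).powerset.finite_toSet.subset fun B hB =>
          Finset.mem_coe.mpr (Finset.mem_powerset.mpr hB)
      exact this.to_subtype
    obtain ⟨c, hc⟩ := infinite_pigeonhole (fun k => IsNew n (k :: s)) (exists_new_children hs)
      (fun k => (⟨nv z (k :: s), hnvb z _⟩ : {B : Finset ℕ // B ⊆ Finset.range (b (K'.eval z))}))
    refine ⟨Encodable.encode c.1, fun m => ?_⟩
    obtain ⟨k, hk1, hk2, hk3⟩ := hc m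
    exact ⟨k, hk1, hk2, by rw [← hk3]⟩
  have hencm : ∀ N, Measurable fun z => Encodable.encode (nv z N) := fun N =>
    (Measurable.of_discrete (f := fun B : Finset ℕ => Encodable.encode B)).comp (hnvm N)
  have hvcm : ∀ s, Measurable fun z => vc z s := by
    intro s
    refine measurable_pick fun e => ?_
    have h1 : {z | ∀ m, ∃ k, m ≤ k ∧ (IsNew n (k :: s) ∧ Encodable.encode (nv z (k :: s)) = e)} =
        ⋂ m : ℕ, ⋃ k : ℕ, ({z | m ≤ k ∧ IsNew n (k :: s)} ∩
          {z | Encodable.encode (nv z (k :: s)) = e}) := by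
      ext z
      simp only [Set.mem_ofPred_eq, Set.mem_iInter, Set.mem_iUnion, Set.mem_inter_iff]
      exact forall_congr' fun m => exists_congr fun k => by tauto
    rw [h1]
    exact MeasurableSet.iInter fun m => MeasurableSet.iUnion fun k =>
      (MeasurableSet.const _).inter (hencm _ (measurableSet_singleton e))
  have hvcd : ∀ z z' s, Agree γ z z' → vc z s = vc z' s := by
    intro z z' s h
    show pick _ = pick _
    congr 1
    funext e
    simp only [hnvd z z' _ h]
  let val : Pt W → Node → Finset ℕ := fun z s => (Encodable.decode (vc z s)).getD ∅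
  have hval : ∀ z s N, Encodable.encode (nv z N) = vc z s → val z s = nv z N := by
    intro z s N h
    show (Encodable.decode (vc z s)).getD ∅ = _
    rw [← h, Encodable.encodek]
    rfl
  have hvalm : ∀ s, Measurable fun z => val z s := fun s =>
    (Measurable.of_discrete (f := fun e : ℕ => (Encodable.decode (α := Finset ℕ) e).getD ∅)).comp
      (hvcm s)
  -- the thinning
  let p : Pt W → Node → ℕ → Prop := fun z s k =>
    IsNew n (k :: s) ∧ Encodable.encode (nv z (k :: s)) = vc z s
  have hpm : ∀ s k, MeasurableSet {z | p z s k} := fun s k =>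
    (MeasurableSet.const _).inter (measurableSet_eq_fun (hencm _) (hvcm s))
  have hpd : ∀ z z' s, Agree γ z z' → p z s = p z' s := by
    intro z z' s h
    funext k
    show (IsNew n (k :: s) ∧ Encodable.encode (nv z (k :: s)) = vc z s) = _
    rw [hnvd z z' _ h, hvcd z z' s h]
  let ρ : Pt W → Node → Node := fun z N => match N with
    | [] => []
    | k :: s => if Old n s then enumP (p z s) k :: s else k :: s
  have hρ : ∀ z k s, Old n s → ρ z (k :: s) = enumP (p z s) k :: s := fun z k s hs => if_pos hs
  have hgood : ∀ z, Good n (ρ z) := by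
    intro z
    constructor
    · intro k s hk
      exact ⟨enumP (p z s) k, hρ z k s hk.old_tail, (enumP_spec (hvc z s hk.old_tail) k).1⟩
    · intro k m s hk hm h
      rw [hρ z k s hk.old_tail, hρ z m s hm.old_tail] at h
      exact (enumP_strictMono (hvc z s hk.old_tail)).injective (by simpa using h)
  have hρd : ∀ z z', Agree γ z z' → ρ z = ρ z' := by
    intro z z' h
    funext N
    cases N with
    | nil => rfl
    | cons k s =>
      show (if Old n s then enumP (p z s) k :: s else k :: s) = _
      rw [hpd z z' s h]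
  have hρm : ∀ N, Measurable fun z => ρ z N := by
    intro N
    cases N with
    | nil => exact measurable_const
    | cons k s =>
      by_cases hs : Old n s
      · simp only [hρ _ k s hs]
        exact (Measurable.of_discrete (f := fun m : ℕ => m :: s)).comp
          (measurable_enumP (hpm s) k)
      · have : (fun z => ρ z (k :: s)) = fun _ => k :: s := by
          funext z
          exact if_neg hs
        rw [this]
        exact measurable_const
  let K2 : Cond W := Cond.single γ (fun z => glueCode n (fun _ => id) (ρ z))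
    (fun z z' h => by rw [hρd z z' h])
    (fun t => by
      unfold glueCode
      rcases split n t with _ | ⟨u, N⟩
      · exact measurable_const
      · exact (Measurable.of_discrete (f := fun s : Node => u ++ s)).comp (hρm N))
    (fun z => isCode_glueCode hn (fun _ _ => isCode_id) (hgood z))
  have hK2low : ∀ z, Agree γ (K2.eval z) z := by
    intro z α hα
    rw [Cond.eval_apply, Cond.single_code_of_ne γ _ _ _ _ hα.ne, ev_id]
  have hkey : ∀ z, a (j (K2.eval z)) ⊆ (finite_old n).toFinset.biUnion (val z) := by
    intro z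
    obtain ⟨k, s, hks, hs, hks'⟩ := isNew_firstNew hn (z γ)
    have hN : IsNew n (k :: s) := ⟨k, s, rfl, hs, hks'⟩
    have h1 : K2.eval z γ = app (enumP (p z s) k :: s) (rest n (z γ)) := by
      rw [Cond.eval_apply, Cond.single_code_self]
      conv_lhs => rw [← app_rest n (z γ)]
      rw [hks, ev_glueCode hn (fun _ _ => isCode_id) (hgood z) hN, hρ z k s hs, ev_id]
    have h2 := enumP_spec (hvc z s hs) k
    have h3 : a (j (K2.eval z)) = nv (K2.eval z) (enumP (p z s) k :: s) :=
      hnv _ _ h2.1 (by rw [h1, firstNew_app hn h2.1])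
    rw [h3, hnvd _ z _ (hK2low z), ← hval z s _ h2.2]
    exact Finset.subset_biUnion_of_mem (val z) (by simpa using hs)
  have hvalold : ∀ z s, Old n s → ∃ N, val z s = nv z N := by
    intro z s hs
    obtain ⟨k, -, -, hk⟩ := hvc z s hs 0
    exact ⟨_, hval z s _ hk⟩
  refine ⟨K * K' * K2, (hK.mul (fix_of_in hK' fun β hβ hβJ s hs z =>
      hKF β (by simp [hβ, hβJ]) s hs z)).mul ?_,
    fun z => (finite_old n).toFinset.biUnion (val z), measurable_biUnion _ hvalm, ?_, ?_, ?_,
    fun z => b (K'.eval z), fun z z' h => hb _ _ (K'.agree_eval h), ?_⟩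
  · intro β _ s hs z
    by_cases hβ : β = γ
    · subst hβ
      rw [Cond.single_code_self]
      exact glueCode_old hn _ _ hs
    · rw [Cond.single_code_of_ne γ _ _ _ _ hβ]
      rfl
  · intro z z' h
    refine Finset.biUnion_congr rfl fun s _ => ?_
    show (Encodable.decode (vc z s)).getD ∅ = (Encodable.decode (vc z' s)).getD ∅
    rw [hvcd z z' s fun α hα => h α hα]
  · intro z
    calc ((finite_old n).toFinset.biUnion (val z)).card
        ≤ ∑ s ∈ (finite_old n).toFinset, (val z s).card := Finset.card_biUnion_le
      _ ≤ ∑ s ∈ (finite_old n).toFinset, n ^ (outside F J).card := by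
          refine Finset.sum_le_sum fun s hs => ?_
          obtain ⟨N, hN⟩ := hvalold z s (by simpa using hs)
          rw [hN]
          exact hnvc z N
      _ = (finite_old n).toFinset.card * n ^ (outside F J).card := by
          rw [Finset.sum_const, smul_eq_mul]
      _ ≤ n * n ^ (outside F J).card := Nat.mul_le_mul_right _ (card_old_le n)
      _ = n ^ ((outside F J).card + 1) := by rw [pow_succ, mul_comm]
      _ ≤ _ := by
          refine Nat.pow_le_pow_right hn ?_
          have h1 : insert γ (outside F J) ⊆ outside F (Set.Iio γ) := by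
            intro β hβ
            rcases Finset.mem_insert.mp hβ with rfl | hβ
            · simp [mem_outside, hγF]
            · rw [mem_outside] at hβ ⊢
              exact ⟨hβ.1, fun h => hβ.2 (hJ (le_of_lt h) hγJ)⟩
          have h2 := Finset.card_le_card h1
          rwa [Finset.card_insert_of_notMem (by simp [mem_outside, hγJ])] at h2
  · intro z
    rw [Cond.mul_eval, Cond.mul_eval]
    have h1 := hvA (K'.eval (K2.eval z))
    rw [hA'] at h1
    exact hkey z h1
  · intro z
    refine Finset.biUnion_subset.mpr fun s hs => ?_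
    obtain ⟨N, hN⟩ := hvalold z s (by simpa using hs)
    rw [hN]
    exact hnvb z N

/-- Capturing a bounded name for a natural number relative to an initial segment. -/
theorem capture {d : W} {F : Finset W} {n : ℕ} (hn : 0 < n) {v b : Pt W → ℕ} (hv : Measurable v)
    (hb : ∀ z z', Agree d z z' → b z = b z') (hvb : ∀ z, v z < b z) :
    Capture d F n v (Set.Iio d) := by
  classical
  have key : ∀ k, ∀ J : Set W, IsLowerSet J → Set.Iio d ⊆ J →
      (F.filter fun β => β ∈ J ∧ d ≤ β).card = k → Capture d F n v J →
      Capture d F n v (Set.Iio d) := by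
    intro k
    induction k using Nat.strong_induction_on with
    | _ k ih =>
      intro J hJ hdJ hk h
      rcases (F.filter fun β => β ∈ J ∧ d ≤ β).eq_empty_or_nonempty with he | hne
      · refine capture_final hn hJ hdJ (fun β hβ hβJ => ?_) h
        by_contra hlt
        have : β ∈ F.filter fun β => β ∈ J ∧ d ≤ β := by
          simp [hβ, hβJ, not_lt.mp hlt]
        rw [he] at this
        simp at this
      · set γ := (F.filter fun β => β ∈ J ∧ d ≤ β).max' hne with hγdef
        have hγmem := (F.filter fun β => β ∈ J ∧ d ≤ β).max'_mem hne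
        rw [← hγdef] at hγmem
        obtain ⟨hγF, hγJ, hdγ⟩ : γ ∈ F ∧ γ ∈ J ∧ d ≤ γ := by simpa using hγmem
        have hmax : ∀ β ∈ F, β ∈ J → β ≤ γ := by
          intro β hβ hβJ
          rcases le_total d β with h1 | h1
          · exact Finset.le_max' _ β (by simp [hβ, hβJ, h1])
          · exact h1.trans hdγ
        have h1 := capture_step hn hJ hγF hγJ hmax hdγ h
        refine ih _ ?_ (Set.Iio γ) (isLowerSet_Iio γ) (Set.Iio_subset_Iio hdγ) rfl h1
        rw [← hk]
        refine Finset.card_lt_card ?_
        rw [Finset.ssubset_iff_of_subset]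
        · exact ⟨γ, hγmem, by simp⟩
        · intro β hβ
          simp only [Finset.mem_filter, Set.mem_Iio] at hβ ⊢
          exact ⟨hβ.1, hJ hβ.2.1.le hγJ, hβ.2.2⟩
  exact key _ Set.univ isLowerSet_univ (Set.subset_univ _) rfl (capture_univ F n hv hb hvb)

/-- The Laver property relative to an initial segment of the coordinates. -/
theorem laver (d : W) (H : Cond W) {v b : ℕ → Pt W → ℕ} (hv : ∀ t, Measurable (v t))
    (hb : ∀ t z z', Agree d z z' → b t z = b t z') (hvb : ∀ t z, v t z < b t z) :
    ∃ L : Cond W, ∀ t, ∃ A : Pt W → Finset ℕ, Measurable A ∧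
      (∀ z z', Agree d z z' → A z = A z') ∧ (∀ z, (A z).card ≤ (t + 1) ^ t) ∧
      ∀ z, v t ((H * L).eval z) ∈ A z := by
  classical
  obtain ⟨L, -, -, hL⟩ := fusion_abstract (I := Set.univ) (fun t L => ∃ A : Pt W → Finset ℕ,
      Measurable A ∧ (∀ z z', Agree d z z' → A z = A z') ∧
      (∀ z, (A z).card ≤ (t + 1) ^ t) ∧ ∀ z, v t ((H * L).eval z) ∈ A z)
    (by
      rintro m P L - - ⟨A, h1, h2, h3, h4⟩
      refine ⟨fun z => A (L.eval z), h1.comp L.measurable_eval,
        fun z z' h => h2 _ _ (L.agree_eval h), fun z => h3 _, fun z => ?_⟩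
      rw [← mul_assoc, Cond.mul_eval]
      exact h4 _) ∅ (by simp) 1
    (by
      intro m F P _ hF _
      obtain ⟨K, hK, A, h1, h2, h3, h4, -⟩ := capture (F := F) (n := 1 + m) (by omega)
        (d := d) (v := fun z => v m ((H * P).eval z)) (b := fun z => b m ((H * P).eval z))
        ((hv m).comp (H * P).measurable_eval)
        (fun z z' h => hb m _ _ ((H * P).agree_eval h)) (fun z => hvb m _)
      refine ⟨K, K.in_univ, hK, A, h1, fun z z' h => h2 z z' fun α hα => h α hα, fun z => ?_,
        fun z => ?_⟩
      · refine (h3 z).trans ?_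
        rw [add_comm 1 m]
        refine Nat.pow_le_pow_right (by omega) ?_
        refine (Finset.card_le_card (t := F) fun β hβ => (mem_outside.mp hβ).1).trans ?_
        simpa using hF
      · have h5 : v m ((H * P).eval (K.eval z)) ∈ A z := h4 z
        rwa [← Cond.mul_eval, mul_assoc] at h5)
  exact ⟨L, hL⟩

end Pool.Agent.Miller
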