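import Pool.Agent.Lib_helper75.Miller.StatH
import Pool.Agent.Lib_helper48.Miller.Rho
import Pool.Agent.Lib_helper48.Miller.Cover

/-!
Borel's Conjecture fails in the quotient models.
-/

set_option autoImplicit false
set_option linter.unusedSectionVars false

universe u

namespace Pool.Agent.Miller

open Pool.Agent.BVM BSet Ordinal

/-- The family of real numbers. -/
noncomputable def rho : W0 → Pt W0 → ℝ := exists_rho.choose

theorem measurable_rho {β : W0} (hβ : β < ω₁) : Measurable (rho β) :=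
  exists_rho.choose_spec.1 β hβ

theorem rho_ne {α β : W0} (hα : α < ω₁) (hβ : β < ω₁) (h : α ≠ β) (z : Pt W0) :
    rho α z ≠ rho β z := by
  rcases lt_or_gt_of_ne h with h | h
  · exact exists_rho.choose_spec.2.1 α β h hβ z
  · exact (exists_rho.choose_spec.2.1 β α h hα z).symm

/-- The name of the set of these real numbers. -/
noncomputable def XN : BSet (Bal W0) :=
  mk (Set.Iio (ω₁ : W0)) (fun β => rN (rho β)) fun _ => ⊤

theorem rho_mem_XN {β : W0} (hβ : β < ω₁) (V : UF (Bal W0)) :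
    Emem V (cls V (rN (rho β))) (cls V XN) :=
  V.mono V.top_mem (wt_le_bmem XN (show XN.Idx from (⟨β, hβ⟩ : Set.Iio (ω₁ : W0))))

theorem XN_sub (V : UF (Bal W0)) : IsSub (Emem V) (cls V XN) (cls V (RN W0)) := by
  intro x hx
  exact forall_mem_of_idx (a := XN) (P := fun V x => Emem V x (cls V (RN W0)))
    (fun x => HasTV.mem x _) V.top_mem
    (fun (β : Set.Iio (ω₁ : W0)) V _ _ => rN_mem (measurable_rho β.2) V) x hx

theorem exists_nat_of_isFun {a : BSet (Bal W0)} {V : UF (Bal W0)}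
    (ha : IsFun (Emem V) (cls V a) (cls V (omega (Bal W0))) (cls V (RN W0))) (n : ℕ) :
    ∃ x, Emem V x (cls V (RN W0)) ∧ Rel (Emem V) (cls V a) (cls V (nN n)) x := by
  obtain ⟨x, hx, -⟩ := ha.2 _ (nN_mem n V)
  obtain ⟨p, hp, hpa⟩ := hx
  obtain ⟨n', x', -, hx', hp'⟩ := ha.1 p hpa
  have : x = x' := by
    obtain ⟨x, rfl⟩ := cls_surj V x
    obtain ⟨x', rfl⟩ := cls_surj V x'
    obtain ⟨n', rfl⟩ := cls_surj V n'
    rw [isPair_iff] at hp hp'
    exact (cls_opair_inj (hp.symm.trans hp')).2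
  exact ⟨x, this ▸ hx', p, hp, hpa⟩

theorem XN_smz (V : UF (Bal W0)) : IsSMZ (Emem V) (cls V (RN W0)) (cls V (addN W0))
    (cls V (ltN W0)) (cls V (cN W0 0)) (cls V XN) := by
  classical
  intro w e hw he hpos
  rw [isOmega_iff] at hw
  subst hw
  obtain ⟨e, rfl⟩ := cls_surj V e
  refine imp_of_dense (P := fun V =>
      IsFun (Emem V) (cls V e) (cls V (omega (Bal W0))) (cls V (RN W0)) ∧
      ∀ n r, Rel (Emem V) (cls V e) n r → Rel (Emem V) (cls V (ltN W0)) (cls V (cN W0 0)) r)
    (Q := fun V => ∃ a b,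
      IsFun (Emem V) a (cls V (omega (Bal W0))) (cls V (RN W0)) ∧
      IsFun (Emem V) b (cls V (omega (Bal W0))) (cls V (RN W0)) ∧
      (∀ n x y r s, Rel (Emem V) a n x → Rel (Emem V) b n y →
        Rel (Emem V) (cls V e) n r → Op (Emem V) (cls V (addN W0)) x r s →
          Rel (Emem V) (cls V (ltN W0)) y s) ∧
      ∀ x, Emem V x (cls V XN) → ∃ n y z, Rel (Emem V) a n y ∧ Rel (Emem V) b n z ∧
        Rel (Emem V) (cls V (ltN W0)) y x ∧ Rel (Emem V) (cls V (ltN W0)) x z)
    ((hasTV_isFun _ _ _).and (HasTV.all fun n => HasTV.all fun r => (hasTV_rel _ n r).imp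
      (hasTV_rel _ _ r)))
    (HasTV.ex fun a => HasTV.ex fun b => (hasTV_isFun a _ _).and
    ((hasTV_isFun b _ _).and ((HasTV.all fun n => HasTV.all fun x => HasTV.all fun y =>
      HasTV.all fun r => HasTV.all fun s => (hasTV_rel a n x).imp ((hasTV_rel b n y).imp
        ((hasTV_rel _ n r).imp ((hasTV_op x r s _).imp (hasTV_rel _ y s))))).and
      (HasTV.all fun x => (HasTV.mem x XN).imp (HasTV.ex fun n => HasTV.ex fun y =>
        HasTV.ex fun z => (hasTV_rel a n y).and ((hasTV_rel b n z).and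
          ((hasTV_rel _ y x).and (hasTV_rel _ x z))))))))
    (fun H hH => ?_) V ⟨he, hpos⟩
  clear he hpos V
  obtain ⟨K, f, hf, hfe⟩ := choose_reals (P := fun n V x =>
      Rel (Emem V) (cls V e) (cls V (nN n)) x) (fun n x => hasTV_rel e _ x) H
    (fun n V hV => exists_nat_of_isFun (hH V hV).1 n)
  have hpos : ∀ n, Forces (H * K) fun V => bool {z | 0 < f n z} ∈ V := by
    intro n V hV
    have h1 := ((hH.mul K) V hV).2 _ _ (hfe n V hV)
    rwa [rel_ltN measurable_const (hf n)] at h1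
  let ε : Pt W0 → ℕ → ℝ := fun z n => if 0 < f n z then f n z else 1
  have hε : Measurable ε := measurable_pi_lambda _ fun n => Measurable.ite
    (measurableSet_lt measurable_const (hf n)) (hf n) measurable_const
  have hεpos : ∀ z n, 0 < ε z n := by
    intro z n
    simp only [ε]
    split_ifs with h
    · exact h
    · exact one_pos
  obtain ⟨L, l, r, hl, hr, hlr, hcov⟩ := exists_rho.choose_spec.2.2 (H * K) ε hε hεpos
  have hln : ∀ n, Measurable fun z => l z n := fun n => (measurable_pi_apply n).comp hl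
  have hrn : ∀ n, Measurable fun z => r z n := fun n => (measurable_pi_apply n).comp hr
  refine ⟨K * L, fun V hV => ⟨cls V (rseq l), cls V (rseq r), isFun_rseq hl V, isFun_rseq hr V,
    ?_, ?_⟩⟩
  · intro n x y t s hx hy ht hs
    have hn : Emem V n (cls V (omega (Bal W0))) := rel_seqN_omega _ n x hx
    have hV' : cone (H * K * L) ∈ V := by rwa [mul_assoc]
    refine forall_mem_omega (P := fun V n => ∀ x y t s, Rel (Emem V) (cls V (rseq l)) n x →
      Rel (Emem V) (cls V (rseq r)) n y → Rel (Emem V) (cls V e) n t →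
        Op (Emem V) (cls V (addN W0)) x t s → Rel (Emem V) (cls V (ltN W0)) y s)
      (fun n => HasTV.all fun x => HasTV.all fun y => HasTV.all fun t => HasTV.all fun s =>
        (hasTV_rel _ n x).imp ((hasTV_rel _ n y).imp ((hasTV_rel _ n t).imp
          ((hasTV_op x t s _).imp (hasTV_rel _ y s))))) hV' (fun n V hV x y t s hx hy ht hs => ?_)
      n hn x y t s hx hy ht hs
    rw [rel_rseq] at hx hy
    subst hx hy
    have hft := ((hfe n).mul L) V hV
    have hfun := (((hH.mul K).mul L) V hV).1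
    rw [(hfun.2 _ (nN_mem n V)).unique ht hft, op_addN (hln n) (hf n)] at hs
    subst hs
    rw [rel_ltN (hrn n) (show Measurable fun z => l z n + f n z from (hln n).add (hf n))]
    refine bool_mem_mono (((hpos n).mul L) V hV) fun z hz => ?_
    have h1 := hlr z n
    simp only [ε] at h1
    rw [if_pos (show 0 < f n z from hz)] at h1
    show r z n < l z n + f n z
    linarith
  · intro x hx
    have hV' : cone (H * K * L) ∈ V := by rwa [mul_assoc]
    refine forall_mem_of_idx (a := XN) (P := fun V x => ∃ n y z,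
      Rel (Emem V) (cls V (rseq l)) n y ∧ Rel (Emem V) (cls V (rseq r)) n z ∧
        Rel (Emem V) (cls V (ltN W0)) y x ∧ Rel (Emem V) (cls V (ltN W0)) x z)
      (fun x => HasTV.ex fun n => HasTV.ex fun y => HasTV.ex fun z => (hasTV_rel _ n y).and
        ((hasTV_rel _ n z).and ((hasTV_rel _ y x).and (hasTV_rel _ x z)))) hV'
      (fun (β : Set.Iio (ω₁ : W0)) V hV _ => ?_) x hx
    have hβ := measurable_rho β.2
    have h1 := forces_bool_of_forall (A := {z | ∃ n, l z n < rho β z ∧ rho β z < r z n})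
      (H := H * K * L) (fun z => hcov β β.2 z) V hV
    refine iUnion_elim (P := fun V => ∃ n y z,
      Rel (Emem V) (cls V (rseq l)) n y ∧ Rel (Emem V) (cls V (rseq r)) n z ∧
        Rel (Emem V) (cls V (ltN W0)) y (cls V (rN (rho β))) ∧
        Rel (Emem V) (cls V (ltN W0)) (cls V (rN (rho β))) z)
      (HasTV.ex fun n => HasTV.ex fun y => HasTV.ex fun z => (hasTV_rel _ n y).and
        ((hasTV_rel _ n z).and ((hasTV_rel _ y _).and (hasTV_rel _ _ z))))
      (A := fun n => {z | l z n < rho β z} ∩ {z | rho β z < r z n})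
      (fun n => (measurableSet_lt (hln n) hβ).inter (measurableSet_lt hβ (hrn n)))
      V.top_mem (bool_mem_mono h1 fun z hz => ?_) fun n V _ hn => ?_
    · obtain ⟨n, hn⟩ := hz
      exact Set.mem_iUnion.mpr ⟨n, hn⟩
    · rw [bool_inter_mem] at hn
      exact ⟨cls V (nN n), _, _, (rel_rseq l n _).mpr rfl, (rel_rseq r n _).mpr rfl,
        (rel_ltN (hln n) hβ V).mpr hn.1, (rel_ltN hβ (hrn n) V).mpr hn.2⟩

theorem not_isCountable_XN (V : UF (Bal W0)) : ¬ IsCountable (Emem V) (cls V XN) := by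
  rw [isCountable_iff]
  refine forall_of_dense (P := fun V => ¬ ∃ f, IsInj (Emem V) f (cls V XN)
    (cls V (omega (Bal W0)))) (HasTV.ex fun f => hasTV_isInj f _ _).not (fun H => ?_) V
  obtain ⟨L, hL | hL⟩ := forces_em (P := fun V => ∃ f, IsInj (Emem V) f (cls V XN)
    (cls V (omega (Bal W0)))) (HasTV.ex fun f => hasTV_isInj f _ _) H
  swap
  · exact ⟨L, hL⟩
  exfalso
  generalize H * L = H at hL
  obtain ⟨f, hf⟩ := exists_forces_name (P := fun V f => IsInj (Emem V) f (cls V XN)
    (cls V (omega (Bal W0)))) (fun f => hasTV_isInj f _ _) hL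
  obtain ⟨K, C, hC⟩ := exists_countable_cover (ι := Set.Iio (ω₁ : W0)) (fun n K β =>
      Forces K fun V => ∀ x, Emem V x (cls V XN) → Rel (Emem V) (cls V f) x (cls V (nN n)) →
        x = cls V (rN (rho β))) (fun m K L β h => h.mul L) H (fun n L => by
      obtain ⟨M, hM | hM⟩ := forces_em (P := fun V => ∃ x, Emem V x (cls V XN) ∧
        Rel (Emem V) (cls V f) x (cls V (nN n)))
        (HasTV.ex fun x => (HasTV.mem x _).and (hasTV_rel _ x _)) (H * L)
      · obtain ⟨M', i, hi⟩ := exists_forces_mem (fun x => hasTV_rel f x _) hM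
        refine ⟨M * M', (show Set.Iio (ω₁ : W0) from i), ?_⟩
        rw [← mul_assoc]
        intro V hV x hx hxn
        exact (((hf.mul L).mul M).mul M' V hV).2 _ _ _ hxn (hi V hV).2
      · refine ⟨M, ⟨0, Ordinal.omega_pos 1⟩, fun V hV x hx hxn => absurd ⟨x, hx, hxn⟩ (hM V hV)⟩)
  obtain ⟨β, hβ, hβC⟩ : ∃ β ∈ Set.Iio (ω₁ : W0), β ∉ Set.range fun p : ℕ × ℕ => (C p.1 p.2 : W0) := by
    by_contra hcon
    push Not at hcon
    exact not_countable_Iio ((Set.countable_range _).mono hcon)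
  have h1 : Forces (H * K) fun V => ∃ n, Emem V n (cls V (omega (Bal W0))) ∧
      Rel (Emem V) (cls V f) (cls V (rN (rho β))) n := by
    intro V hV
    have hinj := (hf.mul K) V hV
    obtain ⟨n, hn, -⟩ := hinj.1.2 _ (rho_mem_XN hβ V)
    obtain ⟨p, hp, hpf⟩ := hn
    obtain ⟨x', n', -, hn', hp'⟩ := hinj.1.1 p hpf
    have : n = n' := by
      obtain ⟨n, rfl⟩ := cls_surj V n
      obtain ⟨x', rfl⟩ := cls_surj V x'
      obtain ⟨n', rfl⟩ := cls_surj V n'
      rw [isPair_iff] at hp hp'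
      exact (cls_opair_inj (hp.symm.trans hp')).2
    exact ⟨n, this ▸ hn', p, hp, hpf⟩
  obtain ⟨L2, n, hn⟩ := exists_forces_nat (fun n => hasTV_rel f _ n) h1
  obtain ⟨M, k, hk⟩ := hC n L2
  obtain ⟨V, hV⟩ := UF.exists_mem (cone_ne_bot (H * K * L2 * M))
  have h2 := hk V hV _ (rho_mem_XN hβ V) ((hn.mul M) V hV)
  rw [cls_rN_eq (measurable_rho hβ) (measurable_rho (C n k).2)] at h2
  refine bool_mem_false h2 fun z hz => rho_ne hβ (C n k).2 (fun h => hβC ⟨(n, k), h.symm⟩) z hz

/-- Borel's Conjecture fails. -/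
theorem not_borelConjecture (V : UF (Bal W0)) : ¬ BorelConjecture (Emem V) (cls V (RN W0))
    (cls V (addN W0)) (cls V (ltN W0)) (cls V (cN W0 0)) :=
  fun h => not_isCountable_XN V (h _ (XN_sub V) (XN_smz V))

end Pool.Agent.Miller
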