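import Pool.Agent.Lib_helper75.BVM.Notions

/-!
Notions about the real numbers of a model of set theory `(M, E)`: complete ordered fields, strong
measure zero, nowhere dense, meager and meager-additive sets, Borel's Conjecture.
-/

set_option autoImplicit false

universe v

namespace Pool.Agent.Miller

open Pool.Agent.BVM

section Notions

variable {M : Type v} (E : M → M → Prop)

/-- The function `f` takes the ordered pair of `x` and `y` to `z`. -/
def Op (f x y z : M) : Prop := ∃ p, IsPair E p x y ∧ Rel E f p z

/-- `f` is a binary operation on `R`. -/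
def IsOp (f R : M) : Prop :=
  ∀ x y, E x R → E y R → ∃ z, E z R ∧ ∀ z', Op E f x y z' ↔ z' = z

/-- `R` with the addition `add`, the multiplication `mul`, the order `lt`, the zero `o` and the
one `i` is a complete ordered field, that is, the field of the real numbers of the model. -/
structure IsRealField (R add mul lt o i : M) : Prop where
  add_op : IsOp E add R
  mul_op : IsOp E mul R
  zero_mem : E o R
  one_mem : E i R
  zero_ne_one : o ≠ i
  add_comm : ∀ x y z, E x R → E y R → Op E add x y z → Op E add y x z
  mul_comm : ∀ x y z, E x R → E y R → Op E mul x y z → Op E mul y x z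
  add_assoc : ∀ x y z u v w, E x R → E y R → E z R →
    Op E add x y u → Op E add y z v → Op E add u z w → Op E add x v w
  mul_assoc : ∀ x y z u v w, E x R → E y R → E z R →
    Op E mul x y u → Op E mul y z v → Op E mul u z w → Op E mul x v w
  mul_add : ∀ x y z u v w s, E x R → E y R → E z R →
    Op E add y z s → Op E mul x y u → Op E mul x z v → Op E mul x s w → Op E add u v w
  add_zero : ∀ x, E x R → Op E add x o x
  mul_one : ∀ x, E x R → Op E mul x i x
  exists_neg : ∀ x, E x R → ∃ y, E y R ∧ Op E add x y o
  exists_inv : ∀ x, E x R → x ≠ o → ∃ y, E y R ∧ Op E mul x y i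
  lt_irrefl : ∀ x, ¬ Rel E lt x x
  lt_trans : ∀ x y z, E x R → E y R → E z R → Rel E lt x y → Rel E lt y z → Rel E lt x z
  lt_total : ∀ x y, E x R → E y R → Rel E lt x y ∨ x = y ∨ Rel E lt y x
  add_lt : ∀ x y z u v, E x R → E y R → E z R →
    Rel E lt x y → Op E add x z u → Op E add y z v → Rel E lt u v
  mul_pos : ∀ x y z, E x R → E y R → Rel E lt o x → Rel E lt o y → Op E mul x y z → Rel E lt o z
  complete : ∀ a, IsSub E a R → (∃ x, E x a) → (∃ b, E b R ∧ ∀ x, E x a → ¬ Rel E lt b x) →
    ∃ s, E s R ∧ (∀ x, E x a → ¬ Rel E lt s x) ∧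
      ∀ b, E b R → (∀ x, E x a → ¬ Rel E lt b x) → ¬ Rel E lt b s

/-- `X` has strong measure zero: for every sequence `e` of positive real numbers there are
sequences `a` and `b` of real numbers such that the interval from `a n` to `b n` is shorter than
`e n` and such that these intervals cover `X`. -/
def IsSMZ (R add lt o X : M) : Prop :=
  ∀ w e, IsOmega E w → IsFun E e w R → (∀ n r, Rel E e n r → Rel E lt o r) →
    ∃ a b, IsFun E a w R ∧ IsFun E b w R ∧
      (∀ n x y r s, Rel E a n x → Rel E b n y → Rel E e n r → Op E add x r s → Rel E lt y s) ∧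
      ∀ x, E x X → ∃ n y z, Rel E a n y ∧ Rel E b n z ∧ Rel E lt y x ∧ Rel E lt x z

/-- `N` is a nowhere dense subset of `R`: every open interval contains an open interval that is
disjoint from `N`. -/
def IsNwd (R lt N : M) : Prop :=
  IsSub E N R ∧ ∀ a b, E a R → E b R → Rel E lt a b →
    ∃ c d, E c R ∧ E d R ∧ Rel E lt c d ∧
      ∀ x, E x R → Rel E lt c x → Rel E lt x d → Rel E lt a x ∧ Rel E lt x b ∧ ¬ E x N

/-- `X` is meager: it is covered by the terms of a sequence `f` of nowhere dense sets. -/
def IsMeager (R lt X : M) : Prop :=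
  ∃ w f, IsOmega E w ∧ (∀ n, E n w → ∃ N, IsNwd E R lt N ∧ ∀ N', Rel E f n N' ↔ N' = N) ∧
    ∀ x, E x X → ∃ n N, E n w ∧ Rel E f n N ∧ E x N

/-- `s` is the set of the sums of an element of `X` and an element of `Y`. -/
def IsSumSet (add s X Y : M) : Prop :=
  ∀ z, E z s ↔ ∃ x y, E x X ∧ E y Y ∧ Op E add x y z

/-- `X` is meager-additive: the sum of `X` and any meager set is meager. -/
def IsMeagerAdditive (R add lt X : M) : Prop :=
  ∀ m s, IsSub E m R → IsMeager E R lt m → IsSumSet E add s X m → IsMeager E R lt s

/-- The statement (H): every strong measure zero set is meager-additive. -/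
def StatementH (R add lt o : M) : Prop :=
  ∀ X, IsSub E X R → IsSMZ E R add lt o X → IsMeagerAdditive E R add lt X

/-- Borel's Conjecture: every strong measure zero set is countable. -/
def BorelConjecture (R add lt o : M) : Prop :=
  ∀ X, IsSub E X R → IsSMZ E R add lt o X → IsCountable E X

end Notions

end Pool.Agent.Miller
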