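import Pool.Agent.Lib_helper75.Miller.Notions
import Pool.Agent.Lib_helper75.BVM.TruthValues

/-!
Truth values of the notions about the real numbers.
-/

set_option autoImplicit false

universe u

namespace Pool.Agent.Miller

open Pool.Agent.BVM BSet

section

variable {B : Type u} [CompleteBooleanAlgebra B] (R add mul lt o i X Y x y z f s N a b : BSet B)

theorem hasTV_op : HasTV fun U => Op (Emem U) (cls U f) (cls U x) (cls U y) (cls U z) := by
  unfold Op
  exact HasTV.ex fun p => (hasTV_isPair p x y).and (hasTV_rel f p z)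

theorem hasTV_isSMZ :
    HasTV fun U => IsSMZ (Emem U) (cls U R) (cls U add) (cls U lt) (cls U o) (cls U X) := by
  unfold IsSMZ
  refine HasTV.all fun w => HasTV.all fun e => (hasTV_isOmega w).imp ((hasTV_isFun e w R).imp
    (HasTV.imp (HasTV.all fun n => HasTV.all fun r => (hasTV_rel e n r).imp (hasTV_rel lt o r))
      (HasTV.ex fun a => HasTV.ex fun b => (hasTV_isFun a w R).and ((hasTV_isFun b w R).and
        (HasTV.and ?_ ?_)))))
  · exact HasTV.all fun n => HasTV.all fun x => HasTV.all fun y => HasTV.all fun r =>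
      HasTV.all fun s => (hasTV_rel a n x).imp ((hasTV_rel b n y).imp ((hasTV_rel e n r).imp
        ((hasTV_op x r s add).imp (hasTV_rel lt y s))))
  · exact HasTV.all fun x => (HasTV.mem x X).imp (HasTV.ex fun n => HasTV.ex fun y =>
      HasTV.ex fun z => (hasTV_rel a n y).and ((hasTV_rel b n z).and ((hasTV_rel lt y x).and
        (hasTV_rel lt x z))))

theorem hasTV_isNwd : HasTV fun U => IsNwd (Emem U) (cls U R) (cls U lt) (cls U N) := by
  unfold IsNwd
  refine (hasTV_isSub N R).and (HasTV.all fun a => HasTV.all fun b => (HasTV.mem a R).imp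
    ((HasTV.mem b R).imp ((hasTV_rel lt a b).imp (HasTV.ex fun c => HasTV.ex fun d =>
      (HasTV.mem c R).and ((HasTV.mem d R).and ((hasTV_rel lt c d).and ?_))))))
  exact HasTV.all fun x => (HasTV.mem x R).imp ((hasTV_rel lt c x).imp ((hasTV_rel lt x d).imp
    ((hasTV_rel lt a x).and ((hasTV_rel lt x b).and (HasTV.mem x N).not))))

theorem hasTV_isMeager : HasTV fun U => IsMeager (Emem U) (cls U R) (cls U lt) (cls U X) := by
  unfold IsMeager
  refine HasTV.ex fun w => HasTV.ex fun f => (hasTV_isOmega w).and (HasTV.and ?_ ?_)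
  · exact HasTV.all fun n => (HasTV.mem n w).imp (HasTV.ex fun N => (hasTV_isNwd R lt N).and
      (HasTV.all fun N' => (hasTV_rel f n N').iff (HasTV.eq N' N)))
  · exact HasTV.all fun x => (HasTV.mem x X).imp (HasTV.ex fun n => HasTV.ex fun N =>
      (HasTV.mem n w).and ((hasTV_rel f n N).and (HasTV.mem x N)))

theorem hasTV_isSumSet :
    HasTV fun U => IsSumSet (Emem U) (cls U add) (cls U s) (cls U X) (cls U Y) := by
  unfold IsSumSet
  exact HasTV.all fun z => (HasTV.mem z s).iff (HasTV.ex fun x => HasTV.ex fun y =>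
    (HasTV.mem x X).and ((HasTV.mem y Y).and (hasTV_op x y z add)))

theorem hasTV_isMeagerAdditive :
    HasTV fun U => IsMeagerAdditive (Emem U) (cls U R) (cls U add) (cls U lt) (cls U X) := by
  unfold IsMeagerAdditive
  exact HasTV.all fun m => HasTV.all fun s => (hasTV_isSub m R).imp ((hasTV_isMeager R lt m).imp
    ((hasTV_isSumSet add X m s).imp (hasTV_isMeager R lt s)))

end

end Pool.Agent.Miller
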