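import Pool.Agent.Lib_helper75.Miller.StatH

/-!
The reading of nowhere dense sets.
-/

set_option autoImplicit false
set_option linter.unusedSectionVars false

universe u

namespace Pool.Agent.Miller

open Pool.Agent.BVM BSet

variable {W : Type u} [LinearOrder W] [WellFoundedLT W]

/-- The interval number `j` is disjoint from `N`. -/
def Disj (N : BSet (Bal W)) (j : ℕ) (V : UF (Bal W)) : Prop :=
  ∀ x, Emem V x (cls V (RN W)) → Rel (Emem V) (cls V (ltN W)) (cls V (cN W (loQ j))) x →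
    Rel (Emem V) (cls V (ltN W)) x (cls V (cN W (hiQ j))) → ¬ Emem V x (cls V N)

theorem hasTV_disj (N : BSet (Bal W)) (j : ℕ) : HasTV (Disj N j) :=
  HasTV.all fun x => (HasTV.mem x _).imp ((hasTV_rel _ _ x).imp ((hasTV_rel _ x _).imp
    (HasTV.mem x N).not))

/-- A rational interval between two real numbers. -/
theorem iUnion_between {f g : Pt W → ℝ} {z : Pt W} (h : f z < g z) :
    ∃ j, f z ≤ loQ j ∧ (hiQ j : ℝ) ≤ g z := by
  obtain ⟨p, hp1, hp2⟩ := exists_rat_btwn h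
  obtain ⟨q, hq1, hq2⟩ := exists_rat_btwn hp2
  have hpq : p < q := by exact_mod_cast hq1
  obtain ⟨j, hj1, hj2⟩ := exists_idx hpq
  exact ⟨j, by rw [hj1]; exact hp1.le, by rw [hj2]; exact hq2.le⟩

theorem exists_disj {N : BSet (Bal W)} {H : Cond W}
    (h : Forces H fun V => IsNwd (Emem V) (cls V (RN W)) (cls V (ltN W)) (cls V N)) (i : ℕ) :
    ∃ M j, loQ i ≤ loQ j ∧ hiQ j ≤ hiQ i ∧ Forces (H * M) (Disj N j) := by
  have hcm : ∀ q : ℚ, Measurable fun _ : Pt W => (q : ℝ) := fun q => measurable_const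
  have h1 : Forces H fun V => ∃ c, Emem V c (cls V (RN W)) ∧ ∃ d, Emem V d (cls V (RN W)) ∧
      Rel (Emem V) (cls V (ltN W)) c d ∧ ∀ x, Emem V x (cls V (RN W)) →
        Rel (Emem V) (cls V (ltN W)) c x → Rel (Emem V) (cls V (ltN W)) x d →
          Rel (Emem V) (cls V (ltN W)) (cls V (cN W (loQ i))) x ∧
          Rel (Emem V) (cls V (ltN W)) x (cls V (cN W (hiQ i))) ∧ ¬ Emem V x (cls V N) := by
    intro V hV
    obtain ⟨c, d, hc, hd, hcd, hx⟩ := (h V hV).2 _ _ (rN_mem (hcm (loQ i)) V)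
      (rN_mem (hcm (hiQ i)) V) ((rel_ltN (hcm _) (hcm _) V).mpr (bool_mem_of_forall V fun z => by
        exact_mod_cast loQ_lt_hiQ i))
    exact ⟨c, hc, d, hd, hcd, hx⟩
  obtain ⟨M1, f, hf, hM1⟩ := exists_forces_real (fun c => HasTV.ex fun d => (HasTV.mem d _).and
    ((hasTV_rel _ c d).and (HasTV.all fun x => (HasTV.mem x _).imp ((hasTV_rel _ c x).imp
      ((hasTV_rel _ x d).imp ((hasTV_rel _ _ x).and ((hasTV_rel _ x _).and
        (HasTV.mem x N).not))))))) h1
  obtain ⟨M2, g, hg, hM2⟩ := exists_forces_real (fun d =>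
    (hasTV_rel _ _ d).and (HasTV.all fun x => (HasTV.mem x _).imp ((hasTV_rel _ _ x).imp
      ((hasTV_rel _ x d).imp ((hasTV_rel _ _ x).and ((hasTV_rel _ x _).and
        (HasTV.mem x N).not)))))) hM1
  have h2 : Forces (H * M1 * M2) fun V => bool (⋃ j : ℕ, {z | f z ≤ loQ j} ∩
      {z | (hiQ j : ℝ) ≤ g z}) ∈ V := by
    intro V hV
    have h3 := (hM2 V hV).1
    rw [rel_ltN hf hg] at h3
    refine bool_mem_mono h3 fun z hz => ?_
    obtain ⟨j, hj⟩ := iUnion_between (show f z < g z from hz)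
    exact Set.mem_iUnion.mpr ⟨j, hj⟩
  rw [forces_bool, bool_iUnion fun j => (measurableSet_le hf (hcm _)).inter
    (measurableSet_le (hcm _) hg), frc_iSup] at h2
  obtain ⟨M3, j, hM3⟩ := h2 1
  rw [mul_one] at hM3
  have hT1 : Forces (H * M1 * M2 * M3) fun V => bool ({z | f z ≤ loQ j} ∩
      {z | (hiQ j : ℝ) ≤ g z}) ∈ V := forces_bool.mpr hM3
  have hT2 : ∀ V : UF (Bal W), cone (H * M1 * M2 * M3) ∈ V → ∀ x, Emem V x (cls V (RN W)) →
      Rel (Emem V) (cls V (ltN W)) (cls V (cN W (loQ j))) x →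
      Rel (Emem V) (cls V (ltN W)) x (cls V (cN W (hiQ j))) →
        Rel (Emem V) (cls V (ltN W)) (cls V (cN W (loQ i))) x ∧
        Rel (Emem V) (cls V (ltN W)) x (cls V (cN W (hiQ i))) ∧ ¬ Emem V x (cls V N) := by
    intro V hV x hx h4 h5
    refine forall_mem_RN (P := fun V x =>
      Rel (Emem V) (cls V (ltN W)) (cls V (cN W (loQ j))) x →
      Rel (Emem V) (cls V (ltN W)) x (cls V (cN W (hiQ j))) →
        Rel (Emem V) (cls V (ltN W)) (cls V (cN W (loQ i))) x ∧
        Rel (Emem V) (cls V (ltN W)) x (cls V (cN W (hiQ i))) ∧ ¬ Emem V x (cls V N))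
      (fun x => (hasTV_rel _ _ x).imp ((hasTV_rel _ x _).imp ((hasTV_rel _ _ x).and
        ((hasTV_rel _ x _).and (HasTV.mem x N).not)))) hV (fun k hk V hV h4 h5 => ?_) x hx h4 h5
    rw [rel_ltN (hcm _) hk] at h4
    rw [rel_ltN hk (hcm _)] at h5
    have h6 := hT1 V hV
    refine ((hM2.mul M3) V hV).2 _ (rN_mem hk V) ?_ ?_
    · rw [rel_ltN hf hk]
      exact bool_mem_mono (bool_inter_mem.mpr ⟨h6, h4⟩) fun z hz =>
        lt_of_le_of_lt (show f z ≤ loQ j from hz.1.1) (show (loQ j : ℝ) < k z from hz.2)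
    · rw [rel_ltN hk hg]
      exact bool_mem_mono (bool_inter_mem.mpr ⟨h6, h5⟩) fun z hz =>
        lt_of_lt_of_le (show k z < hiQ j from hz.2) (show (hiQ j : ℝ) ≤ g z from hz.1.2)
  have hT3 : ∀ q : ℚ, loQ j < q → q < hiQ j → loQ i < q ∧ q < hiQ i := by
    intro q hq1 hq2
    obtain ⟨V, hV⟩ := UF.exists_mem (cone_ne_bot (H * M1 * M2 * M3))
    obtain ⟨h4, h5, -⟩ := hT2 V hV _ (rN_mem (hcm q) V)
      ((rel_ltN (hcm _) (hcm _) V).mpr (bool_mem_of_forall V fun z => by exact_mod_cast hq1))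
      ((rel_ltN (hcm _) (hcm _) V).mpr (bool_mem_of_forall V fun z => by exact_mod_cast hq2))
    rw [rel_ltN (hcm _) (hcm _)] at h4 h5
    constructor
    · by_contra hcon
      exact bool_mem_false h4 fun z hz => hcon (by exact_mod_cast (show (loQ i : ℝ) < q from hz))
    · by_contra hcon
      exact bool_mem_false h5 fun z hz => hcon (by exact_mod_cast (show (q : ℝ) < hiQ i from hz))
  refine ⟨M1 * M2 * M3, j, ?_, ?_, ?_⟩
  · by_contra hcon
    push Not at hcon
    obtain ⟨q, hq1, hq2⟩ := exists_between (lt_min hcon (loQ_lt_hiQ j))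
    exact absurd (hT3 q hq1 (hq2.trans_le (min_le_right _ _))).1
      (not_lt.mpr (hq2.le.trans (min_le_left _ _)))
  · by_contra hcon
    push Not at hcon
    obtain ⟨q, hq1, hq2⟩ := exists_between (max_lt hcon (loQ_lt_hiQ j))
    exact absurd (hT3 q ((le_max_right _ _).trans_lt hq1) hq2).2
      (not_lt.mpr ((le_max_left _ _).trans hq1.le))
  · intro V hV x hx h4 h5
    have hV' : cone (H * M1 * M2 * M3) ∈ V := by
      rwa [← mul_assoc, ← mul_assoc] at hV
    exact (hT2 V hV' x hx h4 h5).2.2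

/-- The hole functions of countably many nowhere dense sets. -/
theorem exists_holes {N : ℕ → BSet (Bal W)} {H : Cond W}
    (h : ∀ n, Forces H fun V => IsNwd (Emem V) (cls V (RN W)) (cls V (ltN W)) (cls V (N n))) :
    ∃ K, ∃ g : ℕ → Pt W → ℕ → ℕ, (∀ n, Measurable (g n)) ∧ (∀ n z, IsHole (g n z)) ∧
      ∀ n f, Measurable f → Forces (H * K) fun V => Emem V (cls V (rN f)) (cls V (N n)) →
        bool {z | ∀ i, ¬ ((loQ (g n z i) : ℝ) < f z ∧ f z < hiQ (g n z i))} ∈ V := by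
  classical
  have hcm : ∀ q : ℚ, Measurable fun _ : Pt W => (q : ℝ) := fun q => measurable_const
  obtain ⟨K, hK⟩ := countable_choice (Y := ℕ) (fun m K h => ∀ j, Forces K fun V =>
      bool {z | h z = j} ∈ V → Disj (N m.unpair.1) j V)
    (fun m j => loQ m.unpair.2 ≤ loQ j ∧ hiQ j ≤ hiQ m.unpair.2)
    (fun m K L f h j => (h j).mul L)
    (fun m K f f' hff h j V hV hj => h j V hV <| bool_mem_mono
      (bool_inter_mem.mpr ⟨forces_bool_of_forall (A := {z | f z = f' z}) (H := K) hff V hV,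
        hj⟩) fun z hz => by
        simp only [Set.mem_inter_iff, Set.mem_ofPred_eq] at hz ⊢
        rw [hz.1, hz.2])
    (fun m K f h j => forces_of_dense ((hasTV_bool _).imp (hasTV_disj _ _)) fun L =>
      ⟨(h L).choose, (h L).choose_spec j⟩) H
    (fun m L => by
      obtain ⟨M, j, hj1, hj2, hM⟩ := exists_disj ((h m.unpair.1).mul L) m.unpair.2
      refine ⟨M, fun _ => j, measurable_const, fun _ => ⟨hj1, hj2⟩, fun j' V hV h1 => ?_⟩
      by_cases hjj : j = j'
      · rw [← hjj]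
        exact hM V hV
      · exact absurd h1 fun h1 => bool_mem_false h1 fun z hz => hjj hz)
  choose G hG hR hΦ using hK
  refine ⟨K, fun n z i => G (Nat.pair n i) z, fun n => measurable_pi_lambda _ fun i => hG _,
    fun n z i => ?_, fun n f hf V hV hfN => ?_⟩
  · have := hR (Nat.pair n i) z
    simpa using this
  · have h1 : {z | ∀ i, ¬ ((loQ (G (Nat.pair n i) z) : ℝ) < f z ∧
        f z < hiQ (G (Nat.pair n i) z))} = ⋂ m : ℕ, ({z | G (Nat.pair n m.unpair.1) z = m.unpair.2} ∩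
          ({z | (loQ m.unpair.2 : ℝ) < f z} ∩ {z | f z < hiQ m.unpair.2}))ᶜ := by
      ext z
      simp only [Set.mem_ofPred_eq, Set.mem_iInter, Set.mem_compl_iff, Set.mem_inter_iff]
      constructor
      · rintro h2 m ⟨h3, h4⟩
        apply h2 m.unpair.1
        rw [h3]
        exact h4
      · intro h2 i h3
        apply h2 (Nat.pair i (G (Nat.pair n i) z))
        simpa using h3
    have h2 : ∀ m : ℕ, MeasurableSet ({z | G (Nat.pair n m.unpair.1) z = m.unpair.2} ∩
          ({z | (loQ m.unpair.2 : ℝ) < f z} ∩ {z | f z < hiQ m.unpair.2})) := fun m =>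
      (hG _ (measurableSet_singleton _)).inter ((measurableSet_lt (hcm _) hf).inter
        (measurableSet_lt hf (hcm _)))
    rw [h1]
    refine iInter_intro (fun m => (h2 m).compl) (c := cone (H * K) ⊓ bmem (rN f) (N n))
      (V.inf_mem hV hfN) fun m V hc => ?_
    obtain ⟨hV, hfN⟩ := V.inf_mem_iff.mp hc
    rw [bool_compl_mem (h2 m), bool_inter_mem, bool_inter_mem]
    rintro ⟨h3, h4, h5⟩
    have h6 := hΦ (Nat.pair n m.unpair.1) m.unpair.2 V hV h3
    rw [Nat.unpair_pair] at h6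
    exact h6 _ (rN_mem hf V) ((rel_ltN (hcm _) hf V).mpr h4) ((rel_ltN hf (hcm _) V).mpr h5) hfN

end Pool.Agent.Miller
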