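import Pool.Agent.Lib_helper75.Miller.Factor

/-!
The main theorem about conditions: reading of open dense sets.
-/

set_option autoImplicit false
set_option linter.unusedSectionVars false

universe u v

namespace Pool.Agent.Miller

variable {W : Type u} [LinearOrder W]

/-! ### Fusion with abstract steps -/

section Abstract

theorem exists_enum (K : Cond W) : ∃ f : ℕ → Option W,
    (∀ β z, K.code β z ≠ id → ∃ k, f k = some β) ∧
      ∀ k β, f k = some β → ∃ z, K.code β z ≠ id := by
  rcases Set.eq_empty_or_nonempty {β | ∃ z, K.code β z ≠ id} with h | h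
  · refine ⟨fun _ => none, fun β z hz => ?_, fun k β h => by simp at h⟩
    have : β ∈ {β | ∃ z, K.code β z ≠ id} := ⟨z, hz⟩
    rw [h] at this
    exact absurd this (Set.notMem_empty _)
  · obtain ⟨f, hf⟩ := K.supp.exists_eq_range h
    refine ⟨fun k => some (f k), fun β z hz => ?_, fun k β h => ?_⟩
    · have : β ∈ {β | ∃ z, K.code β z ≠ id} := ⟨z, hz⟩
      rw [hf] at this
      obtain ⟨k, hk⟩ := this
      exact ⟨k, congrArg some hk⟩
    · have : β ∈ Set.range f := ⟨k, by simpa using h⟩
      rw [← hf] at this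
      exact this

/-- An enumeration of the support of a condition. -/
noncomputable def el (K : Cond W) : ℕ → Option W := (exists_enum K).choose

theorem el_surj {K : Cond W} {β : W} {z : Pt W} (h : K.code β z ≠ id) : ∃ k, el K k = some β :=
  (exists_enum K).choose_spec.1 β z h

theorem el_mem {K : Cond W} {β : W} {k : ℕ} (h : el K k = some β) : ∃ z, K.code β z ≠ id :=
  (exists_enum K).choose_spec.2 k β h

/-- The product of the first `m` conditions. -/
def prodC (K : ℕ → Cond W) : ℕ → Cond W
  | 0 => 1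
  | m + 1 => prodC K m * K m

theorem prodC_congr {K K' : ℕ → Cond W} {m : ℕ} (h : ∀ i < m, K i = K' i) :
    prodC K m = prodC K' m := by
  induction m with
  | zero => rfl
  | succ m ih =>
    rw [prodC, prodC, ih fun i hi => h i (by omega), h m (by omega)]

open Classical in
/-- The coordinates that are treated up to stage `m`. -/
noncomputable def fset (F0 : Finset W) (K : ℕ → Cond W) (m : ℕ) : Finset W :=
  F0 ∪ (Finset.range m).biUnion fun i => (el (K i.unpair.1) i.unpair.2).toFinset

theorem fset_congr {F0 : Finset W} {K K' : ℕ → Cond W} {m : ℕ} (h : ∀ i < m, K i = K' i) :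
    fset F0 K m = fset F0 K' m := by
  unfold fset
  congr 1
  refine Finset.biUnion_congr rfl fun i hi => ?_
  rw [h _ (lt_of_le_of_lt (Nat.unpair_left_le i) (Finset.mem_range.mp hi))]

theorem fset_mono (F0 : Finset W) (K : ℕ → Cond W) : Monotone (fset F0 K) := by
  intro m m' h
  unfold fset
  refine Finset.union_subset_union_right (Finset.biUnion_subset_biUnion_of_subset_left _ ?_)
  exact Finset.range_mono h

theorem card_fset (F0 : Finset W) (K : ℕ → Cond W) (m : ℕ) :
    (fset F0 K m).card ≤ F0.card + m := by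
  classical
  unfold fset
  refine (Finset.card_union_le _ _).trans (Nat.add_le_add_left ?_ _)
  refine (Finset.card_biUnion_le).trans ?_
  calc ∑ i ∈ Finset.range m, (el (K i.unpair.1) i.unpair.2).toFinset.card
      ≤ ∑ i ∈ Finset.range m, 1 := by
        refine Finset.sum_le_sum fun i _ => ?_
        rcases el (K i.unpair.1) i.unpair.2 with _ | a <;> simp
    _ = m := by simp

theorem mem_fset_of_supp (F0 : Finset W) (K : ℕ → Cond W) {i : ℕ} {β : W} {z : Pt W}
    (h : (K i).code β z ≠ id) : ∃ j, β ∈ fset F0 K j := by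
  classical
  obtain ⟨k, hk⟩ := el_surj h
  refine ⟨Nat.pair i k + 1, ?_⟩
  unfold fset
  refine Finset.mem_union_right _ (Finset.mem_biUnion.mpr ⟨Nat.pair i k, by simp, ?_⟩)
  simp [hk]

theorem fset_subset {I : Set W} {F0 : Finset W} (hF0 : ∀ β ∈ F0, β ∈ I) {K : ℕ → Cond W} {m : ℕ}
    (hK : ∀ i < m, (K i).In I) : ∀ β ∈ fset F0 K m, β ∈ I := by
  classical
  intro β hβ
  unfold fset at hβ
  rcases Finset.mem_union.mp hβ with h | h
  · exact hF0 β h
  · obtain ⟨i, hi, h⟩ := Finset.mem_biUnion.mp h
    have h1 : el (K i.unpair.1) i.unpair.2 = some β := by simpa using h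
    obtain ⟨z, hz⟩ := el_mem h1
    by_contra hβI
    exact hz (hK _ (lt_of_le_of_lt (Nat.unpair_left_le i) (Finset.mem_range.mp hi)) β hβI z)

theorem in_prodC {I : Set W} {K : ℕ → Cond W} {m : ℕ} (hK : ∀ i < m, (K i).In I) :
    (prodC K m).In I := by
  induction m with
  | zero => exact Cond.in_one I
  | succ m ih =>
    exact (ih fun i hi => hK i (by omega)).mul (hK m (by omega))

variable [WellFoundedLT W]

/-- Fusion with abstract steps. -/
theorem fusion_abstract {I : Set W} (Φ : ℕ → Cond W → Prop)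
    (hmul : ∀ m P L, P.In I → Cond.In I L → Φ m P → Φ m (P * L))
    (F0 : Finset W) (hF0 : ∀ β ∈ F0, β ∈ I) (n0 : ℕ)
    (hstep : ∀ (m : ℕ) (F : Finset W) (P : Cond W), (∀ β ∈ F, β ∈ I) → F.card ≤ F0.card + m →
      P.In I → ∃ K : Cond W, K.In I ∧ Fix F (n0 + m) K ∧ Φ m (P * K)) :
    ∃ K : Cond W, K.In I ∧ Fix F0 n0 K ∧ ∀ m, Φ m K := by
  classical
  choose! ks hks using hstep
  let next : ℕ → (ℕ → Cond W) → Cond W := fun m h => ks m (fset F0 h m) (prodC h m)
  let S : ℕ → ℕ → Cond W := fun m => Nat.rec (fun _ => 1)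
    (fun m h => Function.update h m (next m h)) m
  have hS : ∀ m, S (m + 1) = Function.update (S m) m (next m (S m)) := fun m => rfl
  let K : ℕ → Cond W := fun m => next m (S m)
  have hSK : ∀ m i, i < m → S m i = K i := by
    intro m
    induction m with
    | zero => intro i hi; omega
    | succ m ih =>
      intro i hi
      rw [hS]
      rcases Nat.lt_succ_iff_lt_or_eq.mp hi with h | h
      · rw [Function.update_of_ne (by omega), ih i h]
      · subst h
        rw [Function.update_self]
  have hK : ∀ m, K m = ks m (fset F0 K m) (prodC K m) := by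
    intro m
    show ks m (fset F0 (S m) m) (prodC (S m) m) = _
    rw [fset_congr (hSK m), prodC_congr (hSK m)]
  have hin : ∀ m, ∀ i < m, (K i).In I := by
    intro m
    induction m with
    | zero => intro i hi; omega
    | succ m ih =>
      intro i hi
      rcases Nat.lt_succ_iff_lt_or_eq.mp hi with h | h
      · exact ih i h
      · subst h
        rw [hK]
        exact (hks i _ _ (fset_subset hF0 ih) (card_fset _ _ _) (in_prodC ih)).1
  have hin' : ∀ i, (K i).In I := fun i => hin (i + 1) i (Nat.lt_succ_self i)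
  have hspec : ∀ m, Fix (fset F0 K m) (n0 + m) (K m) ∧ Φ m (prodC K m * K m) := by
    intro m
    have h1 := hks m (fset F0 K m) (prodC K m) (fset_subset hF0 (hin m)) (card_fset _ _ _)
      (in_prodC (hin m))
    rw [← hK] at h1
    exact h1.2
  obtain ⟨L, hL1, hL2, hL3⟩ := exists_fusion K hin' (fset F0 K) (fun m => n0 + m)
    (fset_mono F0 K) (fun a b h => by simpa using h) (fun i => by simp)
    (fun i => (hspec i).1) (fun i β z hz => mem_fset_of_supp F0 K hz)
  have hprod : ∀ m, L 0 = prodC K m * L m := by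
    intro m
    induction m with
    | zero => rw [prodC, one_mul]
    | succ m ih => rw [ih, hL1 m, prodC, mul_assoc]
  refine ⟨L 0, hL2 0, ?_, fun m => ?_⟩
  · have h1 := hL3 0
    refine h1.mono ?_ (by simp)
    unfold fset
    exact Finset.subset_union_left
  · rw [hprod (m + 1)]
    exact hmul m _ _ (in_prodC (hin (m + 1))) (hL2 (m + 1)) (hspec m).2

end Abstract

/-- The conclusion of the main theorem. -/
def Readable (I : Set W) (F : Finset W) (n : ℕ) (D : ℕ → Set (Cond W)) : Prop :=
  ∃ K : Cond W, K.In I ∧ Fix F n K ∧ ∃ j : Pt W → ℕ, Measurable j ∧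
    (∀ γ, (∀ β ∈ F, β ≤ γ) → ∀ z z', Agree γ z z' →
      firstNew n (z γ) = firstNew n (z' γ) → j z = j z') ∧
    (∀ J : Set W, (∀ β ∈ F, β ∈ J) → IsLowerSet J → ∀ z z' : Pt W,
      (∀ α ∈ J, z α = z' α) → j z = j z') ∧
    ∀ i, Reads I K {z | j z = i} (D i)

theorem Reads.of_empty {I : Set W} (K : Cond W) {D : Set (Cond W)} (hD : DenseIn I D) :
    Reads I K ∅ D := by
  obtain ⟨L, hL, hLD⟩ := hD 1 (Cond.in_one I)
  rw [one_mul] at hLD
  exact ⟨L, hLD, hL, _, Factor.empty I K L⟩

theorem readable_empty (I : Set W) (n : ℕ) (D : ℕ → Set (Cond W)) (hd : ∀ i, DenseIn I (D i)) :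
    Readable I ∅ n D := by
  obtain ⟨L, hL, hLD⟩ := hd 0 1 (Cond.in_one I)
  rw [one_mul] at hLD
  refine ⟨L, hL, fun β hβ => by simp at hβ, fun _ => 0, measurable_const,
    fun _ _ _ _ _ _ => rfl, fun _ _ _ _ _ _ => rfl, fun i => ?_⟩
  by_cases hi : i = 0
  · subst hi
    exact ⟨L, hLD, hL, _, Factor.refl I L _⟩
  · have h1 : {z : Pt W | (fun _ => 0 : Pt W → ℕ) z = i} = ∅ := by
      ext z
      simp [Ne.symm hi]
    rw [h1]
    exact Reads.of_empty L (hd i)

theorem Reads.comp {I : Set W} {K L : Cond W} {P : Set (Pt W)} {D : Set (Cond W)}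
    (h : Reads I K P D) (hL : L.In I) : Reads I (K * L) {z | L.eval z ∈ P} D := by
  obtain ⟨H, hH, hHI, l, hl⟩ := h
  exact ⟨H, hH, hHI, _, hl.comp hL⟩

section Omega

variable [WellFoundedLT W]

/-- Reading of countably many sequences of open dense sets, if single sequences can be read. -/
theorem readable_omega {I : Set W} (hI : IsLowerSet I)
    (h : ∀ (F : Finset W) (n : ℕ) (D : ℕ → Set (Cond W)), (∀ β ∈ F, β ∈ I) → 0 < n →
      (∀ i, DenseIn I (D i)) → (∀ i, OpenIn I (D i)) → Readable I F n D)
    (F : Finset W) (hF : ∀ β ∈ F, β ∈ I) (n : ℕ) (hn : 0 < n) (D : ℕ → ℕ → Set (Cond W))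
    (hd : ∀ m i, DenseIn I (D m i)) (ho : ∀ m i, OpenIn I (D m i)) :
    ∃ K : Cond W, K.In I ∧ Fix F n K ∧ ∀ m, ∃ j : Pt W → ℕ, Measurable j ∧
      (∀ z z' : Pt W, (∀ α ∈ I, z α = z' α) → j z = j z') ∧
      ∀ i, Reads I K {z | j z = i} (D m i) := by
  refine fusion_abstract (fun m K => ∃ j : Pt W → ℕ, Measurable j ∧
      (∀ z z' : Pt W, (∀ α ∈ I, z α = z' α) → j z = j z') ∧
      ∀ i, Reads I K {z | j z = i} (D m i)) ?_ F hF n ?_
  · rintro m P L hP hL ⟨j, hj1, hj2, hj3⟩
    refine ⟨fun z => j (L.eval z), hj1.comp L.measurable_eval, fun z z' hz => ?_, fun i =>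
      (hj3 i).comp hL⟩
    refine hj2 _ _ fun α hα => ?_
    rw [Cond.eval_apply, Cond.eval_apply, hz α hα,
      L.dep α z z' fun β hβ => hz β (hI hβ.le hα)]
  · intro m F' P hF' _ hP
    let D' : ℕ → Set (Cond W) := fun i => {H | P * H ∈ D m i}
    have hd' : ∀ i, DenseIn I (D' i) := by
      intro i H hH
      obtain ⟨L, hL, hLD⟩ := hd m i (P * H) (hP.mul hH)
      refine ⟨L, hL, ?_⟩
      show P * (H * L) ∈ D m i
      rwa [← mul_assoc]
    have ho' : ∀ i, OpenIn I (D' i) := by
      intro i H hH L hL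
      show P * (H * L) ∈ D m i
      rw [← mul_assoc]
      exact ho m i _ hH L hL
    obtain ⟨K, hK1, hK2, j, hj1, -, hj3, hj4⟩ := h F' (n + m) D' hF' (by omega) hd' ho'
    refine ⟨K, hK1, hK2, j, hj1, hj3 I hF' hI, fun i => ?_⟩
    obtain ⟨H, hH, hHI, l, hl⟩ := hj4 i
    exact ⟨P * H, hH, hP.mul hHI, l, hl.mul_left P⟩

/-- The main theorem: reading of a sequence of open dense sets. -/
theorem readable_aux (γ : W) : ∀ (I : Set W), IsLowerSet I → ∀ (F : Finset W) (n : ℕ)
    (D : ℕ → Set (Cond W)), (∀ β ∈ F, β ∈ I ∧ β ≤ γ) → 0 < n →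
      (∀ i, DenseIn I (D i)) → (∀ i, OpenIn I (D i)) → Readable I F n D := by
  classical
  induction γ using WellFoundedLT.induction with
  | ind γ ih =>
    intro I hI F n D hF hn hd ho
    rcases F.eq_empty_or_nonempty with rfl | hne
    · exact readable_empty I n D hd
    set γ0 := F.max' hne with hγ0
    have hγ0F : γ0 ∈ F := F.max'_mem hne
    have hγ0I : γ0 ∈ I := (hF γ0 hγ0F).1
    have hγ0le : γ0 ≤ γ := (hF γ0 hγ0F).2
    have hFle : ∀ β ∈ F, β ≤ γ0 := fun β hβ => F.le_max' β hβ
    -- the induction hypothesis for the coordinates below `γ0`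
    have hlow : ∀ (F : Finset W) (n : ℕ) (D : ℕ → Set (Cond W)), (∀ β ∈ F, β ∈ Set.Iio γ0) →
        0 < n → (∀ i, DenseIn (Set.Iio γ0) (D i)) → (∀ i, OpenIn (Set.Iio γ0) (D i)) →
        Readable (Set.Iio γ0) F n D := by
      intro F n D hF hn hd ho
      rcases F.eq_empty_or_nonempty with rfl | hne
      · exact readable_empty _ n D hd
      · have h1 : F.max' hne < γ := lt_of_lt_of_le (hF _ (F.max'_mem hne)) hγ0le
        exact ih _ h1 _ (isLowerSet_Iio γ0) F n D (fun β hβ => ⟨hF β hβ, F.le_max' β hβ⟩) hn hd ho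
    let nd : ℕ → Node := fun m => Denumerable.ofNat Node m
    have hnd : ∀ N : Node, nd (Encodable.encode N) = N := fun N => Denumerable.ofNat_encode N
    let D' : ℕ → ℕ → Set (Cond W) := fun m i => {H | IsNew n (nd m) →
      ∃ T : Cond W, T.In (Set.Iio γ0)ᶜ ∧ T.In I ∧ H * Cond.stem γ0 (nd m) * T ∈ D (Nat.pair m i)}
    have hIio : Set.Iio γ0 ⊆ I := fun α hα => hI (le_of_lt hα) hγ0I
    have hstemI : ∀ N, (Cond.stem γ0 N).In I := fun N =>
      (Cond.in_stem γ0 N).mono (by simpa using hγ0I)
    have hstemc : ∀ N, (Cond.stem γ0 N).In (Set.Iio γ0)ᶜ := fun N =>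
      (Cond.in_stem γ0 N).mono (by simp)
    have hcomm : ∀ N (L : Cond W), L.In (Set.Iio γ0) →
        Cond.stem γ0 N * L = L * Cond.stem γ0 N := by
      intro N L hL
      rw [← Cond.mul_pull (isLowerSet_Iio γ0) hL (hstemc N)]
      congr 1
    have hd' : ∀ m i, DenseIn (Set.Iio γ0) (D' m i) := by
      intro m i H hH
      obtain ⟨L, hL, hLD⟩ := hd (Nat.pair m i) (H * Cond.stem γ0 (nd m))
        ((hH.mono hIio).mul (hstemI _))
      refine ⟨L.restrict (Set.Iio γ0), L.in_restrict _, fun _ =>
        ⟨L.restrict (Set.Iio γ0)ᶜ, L.in_restrict _, ?_, ?_⟩⟩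
      · intro β hβ z
        by_cases h : β ∈ (Set.Iio γ0)ᶜ
        · rw [L.restrict_code_of_mem h]
          exact hL β hβ z
        · exact L.restrict_code_of_notMem h z
      · rw [L.eq_restrict_mul (isLowerSet_Iio γ0)] at hLD
        rw [mul_assoc H (L.restrict _), ← hcomm _ _ (L.in_restrict _)]
        convert hLD using 1
        simp only [mul_assoc]
    have ho' : ∀ m i, OpenIn (Set.Iio γ0) (D' m i) := by
      intro m i H hH L hL hm
      obtain ⟨T, hT1, hT2, hT3⟩ := hH hm
      refine ⟨T.pull L, hT1.pull L, hT2.pull L, ?_⟩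
      have h1 := ho _ _ hT3 L (hL.mono hIio)
      convert h1 using 1
      rw [mul_assoc _ T L, ← Cond.mul_pull (isLowerSet_Iio γ0) hL hT1]
      simp only [mul_assoc]
      rw [← mul_assoc (Cond.stem γ0 (nd m)) L, hcomm _ _ hL]
      simp only [mul_assoc]
    obtain ⟨J, hJ1, hJ2, hj⟩ := readable_omega (isLowerSet_Iio γ0) hlow (F.filter (· < γ0))
      (fun β hβ => by simpa using (Finset.mem_filter.mp hβ).2) n hn D' hd' ho'
    choose j hj1 hj2 hj3 using hj
    choose H hHD hHI l hl using hj3
    have hT : ∀ m i, ∃ T : Cond W, T.In (Set.Iio γ0)ᶜ ∧ T.In I ∧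
        (IsNew n (nd m) → H m i * Cond.stem γ0 (nd m) * T ∈ D (Nat.pair m i)) := by
      intro m i
      by_cases hm : IsNew n (nd m)
      · obtain ⟨T, h1, h2, h3⟩ := hHD m i hm
        exact ⟨T, h1, h2, fun _ => h3⟩
      · exact ⟨1, Cond.in_one _, Cond.in_one _, fun h => absurd h hm⟩
    choose T hT1 hT2 hT3 using hT
    let G : GlueData W := {
      I := I
      γ := γ0
      n := n
      hn := hn
      J := J
      hJ := hJ1
      T := fun N i => T (Encodable.encode N) i
      hT := fun N i => hT1 _ _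
      hT' := fun N i => hT2 _ _
      l := fun N i => l (Encodable.encode N) i
      hl := fun N i => (hl _ _).meas
      j := fun N => j (Encodable.encode N)
      hj := fun N => hj1 _
      hj' := fun N z z' h => hj2 _ z z' fun α hα => h α hα
      hlj := fun N i z z' h h' β hβ => (hl _ _).agree β z z' h h' hβ }
    let jt : Pt W → ℕ := fun z => Nat.pair (Encodable.encode (firstNew n (z γ0)))
      (j (Encodable.encode (firstNew n (z γ0))) z)
    have hfn : Measurable fun z : Pt W => firstNew n (z γ0) :=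
      measurable_firstNew hn (measurable_pi_apply γ0)
    refine ⟨G.glued, G.in_glued hI hγ0I, ?_, jt, ?_, ?_, ?_, ?_⟩
    · refine G.fix_glued hFle ?_
      convert hJ2 using 2
    · refine measurable_comp_countable (f := fun z (N : Node) =>
        Nat.pair (Encodable.encode N) (j (Encodable.encode N) z)) (fun N => ?_) hfn
      exact (measurable_from_nat (f := fun i => Nat.pair (Encodable.encode N) i)).comp (hj1 _)
    · intro γ1 hγ1 z z' hz hz'
      have h1 : γ0 ≤ γ1 := hγ1 γ0 hγ0F
      have h2 : firstNew n (z γ0) = firstNew n (z' γ0) := by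
        rcases lt_or_eq_of_le h1 with h | h
        · rw [hz γ0 h]
        · rw [h]; exact hz'
      show Nat.pair _ _ = Nat.pair _ _
      rw [h2, hj2 _ z z' fun α hα => hz α (lt_of_lt_of_le hα h1)]
    · intro Q hFQ hQ z z' hz
      have h1 := hz γ0 (hFQ γ0 hγ0F)
      show Nat.pair _ _ = Nat.pair _ _
      rw [h1, hj2 _ z z' fun α hα => hz α (hQ (le_of_lt hα) (hFQ γ0 hγ0F))]
    · intro k
      by_cases hk : IsNew n (nd k.unpair.1)
      · have hset : {z | jt z = k} = {z | firstNew G.n (z G.γ) = nd k.unpair.1 ∧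
            G.j (nd k.unpair.1) z = k.unpair.2} := by
          ext z
          show Nat.pair _ _ = k ↔ firstNew n (z γ0) = nd k.unpair.1 ∧
            j (Encodable.encode (nd k.unpair.1)) z = k.unpair.2
          constructor
          · intro h
            have h1 : nd k.unpair.1 = firstNew n (z γ0) := by
              rw [← h, Nat.unpair_pair]
              exact hnd _
            refine ⟨h1.symm, ?_⟩
            rw [h1]
            conv_rhs => rw [← h, Nat.unpair_pair]
          · rintro ⟨h1, h2⟩
            rw [h1, h2]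
            show Nat.pair (Encodable.encode (Denumerable.ofNat Node k.unpair.1)) _ = k
            rw [Denumerable.encode_ofNat, Nat.pair_unpair]
        rw [hset]
        have henc : Encodable.encode (nd k.unpair.1) = k.unpair.1 :=
          Denumerable.encode_ofNat _
        have h3 := G.factor_glued hI hγ0I hk (i := k.unpair.2) (H := H k.unpair.1 k.unpair.2)
          (hHI _ _) (by
            show Factor (Set.Iio γ0) J {z | j (Encodable.encode (nd k.unpair.1)) z = k.unpair.2}
              (H k.unpair.1 k.unpair.2) (l (Encodable.encode (nd k.unpair.1)) k.unpair.2)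
            rw [henc]
            exact hl _ _)
        refine ⟨_, ?_, ?_, _, h3⟩
        · show H k.unpair.1 k.unpair.2 * Cond.stem γ0 (nd k.unpair.1) *
            T (Encodable.encode (nd k.unpair.1)) k.unpair.2 ∈ D k
          rw [henc]
          have h4 := hT3 k.unpair.1 k.unpair.2 hk
          rwa [Nat.pair_unpair] at h4
        · refine (((hHI _ _).mono hIio).mul (hstemI _)).mul ?_
          show (T (Encodable.encode (nd k.unpair.1)) k.unpair.2).In I
          exact hT2 _ _
      · have h1 : {z | jt z = k} = ∅ := by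
          ext z
          simp only [Set.mem_ofPred_eq, Set.mem_empty_iff_false, iff_false]
          intro h
          apply hk
          rw [← h]
          show IsNew n (nd (Nat.unpair (Nat.pair _ _)).1)
          rw [Nat.unpair_pair]
          show IsNew n (nd (Encodable.encode _))
          rw [hnd]
          exact isNew_firstNew hn _
        rw [h1]
        exact Reads.of_empty _ (hd k)

/-- The main theorem: reading of a sequence of open dense sets. -/
theorem readable {I : Set W} (hI : IsLowerSet I) (F : Finset W) (hF : ∀ β ∈ F, β ∈ I) (n : ℕ)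
    (hn : 0 < n) (D : ℕ → Set (Cond W)) (hd : ∀ i, DenseIn I (D i)) (ho : ∀ i, OpenIn I (D i)) :
    Readable I F n D := by
  rcases F.eq_empty_or_nonempty with rfl | hne
  · exact readable_empty I n D hd
  · exact readable_aux (F.max' hne) I hI F n D (fun β hβ => ⟨hF β hβ, F.le_max' β hβ⟩) hn hd ho

/-- Reading of countably many sequences of open dense sets. -/
theorem readable_all {I : Set W} (hI : IsLowerSet I)
    (F : Finset W) (hF : ∀ β ∈ F, β ∈ I) (n : ℕ) (hn : 0 < n) (D : ℕ → ℕ → Set (Cond W))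
    (hd : ∀ m i, DenseIn I (D m i)) (ho : ∀ m i, OpenIn I (D m i)) :
    ∃ K : Cond W, K.In I ∧ Fix F n K ∧ ∀ m, ∃ j : Pt W → ℕ, Measurable j ∧
      (∀ z z' : Pt W, (∀ α ∈ I, z α = z' α) → j z = j z') ∧
      ∀ i, Reads I K {z | j z = i} (D m i) :=
  readable_omega hI (fun F n D hF hn hd ho => readable hI F hF n hn D hd ho) F hF n hn D hd ho

end Omega

end Pool.Agent.Miller
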