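import Pool.Agent.Lib_helper75.Miller.RealNames

/-!
The names for the real numbers form a complete ordered field.
-/

set_option autoImplicit false
set_option linter.unusedSectionVars false

universe u

namespace Pool.Agent.Miller

open Pool.Agent.BVM BSet

variable {W : Type u} [LinearOrder W] [WellFoundedLT W]

/-! ### Boolean combinations -/

theorem bool_union_mem {A A' : Set (Pt W)} (hA : MeasurableSet A) (hA' : MeasurableSet A')
    {V : UF (Bal W)} : bool (A ∪ A') ∈ V ↔ bool A ∈ V ∨ bool A' ∈ V := by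
  rw [← not_iff_not, ← bool_compl_mem (hA.union hA'), Set.compl_union, bool_inter,
    V.inf_mem_iff, bool_compl_mem hA, bool_compl_mem hA']
  tauto

theorem bool_inter_mem {A A' : Set (Pt W)} {V : UF (Bal W)} :
    bool (A ∩ A') ∈ V ↔ bool A ∈ V ∧ bool A' ∈ V := by
  rw [bool_inter, V.inf_mem_iff]

theorem bool_mem_mono {A A' : Set (Pt W)} {V : UF (Bal W)} (h : bool A ∈ V) (hA : A ⊆ A') :
    bool A' ∈ V := V.mono h (bool_mono hA)

theorem bool_mem_of_forall {A : Set (Pt W)} (V : UF (Bal W)) (h : ∀ z, z ∈ A) : bool A ∈ V := by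
  rw [show A = Set.univ from Set.eq_univ_of_forall h, bool_univ]
  exact V.top_mem

theorem bool_mem_false {A : Set (Pt W)} {V : UF (Bal W)} (h : bool A ∈ V) (hA : ∀ z, z ∉ A) :
    False := by
  rw [show A = ∅ from Set.eq_empty_of_forall_notMem hA, bool_empty] at h
  exact V.bot_notMem h

theorem iUnion_elim {P : UF (Bal W) → Prop} (hP : HasTV P) {A : ℕ → Set (Pt W)}
    (hA : ∀ n, MeasurableSet (A n)) {c : Bal W} {V : UF (Bal W)} (hc : c ∈ V)
    (hV : bool (⋃ n, A n) ∈ V) (h : ∀ n (V : UF (Bal W)), c ∈ V → bool (A n) ∈ V → P V) :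
    P V := by
  obtain ⟨b, hb⟩ := hP
  rw [hb]
  refine V.mono (V.inf_mem hc hV) ?_
  rw [bool_iUnion hA, inf_iSup_eq]
  refine iSup_le fun n => UF.le_of_forall fun V hV => ?_
  rw [← hb]
  exact h n V (V.inf_mem_iff.mp hV).1 (V.inf_mem_iff.mp hV).2

theorem iInter_intro {A : ℕ → Set (Pt W)} (hA : ∀ n, MeasurableSet (A n)) {c : Bal W}
    {V : UF (Bal W)} (hc : c ∈ V) (h : ∀ n (V : UF (Bal W)), c ∈ V → bool (A n) ∈ V) :
    bool (⋂ n, A n) ∈ V := by
  refine V.mono hc ?_
  rw [bool_iInter hA]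
  exact le_iInf fun n => UF.le_of_forall fun V hV => h n V hV

theorem HasTV.const (p : Prop) : HasTV fun _ : UF (Bal W) => p := by
  by_cases h : p
  · exact ⟨⊤, fun V => by simp [h, V.top_mem]⟩
  · exact ⟨⊥, fun V => by simp [h, V.bot_notMem]⟩

theorem hasTV_bool (A : Set (Pt W)) : HasTV fun V : UF (Bal W) => bool A ∈ V :=
  ⟨bool A, fun _ => Iff.rfl⟩

/-- An implication holds in all the models if it holds in a dense set of extensions. -/
theorem imp_of_dense {P Q : UF (Bal W) → Prop} (hP : HasTV P) (hQ : HasTV Q)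
    (h : ∀ H : Cond W, Forces H P → ∃ L, Forces (H * L) Q) (V : UF (Bal W)) (hV : P V) : Q V := by
  refine forall_of_dense (hP.imp hQ) (fun H => ?_) V hV
  obtain ⟨L, hL | hL⟩ := forces_em hP H
  · obtain ⟨M, hM⟩ := h _ hL
    exact ⟨L * M, by rw [← mul_assoc]; exact hM.mono fun V hV _ => hV⟩
  · exact ⟨L, hL.mono fun V hV hV' => absurd hV' hV⟩

/-! ### Quantifiers over the real numbers -/

theorem forall_RN {P : ∀ V : UF (Bal W), Mod V → Prop}
    (hP : ∀ x : BSet (Bal W), HasTV fun V => P V (cls V x))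
    (h : ∀ (f : Pt W → ℝ) (_ : Measurable f) (V : UF (Bal W)), P V (cls V (rN f)))
    (V : UF (Bal W)) (x : Mod V) (hx : Emem V x (cls V (RN W))) : P V x :=
  forall_mem_RN hP V.top_mem (fun f hf V _ => h f hf V) x hx

theorem forall_RN₂ {P : ∀ V : UF (Bal W), Mod V → Mod V → Prop}
    (hP : ∀ x y : BSet (Bal W), HasTV fun V => P V (cls V x) (cls V y))
    (h : ∀ (f : Pt W → ℝ) (_ : Measurable f) (g : Pt W → ℝ) (_ : Measurable g)
      (V : UF (Bal W)), P V (cls V (rN f)) (cls V (rN g)))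
    (V : UF (Bal W)) (x y : Mod V) (hx : Emem V x (cls V (RN W)))
    (hy : Emem V y (cls V (RN W))) : P V x y := by
  refine forall_RN (P := fun V x => ∀ y, Emem V y (cls V (RN W)) → P V x y)
    (fun x => HasTV.all fun y => (HasTV.mem y _).imp (hP x y)) (fun f hf V y hy => ?_) V x hx y hy
  exact forall_RN (P := fun V y => P V (cls V (rN f)) y) (fun y => hP _ y)
    (fun g hg V => h f hf g hg V) V y hy

theorem forall_RN₃ {P : ∀ V : UF (Bal W), Mod V → Mod V → Mod V → Prop}
    (hP : ∀ x y z : BSet (Bal W), HasTV fun V => P V (cls V x) (cls V y) (cls V z))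
    (h : ∀ (f : Pt W → ℝ) (_ : Measurable f) (g : Pt W → ℝ) (_ : Measurable g) (k : Pt W → ℝ)
      (_ : Measurable k) (V : UF (Bal W)), P V (cls V (rN f)) (cls V (rN g)) (cls V (rN k)))
    (V : UF (Bal W)) (x y z : Mod V) (hx : Emem V x (cls V (RN W)))
    (hy : Emem V y (cls V (RN W))) (hz : Emem V z (cls V (RN W))) : P V x y z := by
  refine forall_RN₂ (P := fun V x y => ∀ z, Emem V z (cls V (RN W)) → P V x y z)
    (fun x y => HasTV.all fun z => (HasTV.mem z _).imp (hP x y z))
    (fun f hf g hg V z hz => ?_) V x y hx hy z hz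
  exact forall_RN (P := fun V z => P V (cls V (rN f)) (cls V (rN g)) z) (fun z => hP _ _ z)
    (fun k hk V => h f hf g hg k hk V) V z hz

theorem exists_forces_real {P : ∀ V : UF (Bal W), Mod V → Prop} {H : Cond W}
    (hP : ∀ x : BSet (Bal W), HasTV fun V => P V (cls V x))
    (h : Forces H fun V => ∃ x, Emem V x (cls V (RN W)) ∧ P V x) :
    ∃ L, ∃ f : Pt W → ℝ, Measurable f ∧ Forces (H * L) fun V => P V (cls V (rN f)) := by
  obtain ⟨L, i, hi⟩ := exists_forces_mem hP h
  exact ⟨L, (show MFn W from i).1, (show MFn W from i).2, hi.mono fun V h => h.2⟩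

/-! ### The field axioms -/

theorem isOp_opN {φ : ℝ → ℝ → ℝ} (hφ : Measurable fun p : ℝ × ℝ => φ p.1 p.2) (V : UF (Bal W)) :
    IsOp (Emem V) (cls V (opN φ)) (cls V (RN W)) := by
  intro x y hx hy
  refine forall_RN₂ (P := fun V x y => ∃ z, Emem V z (cls V (RN W)) ∧
    ∀ z', Op (Emem V) (cls V (opN φ)) x y z' ↔ z' = z) (fun x y => HasTV.ex fun z =>
      (HasTV.mem z _).and (HasTV.all fun z' => (hasTV_op x y z' _).iff (HasTV.eq z' z)))
    (fun f hf g hg V => ?_) V x y hx hy
  exact ⟨_, rN_mem (hφ.comp (hf.prodMk hg)) V, fun z' => op_opN hφ hf hg V z'⟩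

section Fields

variable (V : UF (Bal W))

theorem field_comm {φ : ℝ → ℝ → ℝ} (hφ : Measurable fun p : ℝ × ℝ => φ p.1 p.2)
    (hc : ∀ a b, φ a b = φ b a) (x y z : Mod V) (hx : Emem V x (cls V (RN W)))
    (hy : Emem V y (cls V (RN W))) (h : Op (Emem V) (cls V (opN φ)) x y z) :
    Op (Emem V) (cls V (opN φ)) y x z := by
  refine forall_RN₂ (P := fun V x y => ∀ z, Op (Emem V) (cls V (opN φ)) x y z →
    Op (Emem V) (cls V (opN φ)) y x z) (fun x y => HasTV.all fun z => (hasTV_op x y z _).imp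
      (hasTV_op y x z _)) (fun f hf g hg V z h => ?_) V x y hx hy z h
  rw [op_opN hφ hf hg] at h
  rw [op_opN hφ hg hf, h]
  simp only [hc]

theorem field_assoc {φ : ℝ → ℝ → ℝ} (hφ : Measurable fun p : ℝ × ℝ => φ p.1 p.2)
    (hc : ∀ a b c, φ (φ a b) c = φ a (φ b c)) (x y z u v w : Mod V)
    (hx : Emem V x (cls V (RN W))) (hy : Emem V y (cls V (RN W))) (hz : Emem V z (cls V (RN W)))
    (h1 : Op (Emem V) (cls V (opN φ)) x y u) (h2 : Op (Emem V) (cls V (opN φ)) y z v)
    (h3 : Op (Emem V) (cls V (opN φ)) u z w) : Op (Emem V) (cls V (opN φ)) x v w := by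
  refine forall_RN₃ (P := fun V x y z => ∀ u v w, Op (Emem V) (cls V (opN φ)) x y u →
    Op (Emem V) (cls V (opN φ)) y z v → Op (Emem V) (cls V (opN φ)) u z w →
      Op (Emem V) (cls V (opN φ)) x v w) (fun x y z => HasTV.all fun u => HasTV.all fun v =>
        HasTV.all fun w => (hasTV_op x y u _).imp ((hasTV_op y z v _).imp
          ((hasTV_op u z w _).imp (hasTV_op x v w _))))
    (fun f hf g hg k hk V u v w h1 h2 h3 => ?_) V x y z hx hy hz u v w h1 h2 h3
  rw [op_opN hφ hf hg] at h1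
  rw [op_opN hφ hg hk] at h2
  subst h1 h2
  rw [op_opN hφ (show Measurable fun z => φ (f z) (g z) from hφ.comp (hf.prodMk hg)) hk] at h3
  rw [op_opN hφ hf (show Measurable fun z => φ (g z) (k z) from hφ.comp (hg.prodMk hk)), h3]
  simp only [hc]

theorem field_mul_add (x y z u v w s : Mod V)
    (hx : Emem V x (cls V (RN W))) (hy : Emem V y (cls V (RN W))) (hz : Emem V z (cls V (RN W)))
    (h1 : Op (Emem V) (cls V (addN W)) y z s) (h2 : Op (Emem V) (cls V (mulN W)) x y u)
    (h3 : Op (Emem V) (cls V (mulN W)) x z v) (h4 : Op (Emem V) (cls V (mulN W)) x s w) :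
    Op (Emem V) (cls V (addN W)) u v w := by
  refine forall_RN₃ (P := fun V x y z => ∀ u v w s, Op (Emem V) (cls V (addN W)) y z s →
    Op (Emem V) (cls V (mulN W)) x y u → Op (Emem V) (cls V (mulN W)) x z v →
      Op (Emem V) (cls V (mulN W)) x s w → Op (Emem V) (cls V (addN W)) u v w)
      (fun x y z => HasTV.all fun u => HasTV.all fun v => HasTV.all fun w => HasTV.all fun s =>
        (hasTV_op y z s _).imp ((hasTV_op x y u _).imp ((hasTV_op x z v _).imp
          ((hasTV_op x s w _).imp (hasTV_op u v w _)))))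
    (fun f hf g hg k hk V u v w s h1 h2 h3 h4 => ?_) V x y z hx hy hz u v w s h1 h2 h3 h4
  rw [op_addN hg hk] at h1
  rw [op_mulN hf hg] at h2
  rw [op_mulN hf hk] at h3
  subst h1 h2 h3
  rw [op_mulN hf (show Measurable fun z => g z + k z from hg.add hk)] at h4
  rw [op_addN (show Measurable fun z => f z * g z from hf.mul hg)
    (show Measurable fun z => f z * k z from hf.mul hk), h4]
  simp only [mul_add]

theorem field_unit {φ : ℝ → ℝ → ℝ} (hφ : Measurable fun p : ℝ × ℝ => φ p.1 p.2) {e : ℝ}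
    (he : ∀ a, φ a e = a) (x : Mod V) (hx : Emem V x (cls V (RN W))) :
    Op (Emem V) (cls V (opN φ)) x (cls V (cN W e)) x := by
  refine forall_RN (P := fun V x => Op (Emem V) (cls V (opN φ)) x (cls V (cN W e)) x)
    (fun x => hasTV_op x _ x _) (fun f hf V => ?_) V x hx
  rw [op_opN hφ hf measurable_const]
  simp only [he]

theorem field_neg (x : Mod V) (hx : Emem V x (cls V (RN W))) :
    ∃ y, Emem V y (cls V (RN W)) ∧ Op (Emem V) (cls V (addN W)) x y (cls V (cN W 0)) := by
  refine forall_RN (P := fun V x => ∃ y, Emem V y (cls V (RN W)) ∧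
    Op (Emem V) (cls V (addN W)) x y (cls V (cN W 0)))
    (fun x => HasTV.ex fun y => (HasTV.mem y _).and (hasTV_op x y _ _)) (fun f hf V => ?_) V x hx
  refine ⟨cls V (rN fun z => - f z), rN_mem hf.neg V, ?_⟩
  rw [op_addN hf (show Measurable fun z => - f z from hf.neg)]
  simp

theorem field_inv (x : Mod V) (hx : Emem V x (cls V (RN W))) (hne : x ≠ cls V (cN W 0)) :
    ∃ y, Emem V y (cls V (RN W)) ∧ Op (Emem V) (cls V (mulN W)) x y (cls V (cN W 1)) := by
  refine forall_RN (P := fun V x => x ≠ cls V (cN W 0) → ∃ y, Emem V y (cls V (RN W)) ∧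
    Op (Emem V) (cls V (mulN W)) x y (cls V (cN W 1)))
    (fun x => (HasTV.eq x _).not.imp (HasTV.ex fun y => (HasTV.mem y _).and (hasTV_op x y _ _)))
    (fun f hf V hne => ?_) V x hx hne
  refine ⟨cls V (rN fun z => (f z)⁻¹), rN_mem hf.inv V, ?_⟩
  have hi : Measurable fun z => (f z)⁻¹ := hf.inv
  rw [op_mulN hf hi, cls_rN_eq measurable_const
    (show Measurable fun z => f z * (f z)⁻¹ from hf.mul hi)]
  rw [Ne, cls_rN_eq hf measurable_const,
    ← bool_compl_mem (measurableSet_eq_fun hf measurable_const)] at hne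
  refine bool_mem_mono hne fun z hz => ?_
  simp only [Set.mem_compl_iff, Set.mem_ofPred_eq] at hz ⊢
  rw [mul_inv_cancel₀ hz]

theorem order_irrefl (x : Mod V) : ¬ Rel (Emem V) (cls V (ltN W)) x x := by
  intro h
  refine forall_RN (P := fun V x => ¬ Rel (Emem V) (cls V (ltN W)) x x)
    (fun x => (hasTV_rel _ x x).not) (fun f hf V h => ?_) V x (rel_ltN_mem h).1 h
  rw [rel_ltN hf hf] at h
  exact bool_mem_false h fun z hz => lt_irrefl (f z) hz

theorem order_trans (x y z : Mod V) (hx : Emem V x (cls V (RN W)))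
    (hy : Emem V y (cls V (RN W))) (hz : Emem V z (cls V (RN W)))
    (h1 : Rel (Emem V) (cls V (ltN W)) x y) (h2 : Rel (Emem V) (cls V (ltN W)) y z) :
    Rel (Emem V) (cls V (ltN W)) x z := by
  refine forall_RN₃ (P := fun V x y z => Rel (Emem V) (cls V (ltN W)) x y →
    Rel (Emem V) (cls V (ltN W)) y z → Rel (Emem V) (cls V (ltN W)) x z)
    (fun x y z => (hasTV_rel _ x y).imp ((hasTV_rel _ y z).imp (hasTV_rel _ x z)))
    (fun f hf g hg k hk V h1 h2 => ?_) V x y z hx hy hz h1 h2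
  rw [rel_ltN hf hg] at h1
  rw [rel_ltN hg hk] at h2
  rw [rel_ltN hf hk]
  refine bool_mem_mono (bool_inter_mem.mpr ⟨h1, h2⟩) fun z hz => ?_
  simp only [Set.mem_inter_iff, Set.mem_ofPred_eq] at hz ⊢
  exact hz.1.trans hz.2

theorem order_total (x y : Mod V) (hx : Emem V x (cls V (RN W)))
    (hy : Emem V y (cls V (RN W))) :
    Rel (Emem V) (cls V (ltN W)) x y ∨ x = y ∨ Rel (Emem V) (cls V (ltN W)) y x := by
  refine forall_RN₂ (P := fun V x y => Rel (Emem V) (cls V (ltN W)) x y ∨ x = y ∨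
    Rel (Emem V) (cls V (ltN W)) y x)
    (fun x y => (hasTV_rel _ x y).or ((HasTV.eq x y).or (hasTV_rel _ y x)))
    (fun f hf g hg V => ?_) V x y hx hy
  rw [rel_ltN hf hg, rel_ltN hg hf, cls_rN_eq hf hg,
    ← bool_union_mem (measurableSet_eq_fun hf hg) (measurableSet_lt hg hf),
    ← bool_union_mem (measurableSet_lt hf hg)
      ((measurableSet_eq_fun hf hg).union (measurableSet_lt hg hf))]
  exact bool_mem_of_forall V fun z => lt_trichotomy (f z) (g z)

theorem order_add (x y z u v : Mod V) (hx : Emem V x (cls V (RN W)))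
    (hy : Emem V y (cls V (RN W))) (hz : Emem V z (cls V (RN W)))
    (h : Rel (Emem V) (cls V (ltN W)) x y) (h1 : Op (Emem V) (cls V (addN W)) x z u)
    (h2 : Op (Emem V) (cls V (addN W)) y z v) : Rel (Emem V) (cls V (ltN W)) u v := by
  refine forall_RN₃ (P := fun V x y z => ∀ u v, Rel (Emem V) (cls V (ltN W)) x y →
    Op (Emem V) (cls V (addN W)) x z u → Op (Emem V) (cls V (addN W)) y z v →
      Rel (Emem V) (cls V (ltN W)) u v)
    (fun x y z => HasTV.all fun u => HasTV.all fun v => (hasTV_rel _ x y).imp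
      ((hasTV_op x z u _).imp ((hasTV_op y z v _).imp (hasTV_rel _ u v))))
    (fun f hf g hg k hk V u v h h1 h2 => ?_) V x y z hx hy hz u v h h1 h2
  rw [op_addN hf hk] at h1
  rw [op_addN hg hk] at h2
  subst h1 h2
  rw [rel_ltN hf hg] at h
  rw [rel_ltN (show Measurable fun z => f z + k z from hf.add hk)
    (show Measurable fun z => g z + k z from hg.add hk)]
  refine bool_mem_mono h fun z hz => ?_
  simp only [Set.mem_ofPred_eq] at hz ⊢
  linarith

theorem order_mul (x y z : Mod V) (hx : Emem V x (cls V (RN W)))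
    (hy : Emem V y (cls V (RN W))) (h1 : Rel (Emem V) (cls V (ltN W)) (cls V (cN W 0)) x)
    (h2 : Rel (Emem V) (cls V (ltN W)) (cls V (cN W 0)) y)
    (h : Op (Emem V) (cls V (mulN W)) x y z) :
    Rel (Emem V) (cls V (ltN W)) (cls V (cN W 0)) z := by
  refine forall_RN₂ (P := fun V x y => ∀ z, Rel (Emem V) (cls V (ltN W)) (cls V (cN W 0)) x →
    Rel (Emem V) (cls V (ltN W)) (cls V (cN W 0)) y → Op (Emem V) (cls V (mulN W)) x y z →
      Rel (Emem V) (cls V (ltN W)) (cls V (cN W 0)) z)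
    (fun x y => HasTV.all fun z => (hasTV_rel _ _ x).imp ((hasTV_rel _ _ y).imp
      ((hasTV_op x y z _).imp (hasTV_rel _ _ z))))
    (fun f hf g hg V z h1 h2 h => ?_) V x y hx hy z h1 h2 h
  rw [op_mulN hf hg] at h
  subst h
  rw [rel_ltN measurable_const hf] at h1
  rw [rel_ltN measurable_const hg] at h2
  rw [rel_ltN measurable_const (show Measurable fun z => f z * g z from hf.mul hg)]
  refine bool_mem_mono (bool_inter_mem.mpr ⟨h1, h2⟩) fun z hz => ?_
  simp only [Set.mem_inter_iff, Set.mem_ofPred_eq] at hz ⊢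
  exact mul_pos hz.1 hz.2

end Fields

/-! ### Completeness -/

theorem forces_iInter {A : ℕ → Set (Pt W)} (hA : ∀ n, MeasurableSet (A n)) {H : Cond W}
    (h : ∀ n, Forces H fun V => bool (A n) ∈ V) : Forces H fun V => bool (⋂ n, A n) ∈ V :=
  fun _ hV => iInter_intro hA hV fun n V hV => h n V hV

theorem forces_bool_of_forall {A : Set (Pt W)} {H : Cond W} (h : ∀ z, H.eval z ∈ A) :
    Forces H fun V => bool A ∈ V := forces_bool.mpr (frc_bool_of_forall h)

/-- Reading of countably many truth values. -/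
theorem exists_truth {T : ℕ → UF (Bal W) → Prop} (hT : ∀ n, HasTV (T n)) (H : Cond W) :
    ∃ K, ∃ A : ℕ → Set (Pt W), (∀ n, MeasurableSet (A n)) ∧
      ∀ n, Forces (H * K) fun V => (T n V ↔ bool (A n) ∈ V) := by
  obtain ⟨K, hK⟩ := countable_choice (Y := Bool) (fun n K h => Forces K fun V =>
      (T n V ↔ bool {z | h z = true} ∈ V)) (fun _ _ => True) (fun m K L f h => h.mul L)
    (fun m K f f' hff h V hV => by
      refine (h V hV).trans ?_
      have h1 := forces_bool_of_forall (A := {z | f z = f' z}) (H := K) hff V hV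
      constructor
      · intro h2
        refine bool_mem_mono (bool_inter_mem.mpr ⟨h1, h2⟩) fun z hz => ?_
        simp only [Set.mem_inter_iff, Set.mem_ofPred_eq] at hz ⊢
        rw [← hz.1, hz.2]
      · intro h2
        refine bool_mem_mono (bool_inter_mem.mpr ⟨h1, h2⟩) fun z hz => ?_
        simp only [Set.mem_inter_iff, Set.mem_ofPred_eq] at hz ⊢
        rw [hz.1, hz.2])
    (fun m K f h => forces_of_dense ((hT m).iff (hasTV_bool _)) h) H
    (fun m L => by
      obtain ⟨M, hM | hM⟩ := forces_em (hT m) (H * L)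
      · refine ⟨M, fun _ => true, measurable_const, fun _ => trivial, hM.mono fun V hV => ?_⟩
        exact iff_of_true hV (bool_mem_of_forall V fun z => rfl)
      · refine ⟨M, fun _ => false, measurable_const, fun _ => trivial, hM.mono fun V hV => ?_⟩
        exact iff_of_false hV fun h => bool_mem_false h fun z hz => by simp at hz)
  choose f hf hR hΦ using hK
  exact ⟨K, fun n => {z | f n z = true}, fun n => hf n (measurableSet_singleton true), hΦ⟩

open Classical in
/-- The supremum of a set of rational numbers. -/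
noncomputable def supQ (A : ℕ → Set (Pt W)) (z : Pt W) : ℝ :=
  (⨆ n, (A n).piecewise (fun _ => ((qs n : ℝ) : EReal)) (fun _ => ⊥) z).toReal

theorem measurable_supQ {A : ℕ → Set (Pt W)} (hA : ∀ n, MeasurableSet (A n)) :
    Measurable (supQ A) := by
  classical
  refine measurable_ereal_toReal.comp (Measurable.iSup fun n => ?_)
  exact Measurable.piecewise (hA n) measurable_const measurable_const

theorem isLUB_supQ {A : ℕ → Set (Pt W)} {z : Pt W} (hne : ∃ n, z ∈ A n) {b : ℝ}
    (hb : ∀ n, z ∈ A n → (qs n : ℝ) ≤ b) : IsLUB {x : ℝ | ∃ n, z ∈ A n ∧ x = qs n} (supQ A z) := by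
  classical
  have h1 : ({x : ℝ | ∃ n, z ∈ A n ∧ x = qs n}).Nonempty := by
    obtain ⟨n, hn⟩ := hne
    exact ⟨_, n, hn, rfl⟩
  have h2 : BddAbove {x : ℝ | ∃ n, z ∈ A n ∧ x = qs n} := by
    refine ⟨b, ?_⟩
    rintro x ⟨n, hn, rfl⟩
    exact hb n hn
  have h3 := isLUB_csSup h1 h2
  have h4 : supQ A z = sSup {x : ℝ | ∃ n, z ∈ A n ∧ x = qs n} := by
    unfold supQ
    have h5 : (⨆ n, (A n).piecewise (fun _ => ((qs n : ℝ) : EReal)) (fun _ => ⊥) z) =
        ((sSup {x : ℝ | ∃ n, z ∈ A n ∧ x = qs n} : ℝ) : EReal) := by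
      apply le_antisymm
      · refine iSup_le fun n => ?_
        by_cases hn : z ∈ A n
        · rw [Set.piecewise_eq_of_mem _ _ _ hn]
          exact EReal.coe_le_coe_iff.mpr (h3.1 ⟨n, hn, rfl⟩)
        · rw [Set.piecewise_eq_of_notMem _ _ _ hn]
          exact bot_le
      · refine le_of_forall_lt fun c hc => ?_
        obtain ⟨r, hr1, hr2⟩ := EReal.lt_iff_exists_real_btwn.mp hc
        rw [EReal.coe_lt_coe_iff] at hr2
        obtain ⟨x, ⟨n, hn, rfl⟩, hx⟩ := (lt_isLUB_iff h3).mp hr2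
        refine lt_of_lt_of_le hr1 ((EReal.coe_le_coe_iff.mpr hx.le).trans ?_)
        refine le_iSup_of_le n ?_
        rw [Set.piecewise_eq_of_mem _ _ _ hn]
    rw [h5, EReal.toReal_coe]
  rw [h4]
  exact h3

/-- A nonempty bounded set has a supremum. -/
theorem complete (V : UF (Bal W)) (a : Mod V) (ha : IsSub (Emem V) a (cls V (RN W)))
    (hne : ∃ x, Emem V x a)
    (hb : ∃ b, Emem V b (cls V (RN W)) ∧ ∀ x, Emem V x a → ¬ Rel (Emem V) (cls V (ltN W)) b x) :
    ∃ s, Emem V s (cls V (RN W)) ∧ (∀ x, Emem V x a → ¬ Rel (Emem V) (cls V (ltN W)) s x) ∧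
      ∀ b, Emem V b (cls V (RN W)) → (∀ x, Emem V x a → ¬ Rel (Emem V) (cls V (ltN W)) b x) →
        ¬ Rel (Emem V) (cls V (ltN W)) b s := by
  obtain ⟨a, rfl⟩ := cls_surj V a
  refine imp_of_dense (P := fun V => IsSub (Emem V) (cls V a) (cls V (RN W)) ∧
    (∃ x, Emem V x (cls V (RN W)) ∧ Emem V x (cls V a)) ∧
    ∃ b, Emem V b (cls V (RN W)) ∧ ∀ x, Emem V x (cls V a) →
      ¬ Rel (Emem V) (cls V (ltN W)) b x)
    (Q := fun V => ∃ s, Emem V s (cls V (RN W)) ∧
      (∀ x, Emem V x (cls V a) → ¬ Rel (Emem V) (cls V (ltN W)) s x) ∧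
      ∀ b, Emem V b (cls V (RN W)) → (∀ x, Emem V x (cls V a) →
        ¬ Rel (Emem V) (cls V (ltN W)) b x) → ¬ Rel (Emem V) (cls V (ltN W)) b s)
    ((hasTV_isSub a _).and ((HasTV.ex fun x => (HasTV.mem x _).and (HasTV.mem x a)).and
      (HasTV.ex fun b => (HasTV.mem b _).and (HasTV.all fun x => (HasTV.mem x a).imp
        (hasTV_rel _ b x).not))))
    (HasTV.ex fun s => (HasTV.mem s _).and ((HasTV.all fun x => (HasTV.mem x a).imp
      (hasTV_rel _ s x).not).and (HasTV.all fun b => (HasTV.mem b _).imp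
        ((HasTV.all fun x => (HasTV.mem x a).imp (hasTV_rel _ b x).not).imp
          (hasTV_rel _ b s).not)))) (fun H hH => ?_) V ⟨ha, ?_, hb⟩
  swap
  · obtain ⟨x, hx⟩ := hne
    exact ⟨x, ha x hx, hx⟩
  have hsub : Forces H fun V => IsSub (Emem V) (cls V a) (cls V (RN W)) := hH.mono fun V h => h.1
  obtain ⟨L1, f, hf, hfa⟩ := exists_forces_real (fun x => HasTV.mem x a)
    (hH.mono fun V h => h.2.1)
  obtain ⟨L2, g, hg, hga⟩ := exists_forces_real (H := H * L1)
    (P := fun V b => ∀ x, Emem V x (cls V a) → ¬ Rel (Emem V) (cls V (ltN W)) b x)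
    (fun b => HasTV.all fun x => (HasTV.mem x a).imp (hasTV_rel _ b x).not)
    ((hH.mono fun V h => h.2.2).mul L1)
  obtain ⟨L3, A, hA, hAT⟩ := exists_truth (T := fun n V => ∃ x, Emem V x (cls V a) ∧
      Rel (Emem V) (cls V (ltN W)) (cls V (cN W (qs n))) x)
    (fun n => HasTV.ex fun x => (HasTV.mem x a).and (hasTV_rel _ _ x)) (H * L1 * L2)
  set T : Cond W := H * L1 * L2 * L3 with hT
  have hsubT : Forces T fun V => IsSub (Emem V) (cls V a) (cls V (RN W)) :=
    ((hsub.mul L1).mul L2).mul L3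
  have hfaT : Forces T fun V => Emem V (cls V (rN f)) (cls V a) := (hfa.mul L2).mul L3
  have hgaT := hga.mul L3
  have hs := measurable_supQ hA
  have hcm : ∀ n, Measurable fun _ : Pt W => (qs n : ℝ) := fun n => measurable_const
  -- the set is bounded by `g`
  have hbT : Forces T fun V => bool {z | ∀ n, z ∈ A n → (qs n : ℝ) ≤ g z} ∈ V := by
    have h1 : {z | ∀ n, z ∈ A n → (qs n : ℝ) ≤ g z} =
        ⋂ n, (A n ∩ {z | g z < (qs n : ℝ)})ᶜ := by
      ext z
      simp only [Set.mem_ofPred_eq, Set.mem_iInter, Set.mem_compl_iff, Set.mem_inter_iff,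
        not_and, not_lt]
    rw [h1]
    refine forces_iInter (fun n => ((hA n).inter (measurableSet_lt hg (hcm n))).compl)
      fun n V hV => ?_
    refine (bool_compl_mem ((hA n).inter (measurableSet_lt hg (hcm n)))).mpr fun h23 => ?_
    obtain ⟨h2, h3⟩ := bool_inter_mem.mp h23
    obtain ⟨x, hx, hx'⟩ := (hAT n V hV).mpr h2
    refine hgaT V hV x hx (order_trans V _ _ _ (rN_mem hg V) (rN_mem (hcm n) V)
      (hsubT V hV x hx) ((rel_ltN hg (hcm n) V).mpr h3) hx')
  have hnT : Forces T fun V => bool {z | ∃ n, z ∈ A n} ∈ V := by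
    intro V hV
    refine iUnion_elim (P := fun V => bool {z | ∃ n, z ∈ A n} ∈ V) (hasTV_bool _)
      (A := fun n => {z | (qs n : ℝ) < f z}) (fun n => measurableSet_lt (hcm n) hf) hV
      (bool_mem_of_forall V fun z => ?_) fun n V hV h => ?_
    · obtain ⟨q, hq⟩ := exists_rat_lt (f z)
      obtain ⟨n, rfl⟩ := qs_surj q
      exact Set.mem_iUnion.mpr ⟨n, hq⟩
    · refine bool_mem_mono ((hAT n V hV).mp ⟨_, hfaT V hV, (rel_ltN (hcm n) hf V).mpr h⟩)
        fun z hz => ⟨n, hz⟩
  have hlub : Forces T fun V => bool {z | IsLUB {x : ℝ | ∃ n, z ∈ A n ∧ x = qs n} (supQ A z)} ∈ V :=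
    fun V hV => bool_mem_mono (bool_inter_mem.mpr ⟨hbT V hV, hnT V hV⟩) fun z hz =>
      isLUB_supQ hz.2 hz.1
  refine ⟨L1 * L2 * L3, ?_⟩
  have hTT : H * (L1 * L2 * L3) = T := by rw [hT, mul_assoc, mul_assoc, mul_assoc]
  rw [hTT]
  intro V hV
  refine ⟨cls V (rN (supQ A)), rN_mem hs V, ?_, ?_⟩
  · intro x hx hsx
    refine forall_mem_RN (P := fun V x => Emem V x (cls V a) →
      ¬ Rel (Emem V) (cls V (ltN W)) (cls V (rN (supQ A))) x)
      (fun x => (HasTV.mem x a).imp (hasTV_rel _ _ x).not) hV (fun k hk V hV hx hsx => ?_) x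
      (hsubT V hV x hx) hx hsx
    rw [rel_ltN hs hk] at hsx
    refine iUnion_elim (P := fun _ => False) (HasTV.const _) (c := cone T ⊓ bmem (rN k) a)
      (A := fun n => {z | supQ A z < (qs n : ℝ)} ∩ {z | (qs n : ℝ) < k z})
      (fun n => (measurableSet_lt hs (hcm n)).inter (measurableSet_lt (hcm n) hk))
      (V.inf_mem hV hx) (bool_mem_mono hsx fun z hz => ?_) fun n V hc h => ?_
    · obtain ⟨q, hq1, hq2⟩ := exists_rat_btwn (show supQ A z < k z from hz)
      obtain ⟨n, rfl⟩ := qs_surj q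
      exact Set.mem_iUnion.mpr ⟨n, hq1, hq2⟩
    · obtain ⟨hV, hx⟩ := V.inf_mem_iff.mp hc
      rw [bool_inter_mem] at h
      have h1 := (hAT n V hV).mp ⟨cls V (rN k), hx, (rel_ltN (hcm n) hk V).mpr h.2⟩
      refine bool_mem_false (bool_inter_mem.mpr ⟨bool_inter_mem.mpr ⟨h1, h.1⟩, hlub V hV⟩)
        fun z hz => ?_
      have h2 : supQ A z < (qs n : ℝ) := hz.1.2
      exact absurd (hz.2.1 ⟨n, hz.1.1, rfl⟩) (not_le.mpr h2)
  · intro b hbR hb hbs
    refine forall_mem_RN (P := fun V b => (∀ x, Emem V x (cls V a) →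
      ¬ Rel (Emem V) (cls V (ltN W)) b x) → ¬ Rel (Emem V) (cls V (ltN W)) b (cls V (rN (supQ A))))
      (fun b => (HasTV.all fun x => (HasTV.mem x a).imp (hasTV_rel _ b x).not).imp
        (hasTV_rel _ b _).not) hV (fun k hk V hV hb hbs => ?_) b hbR hb hbs
    rw [rel_ltN hk hs] at hbs
    obtain ⟨χ, hχ⟩ : HasTV fun V => ∀ x, Emem V x (cls V a) →
      ¬ Rel (Emem V) (cls V (ltN W)) (cls V (rN k)) x :=
      HasTV.all fun x => (HasTV.mem x a).imp (hasTV_rel _ _ x).not
    refine iUnion_elim (P := fun _ => False) (HasTV.const _) (c := cone T ⊓ χ)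
      (A := fun n => A n ∩ {z | k z < (qs n : ℝ)})
      (fun n => (hA n).inter (measurableSet_lt hk (hcm n)))
      (V.inf_mem hV ((hχ V).mp hb)) (bool_mem_mono (bool_inter_mem.mpr ⟨hbs, hlub V hV⟩)
        fun z hz => ?_) fun n V hc h => ?_
    · obtain ⟨x, ⟨n, hn, rfl⟩, hx⟩ := (lt_isLUB_iff hz.2).mp (show k z < supQ A z from hz.1)
      exact Set.mem_iUnion.mpr ⟨n, hn, hx⟩
    · obtain ⟨hV, hb⟩ := V.inf_mem_iff.mp hc
      rw [bool_inter_mem] at h
      obtain ⟨x, hx, hx'⟩ := (hAT n V hV).mpr h.1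
      exact (hχ V).mpr hb x hx (order_trans V _ _ _ (rN_mem hk V) (rN_mem (hcm n) V)
        (hsubT V hV x hx) ((rel_ltN hk (hcm n) V).mpr h.2) hx')

/-- The names for the real numbers form a complete ordered field. -/
theorem isRealField (V : UF (Bal W)) : IsRealField (Emem V) (cls V (RN W)) (cls V (addN W))
    (cls V (mulN W)) (cls V (ltN W)) (cls V (cN W 0)) (cls V (cN W 1)) where
  add_op := isOp_opN measurable_add V
  mul_op := isOp_opN measurable_mul V
  zero_mem := rN_mem measurable_const V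
  one_mem := rN_mem measurable_const V
  zero_ne_one := by
    rw [Ne, cls_rN_eq measurable_const measurable_const]
    exact fun h => bool_mem_false h fun z hz => zero_ne_one (α := ℝ) hz
  add_comm := fun x y z => field_comm V measurable_add add_comm x y z
  mul_comm := fun x y z => field_comm V measurable_mul mul_comm x y z
  add_assoc := fun x y z u v w => field_assoc V measurable_add add_assoc x y z u v w
  mul_assoc := fun x y z u v w => field_assoc V measurable_mul mul_assoc x y z u v w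
  mul_add := fun x y z u v w s => field_mul_add V x y z u v w s
  add_zero := fun x => field_unit V measurable_add add_zero x
  mul_one := fun x => field_unit V measurable_mul mul_one x
  exists_neg := fun x => field_neg V x
  exists_inv := fun x => field_inv V x
  lt_irrefl := fun x => order_irrefl V x
  lt_trans := fun x y z => order_trans V x y z
  lt_total := fun x y => order_total V x y
  add_lt := fun x y z u v => order_add V x y z u v
  mul_pos := fun x y z => order_mul V x y z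
  complete := fun a => complete V a

end Pool.Agent.Miller
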