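import Pool.Agent.Lib_helper75.Miller.Forcing
import Pool.Agent.Lib_helper75.Miller.NotionsTV

/-!
Names for real numbers: the real numbers of the quotient models are given by measurable functions.
-/

set_option autoImplicit false
set_option linter.unusedSectionVars false

universe u

namespace Pool.Agent.Miller

open Pool.Agent.BVM BSet

variable {W : Type u} [LinearOrder W] [WellFoundedLT W]

/-! ### Countable quantifiers -/

theorem ex_omega_iff {P : ∀ V : UF (Bal W), Mod V → Prop}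
    (hP : ∀ x : BSet (Bal W), HasTV fun V => P V (cls V x)) {A : ℕ → Set (Pt W)}
    (hA : ∀ n, MeasurableSet (A n)) (h : ∀ n V, P V (cls V (nN n)) ↔ bool (A n) ∈ V)
    (V : UF (Bal W)) :
    (∃ x, Emem V x (cls V (omega (Bal W))) ∧ P V x) ↔ bool (⋃ n, A n) ∈ V := by
  choose χ hχ using hP
  have hE : Ext χ := HasTV.ext_of hχ
  have h1 : (⨆ y, bmem y (omega (Bal W)) ⊓ χ y) = bool (⋃ n, A n) := by
    rw [iSup_bmem hE, bool_iUnion hA]
    have h2 : ∀ n, χ (nN n) = bool (A n) := fun n =>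
      UF.eq_of_forall fun V => (hχ _ V).symm.trans (h n V)
    apply le_antisymm
    · refine iSup_le fun (i : ULift.{u} ℕ) => ?_
      refine le_iSup_of_le i.down (inf_le_right.trans ?_)
      rw [← h2]
      exact le_rfl
    · refine iSup_le fun n => le_iSup_of_le (show (omega (Bal W)).Idx from ULift.up.{u} n)
        (le_inf le_top ?_)
      rw [← h2]
      exact le_rfl
  rw [← h1, iSup_mem_iff ((ext_bmem_left _).inf hE)]
  constructor
  · rintro ⟨x, hx1, hx2⟩
    obtain ⟨x, rfl⟩ := cls_surj V x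
    exact ⟨x, V.inf_mem hx1 ((hχ x V).mp hx2)⟩
  · rintro ⟨x, hx⟩
    obtain ⟨hx1, hx2⟩ := V.inf_mem_iff.mp hx
    exact ⟨cls V x, hx1, (hχ x V).mpr hx2⟩

theorem all_omega_iff {P : ∀ V : UF (Bal W), Mod V → Prop}
    (hP : ∀ x : BSet (Bal W), HasTV fun V => P V (cls V x)) {A : ℕ → Set (Pt W)}
    (hA : ∀ n, MeasurableSet (A n)) (h : ∀ n V, P V (cls V (nN n)) ↔ bool (A n) ∈ V)
    (V : UF (Bal W)) :
    (∀ x, Emem V x (cls V (omega (Bal W))) → P V x) ↔ bool (⋂ n, A n) ∈ V := by
  have h1 := ex_omega_iff (P := fun V x => ¬ P V x) (fun x => (hP x).not)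
    (A := fun n => (A n)ᶜ) (fun n => (hA n).compl)
    (fun n V => by rw [bool_compl_mem (hA n), h]) V
  rw [← not_iff_not, ← bool_compl_mem (MeasurableSet.iInter hA), Set.compl_iInter, ← h1]
  push Not
  exact Iff.rfl

/-! ### Membership in a set of names -/

/-- A property of all the elements of a set follows from the property for the names in it. -/
theorem forall_mem_of_idx {a : BSet (Bal W)} {P : ∀ V : UF (Bal W), Mod V → Prop}
    (hP : ∀ x : BSet (Bal W), HasTV fun V => P V (cls V x)) {V : UF (Bal W)} {b : Bal W}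
    (hb : b ∈ V) (h : ∀ (i : a.Idx) (V : UF (Bal W)), b ∈ V → a.wt i ∈ V → P V (cls V (a.elt i)))
    (x : Mod V) (hx : Emem V x (cls V a)) : P V x := by
  obtain ⟨x, rfl⟩ := cls_surj V x
  choose χ hχ using hP
  have hE : Ext χ := HasTV.ext_of hχ
  refine (hχ x V).mpr (V.mono (V.inf_mem hb hx) ?_)
  unfold bmem
  rw [inf_iSup_eq]
  refine iSup_le fun i => ?_
  have h1 : b ⊓ a.wt i ≤ χ (a.elt i) := UF.le_of_forall fun V hV =>
    (hχ _ V).mp (h i V (V.inf_mem_iff.mp hV).1 (V.inf_mem_iff.mp hV).2)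
  refine le_trans (le_inf ?_ (le_trans ?_ h1)) (hE (a.elt i) x)
  · rw [beq_symm]
    exact inf_le_right.trans inf_le_right
  · exact le_inf inf_le_left (inf_le_right.trans inf_le_left)

/-! ### Names for real numbers -/

/-- An enumeration of the rational numbers. -/
noncomputable def qs : ℕ → ℚ := (exists_surjective_nat ℚ).choose

theorem qs_surj : Function.Surjective qs := (exists_surjective_nat ℚ).choose_spec

/-- The name for the real number given by a function. -/
noncomputable def rN (f : Pt W → ℝ) : BSet (Bal W) :=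
  subN (W := ULift.{u} ℕ) fun n => bool {z | (qs n.down : ℝ) < f z}

theorem beq_rN {f g : Pt W → ℝ} (hf : Measurable f) (hg : Measurable g) :
    beq (rN f) (rN g) = bool {z | f z = g z} := by
  unfold rN
  rw [beq_subN]
  have hm : ∀ {f : Pt W → ℝ}, Measurable f → ∀ n, MeasurableSet {z | (qs n : ℝ) < f z} :=
    fun hf n => measurableSet_lt measurable_const hf
  have h1 : ∀ n : ℕ, (bool {z | (qs n : ℝ) < f z} ⇨ bool {z | (qs n : ℝ) < g z}) ⊓
      (bool {z | (qs n : ℝ) < g z} ⇨ bool {z | (qs n : ℝ) < f z}) =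
      bool {z | (qs n : ℝ) < f z ↔ (qs n : ℝ) < g z} := by
    intro n
    refine UF.eq_of_forall fun V => ?_
    rw [V.inf_mem_iff, V.himp_mem_iff, V.himp_mem_iff]
    have h2 : {z | (qs n : ℝ) < f z ↔ (qs n : ℝ) < g z} =
        ({z | (qs n : ℝ) < f z}ᶜ ∩ {z | (qs n : ℝ) < g z}ᶜ)ᶜ ∩
        ({z | (qs n : ℝ) < f z} ∩ {z | (qs n : ℝ) < g z}ᶜ)ᶜ ∩
        ({z | (qs n : ℝ) < f z}ᶜ ∩ {z | (qs n : ℝ) < g z})ᶜ ∪
        ({z | (qs n : ℝ) < f z}ᶜ ∩ {z | (qs n : ℝ) < g z}ᶜ) := by
      ext z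
      simp only [Set.mem_ofPred_eq, Set.mem_union, Set.mem_inter_iff, Set.mem_compl_iff]
      tauto
    have h3 : {z | (qs n : ℝ) < f z ↔ (qs n : ℝ) < g z} =
        ({z | (qs n : ℝ) < f z} ∩ {z | (qs n : ℝ) < g z}ᶜ)ᶜ ∩
        ({z | (qs n : ℝ) < g z} ∩ {z | (qs n : ℝ) < f z}ᶜ)ᶜ := by
      ext z
      simp only [Set.mem_ofPred_eq, Set.mem_inter_iff, Set.mem_compl_iff]
      tauto
    rw [h3, bool_inter, V.inf_mem_iff,
      bool_compl_mem ((hm hf n).inter (hm hg n).compl),
      bool_compl_mem ((hm hg n).inter (hm hf n).compl), bool_inter, bool_inter,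
      V.inf_mem_iff, V.inf_mem_iff, bool_compl_mem (hm hf n), bool_compl_mem (hm hg n)]
    tauto
  have h4 : {z | f z = g z} = ⋂ n : ℕ, {z | (qs n : ℝ) < f z ↔ (qs n : ℝ) < g z} := by
    ext z
    simp only [Set.mem_ofPred_eq, Set.mem_iInter]
    constructor
    · intro h n
      rw [h]
    · intro h
      by_contra hne
      rcases lt_or_gt_of_ne hne with hlt | hlt
      · obtain ⟨q, h1, h2⟩ := exists_rat_btwn hlt
        obtain ⟨n, rfl⟩ := qs_surj q
        exact absurd ((h n).mpr h2) (not_lt.mpr h1.le)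
      · obtain ⟨q, h1, h2⟩ := exists_rat_btwn hlt
        obtain ⟨n, rfl⟩ := qs_surj q
        exact absurd ((h n).mp h2) (not_lt.mpr h1.le)
  rw [h4, bool_iInter fun n => ?_]
  · apply le_antisymm
    · refine le_iInf fun n => (iInf_le _ (ULift.up.{u} n)).trans ?_
      rw [← h1]
    · refine le_iInf fun n => (iInf_le _ n.down).trans ?_
      rw [← h1]
  · have : {z | (qs n : ℝ) < f z ↔ (qs n : ℝ) < g z} =
        ({z | (qs n : ℝ) < f z} ∩ {z | (qs n : ℝ) < g z}ᶜ)ᶜ ∩
        ({z | (qs n : ℝ) < g z} ∩ {z | (qs n : ℝ) < f z}ᶜ)ᶜ := by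
      ext z
      simp only [Set.mem_ofPred_eq, Set.mem_inter_iff, Set.mem_compl_iff]
      tauto
    rw [this]
    exact ((hm hf n).inter (hm hg n).compl).compl.inter ((hm hg n).inter (hm hf n).compl).compl

theorem cls_rN_eq {f g : Pt W → ℝ} (hf : Measurable f) (hg : Measurable g) {V : UF (Bal W)} :
    cls V (rN f) = cls V (rN g) ↔ bool {z | f z = g z} ∈ V := by
  rw [cls_eq, beq_rN hf hg]

/-- Measurable functions. -/
def MFn (W : Type u) : Type u := {f : Pt W → ℝ // Measurable f}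

/-- The set of the real numbers. -/
noncomputable def RN (W : Type u) [LinearOrder W] [WellFoundedLT W] : BSet (Bal W) :=
  mk (MFn W) (fun f => rN f.1) fun _ => ⊤

/-- The name for a relation on the real numbers. -/
noncomputable def relN (S : ℝ → ℝ → Prop) : BSet (Bal W) :=
  mk (MFn W × MFn W) (fun p => opair (rN p.1.1) (rN p.2.1)) fun p => bool {z | S (p.1.1 z) (p.2.1 z)}

/-- The name for an operation on the real numbers. -/
noncomputable def opN (φ : ℝ → ℝ → ℝ) : BSet (Bal W) :=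
  mk (MFn W × MFn W) (fun p => opair (opair (rN p.1.1) (rN p.2.1)) (rN fun z => φ (p.1.1 z) (p.2.1 z)))
    fun _ => ⊤

theorem rN_mem {f : Pt W → ℝ} (hf : Measurable f) (V : UF (Bal W)) :
    Emem V (cls V (rN f)) (cls V (RN W)) :=
  V.mono V.top_mem (wt_le_bmem (RN W) (show (RN W).Idx from (⟨f, hf⟩ : MFn W)))

theorem forall_mem_RN {P : ∀ V : UF (Bal W), Mod V → Prop}
    (hP : ∀ x : BSet (Bal W), HasTV fun V => P V (cls V x)) {V : UF (Bal W)} {b : Bal W}
    (hb : b ∈ V) (h : ∀ (f : Pt W → ℝ) (_ : Measurable f) (V : UF (Bal W)), b ∈ V →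
      P V (cls V (rN f))) (x : Mod V) (hx : Emem V x (cls V (RN W))) : P V x :=
  forall_mem_of_idx (a := RN W) hP hb (fun i V hV _ => h (show MFn W from i).1 (show MFn W from i).2 V hV) x hx

theorem rel_relN {S : ℝ → ℝ → Prop} {f g : Pt W → ℝ} (hf : Measurable f) (hg : Measurable g) (V : UF (Bal W)) :
    Rel (Emem V) (cls V (relN S)) (cls V (rN f)) (cls V (rN g)) ↔
      bool {z | S (f z) (g z)} ∈ V := by
  rw [rel_iff]
  have h1 : bmem (opair (rN f) (rN g)) (relN S) = bool {z | S (f z) (g z)} := by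
    apply le_antisymm
    · refine iSup_le fun (p : MFn W × MFn W) => ?_
      obtain ⟨⟨f', hf'⟩, ⟨g', hg'⟩⟩ := p
      show bool {z | S (f' z) (g' z)} ⊓ beq (opair (rN f) (rN g)) (opair (rN f') (rN g')) ≤ _
      rw [beq_opair, beq_rN hf hf', beq_rN hg hg', ← bool_inter, ← bool_inter]
      refine bool_mono ?_
      rintro z ⟨h1, h2, h3⟩
      simp only [Set.mem_ofPred_eq] at h1 h2 h3 ⊢
      rw [h2, h3]
      exact h1
    · exact wt_le_bmem (relN S) (show (relN S).Idx from ((⟨f, hf⟩, ⟨g, hg⟩) : MFn W × MFn W))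
  rw [h1]

theorem op_opN {φ : ℝ → ℝ → ℝ} (hφ : Measurable fun p : ℝ × ℝ => φ p.1 p.2) {f g : Pt W → ℝ}
    (hf : Measurable f) (hg : Measurable g) (V : UF (Bal W)) (z : Mod V) :
    Op (Emem V) (cls V (opN φ)) (cls V (rN f)) (cls V (rN g)) z ↔
      z = cls V (rN fun z => φ (f z) (g z)) := by
  obtain ⟨z, rfl⟩ := cls_surj V z
  have hm : ∀ {f g : Pt W → ℝ}, Measurable f → Measurable g → Measurable fun z => φ (f z) (g z) :=
    fun hf hg => hφ.comp (hf.prodMk hg)
  have h0 : Op (Emem V) (cls V (opN φ)) (cls V (rN f)) (cls V (rN g)) (cls V z) ↔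
      Rel (Emem V) (cls V (opN φ)) (cls V (opair (rN f) (rN g))) (cls V z) := by
    unfold Op
    simp only [isPair_iff, exists_eq_left]
  rw [h0, rel_iff, cls_eq]
  have h1 : bmem (opair (opair (rN f) (rN g)) z) (opN φ) =
      beq z (rN fun z => φ (f z) (g z)) := by
    apply le_antisymm
    · refine iSup_le fun (p : MFn W × MFn W) => ?_
      obtain ⟨⟨f', hf'⟩, ⟨g', hg'⟩⟩ := p
      show ⊤ ⊓ beq (opair (opair (rN f) (rN g)) z)
        (opair (opair (rN f') (rN g')) (rN fun z => φ (f' z) (g' z))) ≤ _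
      rw [beq_opair, beq_opair, top_inf_eq, beq_rN hf hf', beq_rN hg hg', ← bool_inter]
      refine le_trans (le_inf inf_le_right (inf_le_left.trans ?_)) (beq_trans _ _ _)
      rw [beq_rN (hm hf' hg') (hm hf hg)]
      refine bool_mono ?_
      rintro z ⟨h2, h3⟩
      simp only [Set.mem_ofPred_eq] at h2 h3 ⊢
      rw [h2, h3]
    · have h2 := wt_le_bmem (opN φ)
        (show (opN φ).Idx from ((⟨f, hf⟩, ⟨g, hg⟩) : MFn W × MFn W))
      have h3 : bmem (opair (opair (rN f) (rN g)) (rN fun z => φ (f z) (g z))) (opN φ) = ⊤ :=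
        top_unique h2
      have h4 := bmem_congr_left (opair (opair (rN f) (rN g)) (rN fun z => φ (f z) (g z)))
        (opair (opair (rN f) (rN g)) z) (opN φ)
      rw [h3, beq_opair, beq_refl, top_inf_eq, inf_top_eq, beq_symm] at h4
      exact h4
  rw [h1]

/-- The names for the addition, the multiplication and the order. -/
noncomputable abbrev addN (W : Type u) [LinearOrder W] [WellFoundedLT W] : BSet (Bal W) :=
  opN (· + ·)

/-- The name for the multiplication. -/
noncomputable abbrev mulN (W : Type u) [LinearOrder W] [WellFoundedLT W] : BSet (Bal W) :=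
  opN (· * ·)

/-- The name for the order. -/
noncomputable abbrev ltN (W : Type u) [LinearOrder W] [WellFoundedLT W] : BSet (Bal W) :=
  relN (· < ·)

/-- The name for a constant. -/
noncomputable abbrev cN (W : Type u) [LinearOrder W] [WellFoundedLT W] (r : ℝ) : BSet (Bal W) :=
  rN fun _ => r

section

variable {f g : Pt W → ℝ} (hf : Measurable f) (hg : Measurable g) (V : UF (Bal W))
include hf hg

theorem op_addN (z : Mod V) : Op (Emem V) (cls V (addN W)) (cls V (rN f)) (cls V (rN g)) z ↔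
    z = cls V (rN fun z => f z + g z) := op_opN measurable_add hf hg V z

theorem op_mulN (z : Mod V) : Op (Emem V) (cls V (mulN W)) (cls V (rN f)) (cls V (rN g)) z ↔
    z = cls V (rN fun z => f z * g z) := op_opN measurable_mul hf hg V z

theorem rel_ltN : Rel (Emem V) (cls V (ltN W)) (cls V (rN f)) (cls V (rN g)) ↔
    bool {z | f z < g z} ∈ V := rel_relN hf hg V

end

theorem rel_ltN_mem {V : UF (Bal W)} {x y : Mod V} (h : Rel (Emem V) (cls V (ltN W)) x y) :
    Emem V x (cls V (RN W)) ∧ Emem V y (cls V (RN W)) := by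
  obtain ⟨p, hp, hpm⟩ := h
  refine forall_mem_of_idx (a := ltN W) (P := fun V p => ∀ x y, IsPair (Emem V) p x y →
    Emem V x (cls V (RN W)) ∧ Emem V y (cls V (RN W))) (fun p => HasTV.all fun x => HasTV.all
      fun y => (hasTV_isPair p x y).imp ((HasTV.mem x _).and (HasTV.mem y _))) V.top_mem
      (fun (i : MFn W × MFn W) V _ _ x y hxy => ?_) p hpm x y hp
  obtain ⟨⟨f, hf⟩, ⟨g, hg⟩⟩ := i
  obtain ⟨x, rfl⟩ := cls_surj V x
  obtain ⟨y, rfl⟩ := cls_surj V y
  rw [isPair_iff] at hxy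
  obtain ⟨h1, h2⟩ := cls_opair_inj (x := rN f) (y := rN g) hxy
  rw [← h1, ← h2]
  exact ⟨rN_mem hf V, rN_mem hg V⟩

end Pool.Agent.Miller
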