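import Pool.Agent.Lib_helper75.Miller.Core

/-!
The statement (H) in the quotient models: names for sequences, the reading of strong measure zero
sets and of nowhere dense sets.
-/

set_option autoImplicit false
set_option linter.unusedSectionVars false

universe u

namespace Pool.Agent.Miller

open Pool.Agent.BVM BSet

variable {W : Type u} [LinearOrder W] [WellFoundedLT W]

/-! ### Quantifiers over the natural numbers -/

theorem omega_elim {P Q : ∀ V : UF (Bal W), Mod V → Prop}
    (hP : ∀ x : BSet (Bal W), HasTV fun V => P V (cls V x))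
    (hQ : ∀ x : BSet (Bal W), HasTV fun V => Q V (cls V x)) {V : UF (Bal W)} {c : Bal W}
    (hc : c ∈ V) (h : ∀ n (V : UF (Bal W)), c ∈ V → P V (cls V (nN n)) → Q V (cls V (nN n)))
    (x : Mod V) (hx : Emem V x (cls V (omega (Bal W)))) (hPx : P V x) : Q V x :=
  forall_mem_omega (P := fun V x => P V x → Q V x) (fun x => (hP x).imp (hQ x)) hc
    (fun n V hV => h n V hV) x hx hPx

/-- A choice of real numbers. -/
theorem choose_reals {P : ℕ → ∀ V : UF (Bal W), Mod V → Prop}
    (hP : ∀ n (x : BSet (Bal W)), HasTV fun V => P n V (cls V x)) (H : Cond W)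
    (h : ∀ n, Forces H fun V => ∃ x, Emem V x (cls V (RN W)) ∧ P n V x) :
    ∃ K, ∃ f : ℕ → Pt W → ℝ, (∀ n, Measurable (f n)) ∧
      ∀ n, Forces (H * K) fun V => P n V (cls V (rN (f n))) := by
  obtain ⟨K, hK⟩ := countable_choice (Y := ℝ) (fun n K f => ∀ f0, Measurable f0 →
      Forces K fun V => bool {z | f z = f0 z} ∈ V → P n V (cls V (rN f0))) (fun _ _ => True)
    (fun m K L f h f0 hf0 => (h f0 hf0).mul L)
    (fun m K f f' hff h f0 hf0 V hV hff0 => h f0 hf0 V hV <| bool_mem_mono
      (bool_inter_mem.mpr ⟨forces_bool_of_forall (A := {z | f z = f' z}) (H := K) hff V hV,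
        hff0⟩) fun z hz => by
        simp only [Set.mem_inter_iff, Set.mem_ofPred_eq] at hz ⊢
        rw [hz.1, hz.2])
    (fun m K f h f0 hf0 => forces_of_dense ((hasTV_bool _).imp (hP m _)) fun L =>
      ⟨(h L).choose, (h L).choose_spec f0 hf0⟩) H
    (fun n L => by
      obtain ⟨M, f, hf, hM⟩ := exists_forces_real (hP n) ((h n).mul L)
      refine ⟨M, f, hf, fun _ => trivial, fun f0 hf0 V hV h1 => ?_⟩
      rw [← (cls_rN_eq hf hf0).mpr h1]
      exact hM V hV)
  choose f hf _ hΦ using hK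
  exact ⟨K, f, hf, fun n V hV => hΦ n (f n) (hf n) V hV (bool_mem_of_forall V fun z => rfl)⟩

/-! ### Names for sequences of real numbers -/

/-- The name of a sequence of real numbers. -/
noncomputable def rseq (e : Pt W → ℕ → ℝ) : BSet (Bal W) := seqN fun n => rN fun z => e z n

theorem isFun_rseq {e : Pt W → ℕ → ℝ} (he : Measurable e) (V : UF (Bal W)) :
    IsFun (Emem V) (cls V (rseq e)) (cls V (omega (Bal W))) (cls V (RN W)) := by
  have hen : ∀ n, Measurable fun z => e z n := fun n => (measurable_pi_apply n).comp he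
  constructor
  · intro p hp
    obtain ⟨n, x, hn, hpx⟩ := pair_of_mem_seqN _ p hp
    refine ⟨n, x, hn, ?_, hpx⟩
    exact forall_rel_seqN _ (Q := fun V n x => Emem V x (cls V (RN W)))
      (fun n x => HasTV.mem x _) V.top_mem (fun n V _ => rN_mem (hen n) V) n x ⟨p, hpx, hp⟩
  · intro n hn
    exact existsUnique_rel_seqN _ n hn

theorem rel_rseq (e : Pt W → ℕ → ℝ) (n : ℕ) {V : UF (Bal W)} (x : Mod V) :
    Rel (Emem V) (cls V (rseq e)) (cls V (nN n)) x ↔ x = cls V (rN fun z => e z n) :=
  rel_seqN _ n x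

theorem nN_mem (n : ℕ) (V : UF (Bal W)) : Emem V (cls V (nN n)) (cls V (omega (Bal W))) := by
  rw [Emem_cls]
  show bmem (vN (Bal W) (ULift.up.{u} n)) (oT (Bal W) (ULift.{u} ℕ)) ∈ V
  rw [vN_mem_oT]
  exact V.top_mem

/-! ### Strong measure zero sets -/

theorem smzName_of_forces {X : BSet (Bal W)} {H : Cond W}
    (h : Forces H fun V => IsSMZ (Emem V) (cls V (RN W)) (cls V (addN W)) (cls V (ltN W))
      (cls V (cN W 0)) (cls V X)) : SMZName X H := by
  classical
  intro e he hpos L
  have hen : ∀ n, Measurable fun z => e z n := fun n => (measurable_pi_apply n).comp he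
  have h1 : Forces (H * L) fun V => ∃ a b,
      IsFun (Emem V) a (cls V (omega (Bal W))) (cls V (RN W)) ∧
      IsFun (Emem V) b (cls V (omega (Bal W))) (cls V (RN W)) ∧
      (∀ n x y r s, Rel (Emem V) a n x → Rel (Emem V) b n y →
        Rel (Emem V) (cls V (rseq e)) n r → Op (Emem V) (cls V (addN W)) x r s →
          Rel (Emem V) (cls V (ltN W)) y s) ∧
      ∀ x, Emem V x (cls V X) → ∃ n y z, Rel (Emem V) a n y ∧ Rel (Emem V) b n z ∧
        Rel (Emem V) (cls V (ltN W)) y x ∧ Rel (Emem V) (cls V (ltN W)) x z := by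
    intro V hV
    refine h.mul L V hV _ _ (isOmega_omega V) (isFun_rseq he V) fun n r hr => ?_
    exact forall_rel_seqN _ (Q := fun V n x => Rel (Emem V) (cls V (ltN W)) (cls V (cN W 0)) x)
      (fun n x => hasTV_rel _ _ x) V.top_mem (fun n V _ => by
        rw [rel_ltN measurable_const (hen n)]
        exact bool_mem_of_forall V fun z => hpos z n) n r hr
  obtain ⟨a, ha⟩ := exists_forces_name (fun a => HasTV.ex fun b => (hasTV_isFun a _ _).and
    ((hasTV_isFun b _ _).and ((HasTV.all fun n => HasTV.all fun x => HasTV.all fun y =>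
      HasTV.all fun r => HasTV.all fun s => (hasTV_rel a n x).imp ((hasTV_rel b n y).imp
        ((hasTV_rel _ n r).imp ((hasTV_op x r s _).imp (hasTV_rel _ y s))))).and
      (HasTV.all fun x => (HasTV.mem x X).imp (HasTV.ex fun n => HasTV.ex fun y =>
        HasTV.ex fun z => (hasTV_rel a n y).and ((hasTV_rel b n z).and
          ((hasTV_rel _ y x).and (hasTV_rel _ x z)))))))) h1
  obtain ⟨b, hab⟩ := exists_forces_name (fun b => (hasTV_isFun a _ _).and
    ((hasTV_isFun b _ _).and ((HasTV.all fun n => HasTV.all fun x => HasTV.all fun y =>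
      HasTV.all fun r => HasTV.all fun s => (hasTV_rel a n x).imp ((hasTV_rel b n y).imp
        ((hasTV_rel _ n r).imp ((hasTV_op x r s _).imp (hasTV_rel _ y s))))).and
      (HasTV.all fun x => (HasTV.mem x X).imp (HasTV.ex fun n => HasTV.ex fun y =>
        HasTV.ex fun z => (hasTV_rel a n y).and ((hasTV_rel b n z).and
          ((hasTV_rel _ y x).and (hasTV_rel _ x z)))))))) ha
  have hfun : ∀ {a : BSet (Bal W)} {V : UF (Bal W)},
      IsFun (Emem V) (cls V a) (cls V (omega (Bal W))) (cls V (RN W)) → ∀ n : ℕ,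
        ∃ x, Emem V x (cls V (RN W)) ∧ Rel (Emem V) (cls V a) (cls V (nN n)) x := by
    intro a V ha n
    obtain ⟨x, hx, -⟩ := ha.2 _ (nN_mem n V)
    obtain ⟨p, hp, hpa⟩ := hx
    obtain ⟨n', x', -, hx', hp'⟩ := ha.1 p hpa
    have : x = x' := by
      obtain ⟨x, rfl⟩ := cls_surj V x
      obtain ⟨x', rfl⟩ := cls_surj V x'
      obtain ⟨n', rfl⟩ := cls_surj V n'
      rw [isPair_iff] at hp hp'
      exact (cls_opair_inj (hp.symm.trans hp')).2
    exact ⟨x, this ▸ hx', p, hp, hpa⟩
  obtain ⟨K1, l, hl, hla⟩ := choose_reals (P := fun n V x =>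
      Rel (Emem V) (cls V a) (cls V (nN n)) x) (fun n x => hasTV_rel a _ x) (H * L)
    (fun n V hV => hfun (hab V hV).1 n)
  obtain ⟨K2, r, hr, hrb⟩ := choose_reals (P := fun n V x =>
      Rel (Emem V) (cls V b) (cls V (nN n)) x) (fun n x => hasTV_rel b _ x) (H * L * K1)
    (fun n V hV => hfun ((hab.mul K1) V hV).2.1 n)
  have hT : ∀ V : UF (Bal W), cone (H * L * (K1 * K2)) ∈ V → cone (H * L * K1 * K2) ∈ V := by
    intro V hV
    rwa [mul_assoc (H * L)]
  have hlT := fun n => (hla n).mul K2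
  have habT := (hab.mul K1).mul K2
  refine ⟨K1 * K2, fun z n => l n z, fun z n => if r n z - l n z < e z n then r n z else l n z,
    measurable_pi_lambda _ hl, ?_, fun z n => ?_, fun f hf V hV hfX => ?_⟩
  · exact measurable_pi_lambda _ fun n => Measurable.ite
      (measurableSet_lt ((hr n).sub (hl n)) (hen n)) (hr n) (hl n)
  · simp only
    split_ifs with hc
    · exact hc
    · rw [sub_self]
      exact hpos z n
  · have hV' := hT V hV
    obtain ⟨haV, hbV, -, hcov⟩ := habT V hV'
    obtain ⟨n, y, z, hy, hz, hyx, hxz⟩ := hcov _ hfX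
    have hnω : Emem V n (cls V (omega (Bal W))) := by
      obtain ⟨p, hp, hpa⟩ := hy
      obtain ⟨n', x', hn', -, hp'⟩ := haV.1 p hpa
      have : n = n' := by
        obtain ⟨n, rfl⟩ := cls_surj V n
        obtain ⟨y, rfl⟩ := cls_surj V y
        obtain ⟨x', rfl⟩ := cls_surj V x'
        obtain ⟨n', rfl⟩ := cls_surj V n'
        rw [isPair_iff] at hp hp'
        exact (cls_opair_inj (hp.symm.trans hp')).1
      rw [this]
      exact hn'
    refine omega_elim (P := fun V n => ∃ y z, Rel (Emem V) (cls V a) n y ∧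
      Rel (Emem V) (cls V b) n z ∧ Rel (Emem V) (cls V (ltN W)) y (cls V (rN f)) ∧
        Rel (Emem V) (cls V (ltN W)) (cls V (rN f)) z)
      (Q := fun V _ => bool {z | ∃ n, l n z < f z ∧ f z < if r n z - l n z < e z n then r n z
        else l n z} ∈ V)
      (fun n => HasTV.ex fun y => HasTV.ex fun z => (hasTV_rel a n y).and
        ((hasTV_rel b n z).and ((hasTV_rel _ y _).and (hasTV_rel _ _ z))))
      (fun _ => hasTV_bool _) hV' (fun n V hV h => ?_) n hnω ⟨y, z, hy, hz, hyx, hxz⟩
    obtain ⟨y, z, hy, hz, hyx, hxz⟩ := h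
    obtain ⟨haV, hbV, hlen, -⟩ := habT V hV
    have h1 := hlT n V hV
    have h2 := hrb n V hV
    rw [(haV.2 _ (nN_mem n V)).unique hy h1, rel_ltN (hl n) hf] at hyx
    rw [(hbV.2 _ (nN_mem n V)).unique hz h2, rel_ltN hf (hr n)] at hxz
    have h3 := hlen _ _ _ _ (cls V (rN fun z => l n z + e z n)) h1 h2
      ((rel_rseq e n _).mpr rfl) ((op_addN (hl n) (hen n) V _).mpr rfl)
    rw [rel_ltN (hr n) (show Measurable fun z => l n z + e z n from (hl n).add (hen n))] at h3
    refine bool_mem_mono (bool_inter_mem.mpr ⟨bool_inter_mem.mpr ⟨hyx, hxz⟩, h3⟩) fun z hz => ?_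
    obtain ⟨⟨hz1, hz2⟩, hz3⟩ := hz
    simp only [Set.mem_ofPred_eq] at hz1 hz2 hz3
    refine ⟨n, hz1, ?_⟩
    rw [if_pos (by linarith)]
    exact hz2

end Pool.Agent.Miller
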